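import Pool.Agent.H36.PQ.R2

/-!
# Module R3: the rank bound

`r3_hbg`: `A` nilpotent and almost polycyclic: there is `h` such that every subgroup of `A` is a
product of `h` cyclic groups. (All subgroups of `A` are finitely generated and `A` is soluble, so
`A` is polycyclic. Induction on the derived length, say: if `N` is normal in `A`, every subgroup of
`N` is a product of `h₁` and every subgroup of `A ⧸ N` a product of `h₂` cyclic groups, then every
subgroup of `A` is a product of `h₁ + h₂` cyclic groups; a finitely generated abelian group with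
`k` generators has the property with `h = k`, as every subgroup of it has `k` generators
(subgroups of `ℤ^k`), or by a series with cyclic factors.)

`rank_bound`: for `X = A B`, `A` nilpotent and almost polycyclic, `B` almost polycyclic, some `R`
bounds the ranks of all finite normal elementary abelian sections `M/L` of `X`. (Apply `r2_bound`
to `X ⧸ L`, the images of `A` and `B` and the image of `M`; subgroups of quotients of `A` are
images of subgroups of `A`, so `BG` with the same `h`; `AP.frk`, `FRk.of_surjective` for `B`.)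
-/

set_option autoImplicit false

universe u

namespace H36.PQ

open Subgroup H36.PP
open scoped commutatorElement

/-- the product of the cyclic groups generated by the entries of a list -/
def R3_PS {G : Type*} [Group G] : List G → Set G
  | [] => {1}
  | a :: l => {x | ∃ k : ℤ, ∃ y ∈ R3_PS l, x = a ^ k * y}

theorem R3_PS_one {G : Type*} [Group G] (l : List G) : (1 : G) ∈ R3_PS l := by
  induction l with
  | nil => exact rfl
  | cons a l ih => exact ⟨0, 1, ih, by simp⟩

theorem R3_PS_append {G : Type*} [Group G] (l m : List G) {x y : G} (hx : x ∈ R3_PS l)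
    (hy : y ∈ R3_PS m) : x * y ∈ R3_PS (l ++ m) := by
  induction l generalizing x with
  | nil =>
    have : x = 1 := hx
    rw [this, one_mul]
    exact hy
  | cons a l ih =>
    obtain ⟨k, z, hz, rfl⟩ := hx
    exact ⟨k, z * y, ih hz, by rw [mul_assoc]⟩

theorem R3_PS_map {G H : Type*} [Group G] [Group H] (f : G →* H) (l : List G) {x : G}
    (hx : x ∈ R3_PS l) : f x ∈ R3_PS (l.map f) := by
  induction l generalizing x with
  | nil =>
    have : x = 1 := hx
    rw [this, map_one]
    exact rfl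
  | cons a l ih =>
    obtain ⟨k, z, hz, rfl⟩ := hx
    exact ⟨k, f z, ih hz, by rw [map_mul, map_zpow]⟩

theorem R3_PS_lift {G H : Type*} [Group G] [Group H] (f : G →* H) (l : List G) {y : H}
    (hy : y ∈ R3_PS (l.map f)) : ∃ x ∈ R3_PS l, f x = y := by
  induction l generalizing y with
  | nil => exact ⟨1, rfl, by rw [map_one]; exact (show y = 1 from hy).symm⟩
  | cons a l ih =>
    obtain ⟨k, z, hz, rfl⟩ := hy
    obtain ⟨x, hx, rfl⟩ := ih hz
    exact ⟨a ^ k * x, ⟨k, x, hx, rfl⟩, by rw [map_mul, map_zpow]⟩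

theorem R3_PS_mem {G : Type*} [Group G] (K : Subgroup G) (l : List G) (hl : ∀ a ∈ l, a ∈ K)
    {x : G} (hx : x ∈ R3_PS l) : x ∈ K := by
  induction l generalizing x with
  | nil =>
    have : x = 1 := hx
    rw [this]
    exact one_mem K
  | cons a l ih =>
    obtain ⟨k, z, hz, rfl⟩ := hx
    exact mul_mem (zpow_mem (hl a List.mem_cons_self) k)
      (ih (fun b hb => hl b (List.mem_cons_of_mem a hb)) hz)

theorem R3_PS_ofFn {G : Type*} [Group G] {h : ℕ} (a : Fin h → G) (x : G) :
    x ∈ R3_PS (List.ofFn a) ↔ ∃ k : Fin h → ℤ, x = (List.ofFn fun i => a i ^ k i).prod := by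
  induction h generalizing x with
  | zero =>
    simp only [List.ofFn_zero, List.prod_nil]
    constructor
    · intro hx
      exact ⟨fun _ => 0, hx⟩
    · rintro ⟨_, hx⟩
      exact hx
  | succ h ih =>
    rw [List.ofFn_succ]
    constructor
    · rintro ⟨k, y, hy, rfl⟩
      obtain ⟨m, rfl⟩ := (ih (fun i => a i.succ) y).mp hy
      refine ⟨Fin.cons k m, ?_⟩
      rw [List.ofFn_succ, List.prod_cons]
      simp
    · rintro ⟨k, rfl⟩
      rw [List.ofFn_succ, List.prod_cons]
      exact ⟨k 0, _, (ih (fun i => a i.succ) _).mpr ⟨fun i => k i.succ, rfl⟩, rfl⟩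

theorem R3_BG_iff {G : Type*} [Group G] {h : ℕ} :
    BG G h ↔ ∃ l : List G, l.length = h ∧ ∀ x : G, x ∈ R3_PS l := by
  constructor
  · rintro ⟨a, ha⟩
    exact ⟨List.ofFn a, List.length_ofFn, fun x => (R3_PS_ofFn a x).mpr (ha x)⟩
  · rintro ⟨l, rfl, hl⟩
    refine ⟨l.get, fun x => (R3_PS_ofFn l.get x).mp ?_⟩
    rw [List.ofFn_get]
    exact hl x

theorem R3_BG_surj {G H : Type*} [Group G] [Group H] (f : G →* H) (hf : Function.Surjective f)
    {h : ℕ} (hG : BG G h) : BG H h := by
  obtain ⟨l, hl, hx⟩ := R3_BG_iff.mp hG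
  refine R3_BG_iff.mpr ⟨l.map f, by rw [List.length_map, hl], fun y => ?_⟩
  obtain ⟨x, rfl⟩ := hf y
  exact R3_PS_map f l (hx x)

/-- the subgroup `K` is a product of `h` cyclic groups -/
def R3_SB {G : Type*} [Group G] (K : Subgroup G) (h : ℕ) : Prop :=
  ∃ l : List G, l.length = h ∧ (∀ a ∈ l, a ∈ K) ∧ ∀ x ∈ K, x ∈ R3_PS l

theorem R3_SB_BG {G : Type*} [Group G] (K : Subgroup G) {h : ℕ} (hK : R3_SB K h) : BG K h := by
  obtain ⟨l, hl, hm, hx⟩ := hK
  have h1 : ∃ m : List K, m.map K.subtype = l := by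
    refine ⟨l.attach.map (fun a => ⟨a.1, hm a.1 a.2⟩), ?_⟩
    rw [List.map_map]
    exact List.attach_map_subtype_val l
  obtain ⟨m, rfl⟩ := h1
  refine R3_BG_iff.mpr ⟨m, by rw [← hl, List.length_map], fun x => ?_⟩
  obtain ⟨y, hy, hyx⟩ := R3_PS_lift K.subtype m (hx x.1 x.2)
  have : y = x := Subtype.ext hyx
  rw [← this]
  exact hy

theorem R3_PS_mul {G : Type*} [Group G] (hc : ∀ x y : G, x * y = y * x) (l : List G) {x y : G}
    (hx : x ∈ R3_PS l) (hy : y ∈ R3_PS l) : x * y ∈ R3_PS l := by
  induction l generalizing x y with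
  | nil =>
    have h1 : x = 1 := hx
    have h2 : y = 1 := hy
    rw [h1, h2, one_mul]
    exact rfl
  | cons a l ih =>
    obtain ⟨k, z, hz, rfl⟩ := hx
    obtain ⟨m, w, hw, rfl⟩ := hy
    refine ⟨k + m, z * w, ih hz hw, ?_⟩
    rw [zpow_add, mul_assoc, mul_assoc, ← mul_assoc z, hc z (a ^ m), mul_assoc]

theorem R3_PS_inv {G : Type*} [Group G] (hc : ∀ x y : G, x * y = y * x) (l : List G) {x : G}
    (hx : x ∈ R3_PS l) : x⁻¹ ∈ R3_PS l := by
  induction l generalizing x with
  | nil =>
    have h1 : x = 1 := hx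
    rw [h1, inv_one]
    exact rfl
  | cons a l ih =>
    obtain ⟨k, z, hz, rfl⟩ := hx
    refine ⟨-k, z⁻¹, ih hz, ?_⟩
    rw [mul_inv_rev, zpow_neg, hc]

theorem R3_PS_entry {G : Type*} [Group G] (l : List G) {x : G} (hx : x ∈ l) : x ∈ R3_PS l := by
  induction l with
  | nil => exact absurd hx (by simp)
  | cons a l ih =>
    rcases List.mem_cons.mp hx with h2 | h2
    · exact ⟨1, 1, R3_PS_one l, by rw [h2]; simp⟩
    · exact ⟨0, x, ih h2, by simp⟩

theorem R3_abel {G : Type*} [Group G] (hc : ∀ x y : G, x * y = y * x) (l : List G) :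
    ∀ x ∈ closure {a | a ∈ l}, x ∈ R3_PS l := by
  intro x hx
  induction hx using closure_induction with
  | mem x hx => exact R3_PS_entry l hx
  | one => exact R3_PS_one l
  | mul x y _ _ hx hy => exact R3_PS_mul hc l hx hy
  | inv x _ hx => exact R3_PS_inv hc l hx

theorem R3_abel_SB {G : Type*} [Group G] (hA : AP G) (hc : ∀ x y : G, x * y = y * x) :
    ∃ h, ∀ K : Subgroup G, R3_SB K h := by
  classical
  obtain ⟨r, hr⟩ := hA.frk
  refine ⟨r, fun K => ?_⟩
  obtain ⟨S, hS, hSK⟩ := hr K (hA.1 K)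
  refine ⟨S.toList ++ List.replicate (r - S.card) 1, ?_, ?_, ?_⟩
  · rw [List.length_append, Finset.length_toList, List.length_replicate]
    omega
  · intro a ha
    rcases List.mem_append.mp ha with h1 | h1
    · rw [← hSK]
      exact subset_closure (Finset.mem_toList.mp h1)
    · rw [List.eq_of_mem_replicate h1]
      exact one_mem K
  · intro x hx
    apply R3_abel hc
    rw [← hSK] at hx
    refine closure_mono ?_ hx
    intro a ha
    exact List.mem_append_left _ (Finset.mem_toList.mpr ha)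

theorem R3_ext {G : Type*} [Group G] (N : Subgroup G) [N.Normal] {a b : ℕ}
    (hQ : ∀ K : Subgroup (G ⧸ N), R3_SB K a) (hN : ∀ K : Subgroup N, R3_SB K b) :
    ∀ K : Subgroup G, R3_SB K (a + b) := by
  intro K
  obtain ⟨l, hl, hlm, hlx⟩ := hQ (K.map (QuotientGroup.mk' N))
  obtain ⟨m, hm, hmm, hmx⟩ := hN (K.subgroupOf N)
  have hlift : ∀ l : List (G ⧸ N), (∀ y ∈ l, y ∈ K.map (QuotientGroup.mk' N)) →
      ∃ l' : List G, (∀ x ∈ l', x ∈ K) ∧ l'.map (QuotientGroup.mk' N) = l := by
    intro l
    induction l with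
    | nil =>
      intro _
      exact ⟨[], by simp, rfl⟩
    | cons y l ih =>
      intro h
      obtain ⟨l', h1, h2⟩ := ih (fun z hz => h z (List.mem_cons_of_mem y hz))
      obtain ⟨x, hx, hxy⟩ := h y List.mem_cons_self
      refine ⟨x :: l', ?_, ?_⟩
      · intro z hz
        rcases List.mem_cons.mp hz with h3 | h3
        · rw [h3]
          exact hx
        · exact h1 z h3
      · rw [List.map_cons, h2, hxy]
  obtain ⟨l', hl'm, rfl⟩ := hlift l hlm
  refine ⟨l' ++ m.map N.subtype, ?_, ?_, ?_⟩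
  · rw [List.length_append, List.length_map, hm, ← hl, List.length_map]
  · intro x hx
    rcases List.mem_append.mp hx with h1 | h1
    · exact hl'm x h1
    · obtain ⟨y, hy, rfl⟩ := List.mem_map.mp h1
      exact mem_subgroupOf.mp (hmm y hy)
  · intro x hx
    obtain ⟨y, hy, hyx⟩ := R3_PS_lift (QuotientGroup.mk' N) l'
      (hlx (QuotientGroup.mk' N x) (mem_map_of_mem _ hx))
    have hyK : y ∈ K := R3_PS_mem K l' hl'm hy
    have hN : y⁻¹ * x ∈ N := by
      rw [← QuotientGroup.ker_mk' N, MonoidHom.mem_ker, map_mul, map_inv, hyx, inv_mul_cancel]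
    have h2 : (⟨y⁻¹ * x, hN⟩ : N) ∈ K.subgroupOf N :=
      mem_subgroupOf.mpr (mul_mem (inv_mem hyK) hx)
    have h3 := R3_PS_map N.subtype m (hmx _ h2)
    have h4 := R3_PS_append l' _ hy h3
    have h5 : y * N.subtype ⟨y⁻¹ * x, hN⟩ = x := by
      change y * (y⁻¹ * x) = x
      rw [mul_inv_cancel_left]
    rwa [h5] at h4

theorem R3_solv (n : ℕ) : ∀ (G : Type u) [Group G], AP G → derivedSeries G n = ⊥ →
    ∃ h, ∀ K : Subgroup G, R3_SB K h := by
  induction n with
  | zero =>
    intro G _ _ h0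
    refine ⟨0, fun K => ⟨[], rfl, by simp, fun x hx => ?_⟩⟩
    have h1 : x ∈ derivedSeries G 0 := by
      rw [derivedSeries_zero]
      exact mem_top x
    rw [h0, mem_bot] at h1
    exact h1
  | succ n ih =>
    intro G _ hA h0
    have hQ : derivedSeries (G ⧸ derivedSeries G n) n = ⊥ := by
      rw [← map_derivedSeries_eq (QuotientGroup.mk'_surjective (derivedSeries G n)) n,
        Subgroup.map_eq_bot_iff, QuotientGroup.ker_mk']
    obtain ⟨a, ha⟩ := ih (G ⧸ derivedSeries G n) (hA.quotient _) hQ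
    have hc : ∀ x y : derivedSeries G n, x * y = y * x := by
      intro x y
      apply Subtype.ext
      have h1 : ⁅(x : G), (y : G)⁆ ∈ derivedSeries G (n + 1) := by
        rw [derivedSeries_succ]
        exact commutator_mem_commutator x.2 y.2
      rw [h0, mem_bot, commutatorElement_eq_one_iff_mul_comm] at h1
      exact h1
    obtain ⟨b, hb⟩ := R3_abel_SB (hA.subgroup (derivedSeries G n)) hc
    exact ⟨a + b, R3_ext _ ha hb⟩

theorem r3_hbg {A : Type*} [Group A] (hA : AP A) (hn : Group.IsNilpotent A) :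
    ∃ h, ∀ A' : Subgroup A, BG A' h := by
  have hs : Group.IsSolvable A := inferInstance
  obtain ⟨n, hn'⟩ := hs.solvable
  obtain ⟨h, hh⟩ := R3_solv n A hA hn'
  exact ⟨h, fun A' => R3_SB_BG A' (hh A')⟩

theorem rank_bound {X : Type u} [Group X] (A B : Subgroup X) (hf : Fact A B)
    (hn : Group.IsNilpotent A) (hA : AP A) (hB : AP B) : ∃ R, SecB X R := by
  obtain ⟨h, hh⟩ := r3_hbg hA hn
  obtain ⟨r, hr⟩ := hB.frk
  obtain ⟨M₀, hM₀⟩ := r1_num h
  refine ⟨M₀ + r, ?_⟩
  intro p hp L M hL hM _ hfin hc he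
  have hsurj : Function.Surjective (QuotientGroup.mk' L) := QuotientGroup.mk'_surjective L
  have hV : (M.map (QuotientGroup.mk' L)).Normal := hM.map _ hsurj
  have hcard : Nat.card (M.map (QuotientGroup.mk' L)) = L.relIndex M := by
    rw [← relIndex_ker, QuotientGroup.ker_mk']
  have hfin' : Finite (M.map (QuotientGroup.mk' L)) :=
    Nat.finite_of_card_ne_zero (by rw [hcard]; exact hfin)
  rw [← hcard]
  have hsA : Function.Surjective ((QuotientGroup.mk' L).subgroupMap A) :=
    (QuotientGroup.mk' L).subgroupMap_surjective A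
  have hsB : Function.Surjective ((QuotientGroup.mk' L).subgroupMap B) :=
    (QuotientGroup.mk' L).subgroupMap_surjective B
  refine r2_bound (A.map (QuotientGroup.mk' L)) (B.map (QuotientGroup.mk' L)) ?_ ?_ (h := h) ?_
    (r := r) ?_ hM₀ hp (M.map (QuotientGroup.mk' L)) hfin' ?_ ?_
  · intro g
    obtain ⟨x, rfl⟩ := hsurj g
    obtain ⟨a, ha, b, hb, rfl⟩ := hf x
    exact ⟨_, mem_map_of_mem _ ha, _, mem_map_of_mem _ hb, map_mul _ _ _⟩
  · exact Group.nilpotent_of_surjective _ hsA
  · intro A'
    have h1 := hh (A'.comap ((QuotientGroup.mk' L).subgroupMap A))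
    let g : A'.comap ((QuotientGroup.mk' L).subgroupMap A) →* A' :=
      { toFun := fun x => ⟨(QuotientGroup.mk' L).subgroupMap A x.1, x.2⟩
        map_one' := by
          apply Subtype.ext
          simp
        map_mul' := by
          intro x y
          apply Subtype.ext
          simp }
    refine R3_BG_surj g ?_ h1
    intro y
    obtain ⟨x, hx⟩ := hsA y.1
    exact ⟨⟨x, by rw [mem_comap, hx]; exact y.2⟩, Subtype.ext hx⟩
  · exact hr.of_surjective _ hsB
  · rintro _ ⟨x, hx, rfl⟩ _ ⟨y, hy, rfl⟩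
    rw [← commutatorElement_eq_one_iff_mul_comm, ← map_commutatorElement, ← MonoidHom.mem_ker,
      QuotientGroup.ker_mk']
    exact hc x hx y hy
  · rintro _ ⟨x, hx, rfl⟩
    rw [← map_pow, ← MonoidHom.mem_ker, QuotientGroup.ker_mk']
    exact he x hx

theorem secB_quotient {X : Type u} [Group X] {R : ℕ} (h : SecB X R) (N : Subgroup X) [N.Normal] :
    SecB (X ⧸ N) R := by
  intro p hp L M hL hM hLM hfin hc he
  have hsurj : Function.Surjective (QuotientGroup.mk' N) := QuotientGroup.mk'_surjective N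
  have hrel : (L.comap (QuotientGroup.mk' N)).relIndex (M.comap (QuotientGroup.mk' N)) =
      L.relIndex M := by
    rw [relIndex_comap, map_comap_eq_self_of_surjective hsurj]
  rw [← hrel]
  refine h p hp _ _ (hL.comap _) (hM.comap _) (comap_mono hLM) (by rw [hrel]; exact hfin) ?_ ?_
  · intro x hx y hy
    rw [mem_comap, map_commutatorElement]
    exact hc _ hx _ hy
  · intro x hx
    rw [mem_comap, map_pow]
    exact he _ hx

end H36.PQ
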