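import Pool.Agent.H36.PQ.A1

/-!
# Module A2: residually a finite `p`-group

`a2_comp`: a finite nilpotent group `Y`, `x ≠ 1`: there are a prime `p` and a characteristic subgroup
`T` of `Y` with `x ∉ T` and `Y ⧸ T` a `p`-group (`T` = the elements of order prime to `p`, the product
of the Sylow `q`-subgroups, `q ≠ p`, where `p` divides the order of `x`).

`a2_res`: `X` residually finite, `K` normal in `X`, infinite, `NoVZ K`, `X ⧸ N` almost polycyclic for
all normal `N ≠ ⊥`, the image of `K` in `X ⧸ J` is nilpotent for all normal `J` of finite index,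
and `k^e ∈ ⁅K, K⁆` for all `k ∈ K`, `0 < e`. Then there is a prime `p` such that for every `x ∈ K`,
`x ≠ 1`, there is a normal subgroup `L ≤ K` of `X` with `K/L` a finite `p`-group, `x ∉ L`.
Proof. For a prime `p` let `R_p` be the intersection of all normal subgroups `L ≤ K` of `X` with `K/L`
a finite `p`-group; it is normal in `X`. Suppose `R_p ≠ 1` for all `p`. Then `X ⧸ R_p` is almost
polycyclic, so `K/R_p` is finite by `a1_ap`. If `p` does not divide `e` then `R_p = K`: a finite
`p`-group `K/L ≠ 1` has a nontrivial abelian quotient, of exponent dividing `e`. So the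
intersection `R` of the `R_p` over the primes `p` dividing `e` (finitely many) has finite index in
`K`. But `R = 1`: let `1 ≠ x ∈ K`; as `X` is residually finite there is a normal `J` of finite index
with `x ∉ J`; apply `a2_comp` to the image of `K` in `X ⧸ J`: there are `p` and `L ≤ K`, normal in `X`
(preimage of a characteristic subgroup of a normal subgroup), `K/L` a finite `p`-group,
`x ∉ L`, so `x ∉ R_p`, and `p` divides `e` since `R_p ≠ K`. So `K` is finite, contradiction.
-/

set_option autoImplicit false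

universe u

namespace H36.PQ

open Subgroup H36.PP
open scoped commutatorElement

theorem a2_comp {Y : Type*} [Group Y] [Finite Y] (hn : Group.IsNilpotent Y) {x : Y}
    (hx : x ≠ 1) : ∃ p : ℕ, p.Prime ∧ ∃ T : Subgroup Y, T.Characteristic ∧ x ∉ T ∧
      ∀ y : Y, ∃ m : ℕ, y ^ (p ^ m) ∈ T := by
  classical
  have ho : orderOf x ≠ 1 := by rwa [Ne, orderOf_eq_one_iff]
  obtain ⟨p, hp, hpx⟩ := Nat.exists_prime_and_dvd ho
  have : Fact p.Prime := ⟨hp⟩
  obtain ⟨e⟩ := (Group.isNilpotent_of_finite_tfae.out 0 4 rfl rfl |>.mp hn)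
  have hN : Nat.card Y ≠ 0 := Nat.card_pos.ne'
  have hpN : p ∈ (Nat.card Y).primeFactors := by
    rw [Nat.mem_primeFactors]
    exact ⟨hp, hpx.trans (orderOf_dvd_natCard x), hN⟩
  have hfac := Nat.ordProj_mul_ordCompl_eq_self (Nat.card Y) p
  have hcop := Nat.coprime_ordCompl hp hN
  set m := ordCompl[p] (Nat.card Y) with hm
  have hcomp : ∀ (q : (Nat.card Y).primeFactors) (P : Sylow q Y) (c : P), q ≠ ⟨p, hpN⟩ →
      c ^ m = 1 := by
    rintro ⟨q, hq⟩ P c hne
    have hqp : q.Prime := Nat.prime_of_mem_primeFactors hq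
    have : Fact q.Prime := ⟨hqp⟩
    have hne' : q ≠ p := fun h => hne (Subtype.ext h)
    obtain ⟨k, hk⟩ := P.isPGroup' c
    have h1 : orderOf c ∣ q ^ k := orderOf_dvd_of_pow_eq_one hk
    have h2 : orderOf c ∣ Nat.card Y := (orderOf_dvd_natCard c).trans (Subgroup.card_subgroup_dvd_card _)
    have h3 : (orderOf c).Coprime (p ^ (Nat.card Y).factorization p) := by
      refine Nat.Coprime.coprime_dvd_left h1 ?_
      exact Nat.Coprime.pow _ _ ((Nat.coprime_primes hqp hp).2 hne')
    exact orderOf_dvd_iff_pow_eq_one.1 (h3.dvd_of_dvd_mul_left (h2.trans (dvd_of_eq hfac.symm)))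
  have hpc : ∀ (P : Sylow p Y) (c : P), c ^ m = 1 → c = 1 := by
    intro P c hc
    obtain ⟨k, hk⟩ := P.isPGroup' c
    have h1 : orderOf c ∣ p ^ k := orderOf_dvd_of_pow_eq_one hk
    have h2 : orderOf c ∣ m := orderOf_dvd_of_pow_eq_one hc
    have h3 : orderOf c = 1 := Nat.eq_one_of_dvd_coprimes (Nat.Coprime.pow_left k hcop) h1 h2
    exact orderOf_eq_one_iff.1 h3
  let f : Y →* (∀ P : Sylow p Y, P) :=
    (Pi.evalMonoidHom (fun q : (Nat.card Y).primeFactors => ∀ P : Sylow q Y, P) ⟨p, hpN⟩).comp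
      e.symm.toMonoidHom
  have key : ∀ y, f y = 1 ↔ y ^ m = 1 := by
    intro y
    have e1 : y ^ m = 1 ↔ (e.symm y) ^ m = 1 := by
      rw [← map_pow, map_eq_one_iff e.symm e.symm.injective]
    rw [e1]
    constructor
    · intro h
      funext q P
      by_cases hq : q = ⟨p, hpN⟩
      · subst hq
        have : (e.symm y) ⟨p, hpN⟩ P = 1 := congrFun h P
        simp only [Pi.pow_apply, this, one_pow, Pi.one_apply]
      · exact hcomp q P _ hq
    · intro h
      funext P
      refine hpc P _ ?_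
      exact congrFun (congrFun h ⟨p, hpN⟩) P
  refine ⟨p, hp, f.ker, ?_, ?_, ?_⟩
  · rw [Subgroup.characteristic_iff_le_comap]
    intro φ y hy
    rw [Subgroup.mem_comap, MonoidHom.mem_ker, key]
    rw [MonoidHom.mem_ker, key] at hy
    change (φ y) ^ m = 1
    rw [← map_pow, hy, map_one]
  · intro h
    rw [MonoidHom.mem_ker, key] at h
    have h2 : p ∣ m := hpx.trans (orderOf_dvd_of_pow_eq_one h)
    have := Nat.Coprime.eq_one_of_dvd hcop h2
    exact hp.one_lt.ne' this
  · intro y
    refine ⟨(Nat.card Y).factorization p, ?_⟩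
    rw [MonoidHom.mem_ker, key, ← pow_mul, hfac]
    exact pow_card_eq_one'

/-- the normal subgroups `L ≤ K` of `X` of finite `p`-power index in `K` -/
private def A2F {X : Type u} [Group X] (K : Subgroup X) (p : ℕ) : Set (Subgroup X) :=
  {L | L.Normal ∧ L ≤ K ∧ L.relIndex K ≠ 0 ∧ ∀ k ∈ K, ∃ m : ℕ, k ^ (p ^ m) ∈ L}

private theorem a2_self {X : Type u} [Group X] (K : Subgroup X) [hK : K.Normal] (p : ℕ) :
    K ∈ A2F K p := by
  refine ⟨hK, le_rfl, by rw [Subgroup.relIndex_self]; exact one_ne_zero, fun k hk => ⟨0, ?_⟩⟩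
  exact K.pow_mem hk _

private theorem a2_Rnormal {X : Type u} [Group X] (K : Subgroup X) (p : ℕ) :
    (sInf (A2F K p)).Normal := by
  rw [sInf_eq_iInf']
  exact Subgroup.normal_iInf_normal fun L => L.2.1

/-- `p` does not divide `e`: there is no nontrivial finite `p`-quotient -/
private theorem a2_top {X : Type u} [Group X] (K : Subgroup X) {p : ℕ} (hp : p.Prime) {e : ℕ}
    (hpe : ¬ p ∣ e) (hK : ∀ k ∈ K, k ^ e ∈ ⁅K, K⁆) {L : Subgroup X} (hL : L ∈ A2F K p) :
    K ≤ L := by
  obtain ⟨hLn, hLK, hLi, hLp⟩ := hL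
  have : Fact p.Prime := ⟨hp⟩
  have : Finite (K ⧸ L.subgroupOf K) := by
    have : (L.subgroupOf K).FiniteIndex := ⟨hLi⟩
    infer_instance
  have hpg : IsPGroup p (K ⧸ L.subgroupOf K) := by
    intro q
    obtain ⟨k, rfl⟩ := QuotientGroup.mk_surjective q
    obtain ⟨m, hm⟩ := hLp k k.2
    refine ⟨m, ?_⟩
    rw [← QuotientGroup.mk_pow, QuotientGroup.eq_one_iff, Subgroup.mem_subgroupOf]
    exact hm
  have hnil : Group.IsNilpotent (K ⧸ L.subgroupOf K) := hpg.isNilpotent
  have hcom : commutator (K ⧸ L.subgroupOf K) = ⊤ := by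
    rw [eq_top_iff]
    intro q _
    obtain ⟨k, rfl⟩ := QuotientGroup.mk_surjective q
    have h1 : k ^ e ∈ commutator K := by
      have h2 : ((k ^ e : K) : X) ∈ (commutator K).map K.subtype := by
        rw [map_subtype_commutator]
        exact hK k k.2
      obtain ⟨k', hk', h3⟩ := h2
      have : k' = k ^ e := Subtype.ext h3
      rwa [this] at hk'
    have h4 : ((k : K ⧸ L.subgroupOf K)) ^ e ∈ commutator (K ⧸ L.subgroupOf K) := by
      have h5 : (QuotientGroup.mk' (L.subgroupOf K)) (k ^ e) ∈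
          (commutator K).map (QuotientGroup.mk' (L.subgroupOf K)) := mem_map_of_mem _ h1
      rw [commutator_def, Subgroup.map_commutator,
        ← MonoidHom.range_eq_map, MonoidHom.range_eq_top.2 (QuotientGroup.mk'_surjective _)] at h5
      exact h5
    obtain ⟨m, hm⟩ := hpg (k : K ⧸ L.subgroupOf K)
    have hc : e.Coprime (orderOf (k : K ⧸ L.subgroupOf K)) := by
      refine Nat.Coprime.coprime_dvd_right (orderOf_dvd_of_pow_eq_one hm) ?_
      exact (Nat.Coprime.pow_left m ((Nat.Prime.coprime_iff_not_dvd hp).2 hpe)).symm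
    obtain ⟨r, hr⟩ := exists_pow_eq_self_of_coprime hc
    rw [← hr]
    exact Subgroup.pow_mem _ h4 r
  have hsub : Subsingleton (K ⧸ L.subgroupOf K) := by
    by_contra hns
    rw [not_subsingleton_iff_nontrivial] at hns
    have : Group.IsSolvable (K ⧸ L.subgroupOf K) := inferInstance
    exact (Group.IsSolvable.commutator_lt_top_of_nontrivial (K ⧸ L.subgroupOf K)).ne hcom
  intro k hk
  have h6 : ((⟨k, hk⟩ : K) : K ⧸ L.subgroupOf K) = 1 := Subsingleton.elim _ _
  rw [QuotientGroup.eq_one_iff, Subgroup.mem_subgroupOf] at h6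
  exact h6

theorem a2_res {X : Type u} [Group X] (hrf : RF X) (K : Subgroup X) [K.Normal]
    (hinf : Infinite K) (hno : NoVZ K)
    (hq : ∀ (N : Subgroup X) [N.Normal], N ≠ ⊥ → AP (X ⧸ N))
    (hnil : ∀ (J : Subgroup X) [J.Normal], J.FiniteIndex →
      Group.IsNilpotent (K.map (QuotientGroup.mk' J)))
    {e : ℕ} (he : 0 < e) (hK : ∀ k ∈ K, k ^ e ∈ ⁅K, K⁆) :
    ∃ p : ℕ, p.Prime ∧ ∀ x ∈ K, x ≠ 1 → ∃ L : Subgroup X, L.Normal ∧ L ≤ K ∧ L.relIndex K ≠ 0 ∧
      (∀ k ∈ K, ∃ m : ℕ, k ^ (p ^ m) ∈ L) ∧ x ∉ L := by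
  classical
  by_contra hcon
  have hR : ∀ p : ℕ, p.Prime → sInf (A2F K p) ≠ ⊥ := by
    intro p hp hbot
    apply hcon
    refine ⟨p, hp, fun x _ hx1 => ?_⟩
    by_contra hno'
    apply hx1
    rw [← Subgroup.mem_bot, ← hbot, Subgroup.mem_sInf]
    intro L hL
    by_contra hxL
    exact hno' ⟨L, hL.1, hL.2.1, hL.2.2.1, hL.2.2.2, hxL⟩
  have hRi : ∀ p : ℕ, p.Prime → (sInf (A2F K p)).relIndex K ≠ 0 := by
    intro p hp
    have hn : (sInf (A2F K p)).Normal := a2_Rnormal K p
    exact a1_ap K (sInf (A2F K p)) hno (hq _ (hR p hp)) (sInf_le (a2_self K p))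
  -- the intersection over the primes dividing `e`
  have hfi : (⨅ p : e.primeFactors, sInf (A2F K p)).relIndex K ≠ 0 :=
    Subgroup.relIndex_iInf_ne_zero fun p => hRi p (Nat.prime_of_mem_primeFactors p.2)
  have hfi2 : (K ⊓ ⨅ p : e.primeFactors, sInf (A2F K p)).relIndex K ≠ 0 :=
    Subgroup.relIndex_inf_ne_zero (by rw [Subgroup.relIndex_self]; exact one_ne_zero) hfi
  have hbot : K ⊓ (⨅ p : e.primeFactors, sInf (A2F K p)) = ⊥ := by
    rw [eq_bot_iff]
    intro x hx
    rw [Subgroup.mem_bot]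
    by_contra hx1
    obtain ⟨hxK, hxR⟩ := Subgroup.mem_inf.1 hx
    obtain ⟨J, hJn, hJf, hxJ⟩ := hrf x hx1
    have hfin : Finite (X ⧸ J) := inferInstance
    have hfinK : Finite (K.map (QuotientGroup.mk' J)) := inferInstance
    have hxY : (⟨QuotientGroup.mk' J x, mem_map_of_mem _ hxK⟩ : K.map (QuotientGroup.mk' J)) ≠ 1 := by
      intro h
      apply hxJ
      have := congrArg Subtype.val h
      simpa using this
    obtain ⟨p, hp, T, hT, hxT, hTp⟩ := a2_comp (hnil J hJf) hxY
    have hKn : (K.map (QuotientGroup.mk' J)).Normal :=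
      Subgroup.Normal.map inferInstance _ (QuotientGroup.mk'_surjective J)
    have hTn : (T.map (K.map (QuotientGroup.mk' J)).subtype).Normal := inferInstance
    have hL : K ⊓ (T.map (K.map (QuotientGroup.mk' J)).subtype).comap (QuotientGroup.mk' J) ∈
        A2F K p := by
      refine ⟨inferInstance, inf_le_left, ?_, ?_⟩
      · refine Subgroup.relIndex_inf_ne_zero (by rw [Subgroup.relIndex_self]; exact one_ne_zero) ?_
        have hle : J ≤ (T.map (K.map (QuotientGroup.mk' J)).subtype).comap (QuotientGroup.mk' J) := by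
          intro y hy
          rw [Subgroup.mem_comap]
          have : QuotientGroup.mk' J y = 1 := by
            rw [QuotientGroup.mk'_apply, QuotientGroup.eq_one_iff]; exact hy
          rw [this]
          exact Subgroup.one_mem _
        have h7 : J.relIndex K ≠ 0 := by
          intro h8
          exact hJf.index_ne_zero (Nat.eq_zero_of_zero_dvd (h8 ▸ Subgroup.relIndex_dvd_index_of_normal J K))
        intro h9
        exact h7 (Subgroup.relIndex_eq_zero_of_le_left hle h9)
      · intro k hk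
        obtain ⟨m, hm⟩ := hTp ⟨QuotientGroup.mk' J k, mem_map_of_mem _ hk⟩
        refine ⟨m, Subgroup.mem_inf.2 ⟨K.pow_mem hk _, ?_⟩⟩
        rw [Subgroup.mem_comap]
        refine ⟨_, hm, ?_⟩
        simp
    have hxL : x ∉ K ⊓ (T.map (K.map (QuotientGroup.mk' J)).subtype).comap (QuotientGroup.mk' J) := by
      intro h
      obtain ⟨t, ht, h10⟩ := Subgroup.mem_comap.1 (Subgroup.mem_inf.1 h).2
      apply hxT
      have : t = ⟨QuotientGroup.mk' J x, mem_map_of_mem _ hxK⟩ := Subtype.ext h10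
      rwa [this] at ht
    by_cases hpe : p ∣ e
    · have hpm : p ∈ e.primeFactors := Nat.mem_primeFactors.2 ⟨hp, hpe, he.ne'⟩
      have h11 := (Subgroup.mem_iInf.1 hxR) ⟨p, hpm⟩
      exact hxL (Subgroup.mem_sInf.1 h11 _ hL)
    · exact hxL (a2_top K hp hpe hK hL hxK)
  rw [hbot, Subgroup.relIndex_bot_left] at hfi2
  exact hfi2 Nat.card_eq_zero_of_infinite

end H36.PQ
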