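import Pool.Agent.H36.PQ.Z1

/-!
# Module C1: Thompson's critical subgroup, relative to a group of operators

`crit`: `P` a finite normal `p`-subgroup of `X`. There are normal subgroups `D ≤ C ≤ P` of `X` with
`D` abelian, `C/D` elementary abelian, `D` central in `C`, and every element of `P` which
centralises `C` lies in `D`.
Proof. Let `D` be maximal among the normal subgroups of `X` which are abelian and contained in `P`
(finitely many candidates, `⊥` is one). Let `C = {x ∈ P | x centralises D, x^p ∈ D,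
⁅g, x⁆ ∈ D for all g ∈ P}`: this is a subgroup (its image in `P/D` is the group of elements of order
dividing `p` in `Z(P/D)`, intersected with the image of `C_P(D)`), normal in `X`, `D ≤ C`, `D` is
central in `C`, `C/D` elementary abelian. `Z(C)` is normal in `X`, abelian, contains `D`; so
`Z(C) = D` by maximality. Let `Q = {g ∈ P | g centralises C}`, normal in `X`, and `Q ⊓ C = Z(C) = D`;
`D ≤ Q`. If `Q ≠ D` then `Q/D` is a nontrivial normal subgroup of the finite `p`-group `P/D`, so it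
contains an element of order `p` of `Z(P/D)` (`IsPGroup`, a nontrivial normal subgroup of a
`p`-group meets the centre), say `x D`, `x ∈ Q`. As `Q` centralises `D ≤ C`, `x` centralises `D`, so
`x ∈ C ⊓ Q = D`, contradiction.

`crit_ds`: let `C`, `D` be as in `crit` and suppose that `DS P n` centralises `D` and `C/D`. Then
`DS P (n + 2) = ⊥`. (`z1_stab`: `DS P (n+1)` centralises `C`, so it is contained in `D`, which is
abelian.)
-/

set_option autoImplicit false

universe u

namespace H36.PQ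

open Subgroup H36.PP
open scoped commutatorElement

/-- a nontrivial normal subgroup of a finite `p`-group contains a central element of order `p` -/
private theorem c1_meet {G : Type*} [Group G] {p : ℕ} (hp : p.Prime) [Finite G]
    (hG : IsPGroup p G) (N : Subgroup G) [hN' : N.Normal] (hN : N ≠ ⊥) :
    ∃ z ∈ N, z ≠ 1 ∧ (∀ g, g * z = z * g) ∧ z ^ p = 1 := by
  have : Fact p.Prime := ⟨hp⟩
  have h1 : IsPGroup p (ConjAct G) := hG.of_equiv ConjAct.toConjAct
  have hdvd : p ∣ Nat.card N := by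
    obtain ⟨k, hk⟩ := IsPGroup.iff_card.mp (hG.to_subgroup N)
    have : k ≠ 0 := by
      rintro rfl
      rw [pow_zero] at hk
      exact hN (N.eq_bot_of_card_eq hk)
    rw [hk]
    exact dvd_pow_self p this
  have h2 : (1 : N) ∈ MulAction.fixedPoints (ConjAct G) N := fun g => smul_one g
  obtain ⟨b, hb, hb1⟩ := h1.exists_fixed_point_of_prime_dvd_card_of_fixed_point N hdvd h2
  have hbc : ∀ g : G, g * (b : G) = b * g := by
    intro g
    have h3 := hb (ConjAct.toConjAct g)
    have h4 : ((ConjAct.toConjAct g • b : N) : G) = b := congrArg Subtype.val h3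
    have h5 : ((ConjAct.toConjAct g • b : N) : G) = g * b * g⁻¹ := rfl
    rw [h5] at h4
    exact mul_inv_eq_iff_eq_mul.mp h4
  have hb1' : (b : G) ≠ 1 := fun h => hb1 (by ext; exact h.symm)
  obtain ⟨k, hk⟩ := (IsPGroup.iff_orderOf.mp hG) (b : G)
  have hk0 : k ≠ 0 := by
    rintro rfl
    rw [pow_zero, orderOf_eq_one_iff] at hk
    exact hb1' hk
  obtain ⟨j, rfl⟩ := Nat.exists_eq_succ_of_ne_zero hk0
  refine ⟨(b : G) ^ p ^ j, N.pow_mem b.2 _, ?_, ?_, ?_⟩
  · intro h
    have h6 := orderOf_dvd_of_pow_eq_one h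
    rw [hk] at h6
    have h7 := (Nat.pow_dvd_pow_iff_le_right hp.one_lt).mp h6
    omega
  · intro g
    exact (show Commute g (b : G) from hbc g).pow_right _
  · rw [← pow_mul, ← pow_succ, ← hk]
    exact pow_orderOf_eq_one _

theorem crit {X : Type u} [Group X] {p : ℕ} (hp : p.Prime) (P : Subgroup X) [P.Normal]
    (hfin : Finite P) (hP : IsPGroup p P) :
    ∃ C D : Subgroup X, C.Normal ∧ D.Normal ∧ D ≤ C ∧ C ≤ P ∧
      (∀ x ∈ D, ∀ y ∈ D, x * y = y * x) ∧ (∀ x ∈ C, ∀ y ∈ C, ⁅x, y⁆ ∈ D) ∧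
      (∀ x ∈ C, x ^ p ∈ D) ∧ (∀ g ∈ P, (∀ x ∈ C, g * x = x * g) → g ∈ D) := by
  classical
  -- a maximal abelian normal subgroup
  obtain ⟨D, hDn, hDP, hDab, hDmax⟩ : ∃ D : Subgroup X, D.Normal ∧ D ≤ P ∧
      (∀ x ∈ D, ∀ y ∈ D, x * y = y * x) ∧
      (∀ E : Subgroup X, E.Normal → E ≤ P → (∀ x ∈ E, ∀ y ∈ E, x * y = y * x) → D ≤ E → E = D) := by
    let S : Set ℕ := {n | ∃ D : Subgroup X, D.Normal ∧ D ≤ P ∧
      (∀ x ∈ D, ∀ y ∈ D, x * y = y * x) ∧ Nat.card D = n}
    have hSb : ∀ n ∈ S, n ≤ Nat.card P := by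
      rintro n ⟨D, -, hDP, -, rfl⟩
      exact Nat.card_mono (Set.toFinite (P : Set X)) hDP
    have hSn : S.Nonempty := by
      refine ⟨Nat.card (⊥ : Subgroup X), ⊥, inferInstance, bot_le, ?_, rfl⟩
      intro x hx y hy
      rw [Subgroup.mem_bot.mp hx, Subgroup.mem_bot.mp hy]
    obtain ⟨D, hDn, hDP, hDab, hDc⟩ := Nat.sSup_mem hSn ⟨Nat.card P, hSb⟩
    refine ⟨D, hDn, hDP, hDab, ?_⟩
    intro E hEn hEP hEab hDE
    have h1 : Nat.card E ≤ Nat.card D := by
      rw [hDc]
      exact le_csSup ⟨Nat.card P, hSb⟩ ⟨E, hEn, hEP, hEab, rfl⟩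
    have : Finite E := Finite.of_injective _ (Subgroup.inclusion_injective hEP)
    exact (Subgroup.eq_of_le_of_card_ge hDE h1).symm
  have := hDn
  -- work in the quotient
  let π := QuotientGroup.mk' D
  have hπs : Function.Surjective π := QuotientGroup.mk'_surjective D
  have hπ1 : ∀ x : X, π x = 1 ↔ x ∈ D := fun x => QuotientGroup.eq_one_iff x
  let Pb : Subgroup (X ⧸ D) := P.map π
  have hPbn : Pb.Normal := Subgroup.Normal.map inferInstance π hπs
  let T : Subgroup (X ⧸ D) :=
    { carrier := {z | z ∈ Pb ∧ z ^ p = 1 ∧ ∀ w ∈ Pb, w * z = z * w}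
      mul_mem' := by
        rintro a b ⟨ha1, ha2, ha3⟩ ⟨hb1, hb2, hb3⟩
        refine ⟨Pb.mul_mem ha1 hb1, ?_, ?_⟩
        · have : Commute a b := (ha3 b hb1).symm
          rw [this.mul_pow, ha2, hb2, one_mul]
        · intro w hw
          rw [← mul_assoc, ha3 w hw, mul_assoc, hb3 w hw, mul_assoc]
      one_mem' := ⟨Pb.one_mem, one_pow _, fun w _ => by rw [mul_one, one_mul]⟩
      inv_mem' := by
        rintro a ⟨ha1, ha2, ha3⟩
        refine ⟨Pb.inv_mem ha1, by rw [inv_pow, ha2, inv_one], ?_⟩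
        intro w hw
        exact ((show Commute w a from ha3 w hw).inv_right) }
  have hTn : T.Normal := by
    refine ⟨?_⟩
    rintro z ⟨hz1, hz2, hz3⟩ g
    refine ⟨hPbn.conj_mem z hz1 g, ?_, ?_⟩
    · rw [conj_pow, hz2, mul_one, mul_inv_cancel]
    · intro w hw
      have h1 := hz3 (g⁻¹ * w * g) (by simpa using hPbn.conj_mem w hw g⁻¹)
      calc w * (g * z * g⁻¹) = g * ((g⁻¹ * w * g) * z) * g⁻¹ := by group
        _ = g * (z * (g⁻¹ * w * g)) * g⁻¹ := by rw [h1]
        _ = g * z * g⁻¹ * w := by group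
  let C : Subgroup X := P ⊓ centralizer (D : Set X) ⊓ T.comap π
  have hcD : (centralizer (D : Set X)).Normal := Subgroup.normal_centralizer
  have hCn : C.Normal := by
    have : (T.comap π).Normal := inferInstance
    have : (P ⊓ centralizer (D : Set X)).Normal := inferInstance
    exact inferInstance
  have hCP : C ≤ P := inf_le_left.trans inf_le_left
  have hCD : ∀ x ∈ C, ∀ d ∈ D, d * x = x * d := by
    intro x hx d hd
    exact Subgroup.mem_centralizer_iff.mp hx.1.2 d hd
  have hDC : D ≤ C := by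
    intro d hd
    refine ⟨⟨hDP hd, ?_⟩, ?_⟩
    · refine Subgroup.mem_centralizer_iff.mpr ?_
      intro h hh
      exact hDab h hh d hd
    · show π d ∈ T
      rw [(hπ1 d).mpr hd]
      exact T.one_mem
  have hCp : ∀ x ∈ C, x ^ p ∈ D := by
    intro x hx
    rw [← hπ1, map_pow]
    exact hx.2.2.1
  have hPC : ∀ g ∈ P, ∀ x ∈ C, ⁅g, x⁆ ∈ D := by
    intro g hg x hx
    rw [← hπ1, map_commutatorElement, commutatorElement_eq_one_iff_mul_comm]
    exact hx.2.2.2 (π g) (Subgroup.mem_map_of_mem π hg)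
  refine ⟨C, D, hCn, hDn, hDC, hCP, hDab, fun x hx y hy => hPC x (hCP hx) y hy, hCp, ?_⟩
  -- the centre of `C` is `D`
  have hcC : (centralizer (C : Set X)).Normal := Subgroup.normal_centralizer
  have hZ : C ⊓ centralizer (C : Set X) = D := by
    refine hDmax _ inferInstance (inf_le_left.trans hCP) ?_ ?_
    · rintro x ⟨hx1, hx2⟩ y ⟨hy1, hy2⟩
      exact (Subgroup.mem_centralizer_iff.mp hx2 y hy1).symm
    · intro d hd
      refine ⟨hDC hd, ?_⟩
      refine Subgroup.mem_centralizer_iff.mpr ?_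
      intro x hx
      exact (hCD x hx d hd).symm
  -- the centraliser
  let Q : Subgroup X := P ⊓ centralizer (C : Set X)
  have hQn : Q.Normal := inferInstance
  have hDQ : D ≤ Q := by
    rw [← hZ]
    exact inf_le_inf_right _ hCP
  have hQD : Q ≤ D := by
    by_contra hcon
    let Qb : Subgroup (X ⧸ D) := Q.map π
    have hQbn : Qb.Normal := Subgroup.Normal.map inferInstance π hπs
    have hQbP : Qb ≤ Pb := Subgroup.map_mono inf_le_left
    have hQb1 : Qb ≠ ⊥ := by
      intro h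
      apply hcon
      intro x hx
      have : π x ∈ Qb := Subgroup.mem_map_of_mem π hx
      rw [h, Subgroup.mem_bot, hπ1] at this
      exact this
    have hPbp : IsPGroup p Pb := hP.map π
    have : Finite Pb := by
      have : Function.Surjective (π.subgroupMap P) := π.subgroupMap_surjective P
      exact Finite.of_surjective _ this
    obtain ⟨z, hz1, hz2, hz3, hz4⟩ := c1_meet hp hPbp (Qb.subgroupOf Pb) (by
      intro h
      apply hQb1
      rw [Subgroup.subgroupOf_eq_bot] at h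
      exact (disjoint_self.mp (h.mono_right hQbP)))
    obtain ⟨x, hxQ, hxz⟩ := (Subgroup.mem_subgroupOf.mp hz1)
    have hxT : π x ∈ T := by
      rw [hxz]
      refine ⟨z.2, ?_, ?_⟩
      · exact congrArg Subtype.val hz4
      · intro w hw
        exact congrArg Subtype.val (hz3 ⟨w, hw⟩)
    have hxC : x ∈ C := by
      refine ⟨⟨hxQ.1, ?_⟩, hxT⟩
      exact Subgroup.centralizer_le (show (D : Set X) ⊆ C from hDC) hxQ.2
    have hxD : x ∈ D := by
      rw [← hZ]
      exact ⟨hxC, hxQ.2⟩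
    apply hz2
    ext
    rw [← hxz, (hπ1 x).mpr hxD]
    rfl
  intro g hg hgc
  apply hQD
  refine ⟨hg, ?_⟩
  refine Subgroup.mem_centralizer_iff.mpr ?_
  intro x hx
  exact (hgc x hx).symm

theorem crit_ds {X : Type u} [Group X] (P C D : Subgroup X)
    (hD : ∀ x ∈ D, ∀ y ∈ D, x * y = y * x)
    (hC : ∀ g ∈ P, (∀ x ∈ C, g * x = x * g) → g ∈ D) (n : ℕ)
    (h1 : ∀ g ∈ DS P n, ∀ x ∈ D, g * x = x * g) (h2 : ∀ g ∈ DS P n, ∀ x ∈ C, ⁅g, x⁆ ∈ D) :
    DS P (n + 2) = ⊥ := by
  have h3 : ∀ g ∈ DS P (n + 1), ∀ x ∈ C, g * x = x * g := z1_stab C D (DS P n) h1 h2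
  have h4 : DS P (n + 1) ≤ P := by
    have := z1_DS_anti P (Nat.zero_le (n + 1))
    exact this
  have h5 : DS P (n + 1) ≤ D := fun g hg => hC g (h4 hg) (h3 g hg)
  rw [eq_bot_iff]
  show ⁅DS P (n + 1), DS P (n + 1)⁆ ≤ ⊥
  rw [Subgroup.commutator_le]
  intro x hx y hy
  rw [Subgroup.mem_bot, commutatorElement_eq_one_iff_mul_comm]
  exact hD x (h5 hx) y (h5 hy)

end H36.PQ
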