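import Pool.Agent.H36.PQ.Defs

/-!
# Module Lim: limits of homomorphisms into `GL_s(ZMod (p^d))`, `d → ∞`

For every `x : X` and every `n` choose a matrix `M n x` over `ℤ_[p]` whose reduction modulo
`p^(d n)` (`PadicInt.toZModPow (d n)`) is `φ n x`. The space of matrices over `ℤ_[p]` is compact,
so the limit `L x` of `M n x` along the ultrafilter `Filter.hyperfilter ℕ` exists. From
`M n (x y) ≡ M n x * M n y` modulo `p^(d n)` and `d n → ∞` we get `L (x y) = L x * L y`; also
`L 1 = 1`. So `L` gives a homomorphism to `GL (Fin s) ℤ_[p]`. If `φ n x` is not congruent to `1`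
modulo `p^j` for all `n`, then (for `d n ≥ j`) `M n x - 1` has an entry which is not divisible by
`p^j`, i.e. of norm `> p^(-j)`; this is a closed condition (finitely many entries, the norm is
continuous and the set of elements divisible by `p^j` is open), so `L x ≠ 1`.
-/

set_option autoImplicit false

universe u

namespace H36.PQ

open Subgroup H36.PP Filter

/-- limits along the ultrafilter exist -/
private theorem Lim_exists_lim {p : ℕ} [Fact p.Prime] (f : ℕ → ℤ_[p]) :
    ∃ l : ℤ_[p], Tendsto f (hyperfilter ℕ : Filter ℕ) (nhds l) := by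
  refine ⟨(Ultrafilter.map f (hyperfilter ℕ)).lim, ?_⟩
  exact Ultrafilter.le_nhds_lim (Ultrafilter.map f (hyperfilter ℕ))

/-- a sequence of multiples of `p ^ d n` tends to zero -/
private theorem Lim_small {p : ℕ} [Fact p.Prime] (d : ℕ → ℕ) (hd : Tendsto d atTop atTop)
    (f : ℕ → ℤ_[p]) (hf : ∀ n, PadicInt.toZModPow (d n) (f n) = 0) :
    Tendsto f (hyperfilter ℕ : Filter ℕ) (nhds 0) := by
  have hle : (hyperfilter ℕ : Filter ℕ) ≤ atTop := Nat.hyperfilter_le_atTop
  refine Tendsto.mono_left ?_ hle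
  rw [tendsto_zero_iff_norm_tendsto_zero]
  have hp : (1 : ℝ) < p := by exact_mod_cast (Fact.out : p.Prime).one_lt
  have h1 : ∀ n, ‖f n‖ ≤ ((p : ℝ)⁻¹) ^ (d n) := by
    intro n
    have h2 : f n ∈ RingHom.ker (PadicInt.toZModPow (d n) : ℤ_[p] →+* ZMod (p ^ (d n))) := hf n
    rw [PadicInt.ker_toZModPow] at h2
    have h3 := (PadicInt.norm_le_pow_iff_mem_span_pow (f n) (d n)).2 h2
    rwa [zpow_neg, zpow_natCast, ← inv_pow] at h3
  have h4 : Tendsto (fun n => ((p : ℝ)⁻¹) ^ (d n)) atTop (nhds 0) :=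
    (tendsto_pow_atTop_nhds_zero_of_lt_one (by positivity) (inv_lt_one_of_one_lt₀ hp)).comp hd
  exact squeeze_zero (fun n => norm_nonneg _) h1 h4

theorem exists_limit {X : Type u} [Group X] (p : ℕ) [Fact p.Prime] (s : ℕ) (d : ℕ → ℕ)
    (hd : Tendsto d atTop atTop) (φ : ∀ n, X →* GL (Fin s) (ZMod (p ^ d n))) :
    ∃ Φ : X →* GL (Fin s) ℤ_[p], ∀ (x : X) (j : ℕ),
      (∀ n, ¬ CongOne ((p : ZMod (p ^ d n)) ^ j)
        ((φ n x : GL (Fin s) (ZMod (p ^ d n))) : Matrix (Fin s) (Fin s) (ZMod (p ^ d n)))) →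
      Φ x ≠ 1 := by
  classical
  have hsur : ∀ n (a : ZMod (p ^ d n)), ∃ b : ℤ_[p], PadicInt.toZModPow (d n) b = a := by
    intro n a
    exact ZMod.ringHom_surjective (PadicInt.toZModPow (d n)) a
  choose lift hlift using hsur
  set M : ℕ → X → Fin s → Fin s → ℤ_[p] := fun n x i j =>
    lift n (((φ n x : GL (Fin s) (ZMod (p ^ d n))) : Matrix (Fin s) (Fin s) (ZMod (p ^ d n))) i j)
    with hM
  have hMr : ∀ n x i j, PadicInt.toZModPow (d n) (M n x i j) =
      ((φ n x : GL (Fin s) (ZMod (p ^ d n))) : Matrix (Fin s) (Fin s) (ZMod (p ^ d n))) i j :=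
    fun n x i j => hlift n _
  have hlim : ∀ x i j, ∃ l : ℤ_[p],
      Tendsto (fun n => M n x i j) (hyperfilter ℕ : Filter ℕ) (nhds l) :=
    fun x i j => Lim_exists_lim _
  choose L hL using hlim
  -- multiplicativity
  have hmul : ∀ x y i j, L (x * y) i j = ∑ k, L x i k * L y k j := by
    intro x y i j
    have h1 : Tendsto (fun n => M n (x * y) i j - ∑ k, M n x i k * M n y k j)
        (hyperfilter ℕ : Filter ℕ) (nhds 0) := by
      refine Lim_small d hd _ ?_
      intro n
      rw [map_sub, map_sum, hMr, map_mul]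
      simp only [map_mul, hMr]
      rw [sub_eq_zero]
      simp [Matrix.mul_apply]
    have h2 : Tendsto (fun n => M n (x * y) i j - ∑ k, M n x i k * M n y k j)
        (hyperfilter ℕ : Filter ℕ) (nhds (L (x * y) i j - ∑ k, L x i k * L y k j)) := by
      refine (hL _ _ _).sub ?_
      exact tendsto_finsetSum _ fun k _ => (hL _ _ _).mul (hL _ _ _)
    exact sub_eq_zero.1 (tendsto_nhds_unique h2 h1)
  have hone : ∀ i j, L 1 i j = (1 : Matrix (Fin s) (Fin s) ℤ_[p]) i j := by
    intro i j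
    have h1 : Tendsto (fun n => M n 1 i j - (1 : Matrix (Fin s) (Fin s) ℤ_[p]) i j)
        (hyperfilter ℕ : Filter ℕ) (nhds 0) := by
      refine Lim_small d hd _ ?_
      intro n
      rw [map_sub, hMr, map_one]
      simp only [Units.val_one, Matrix.one_apply]
      split_ifs <;> simp
    have h2 : Tendsto (fun n => M n 1 i j - (1 : Matrix (Fin s) (Fin s) ℤ_[p]) i j)
        (hyperfilter ℕ : Filter ℕ) (nhds (L 1 i j - (1 : Matrix (Fin s) (Fin s) ℤ_[p]) i j)) :=
      (hL _ _ _).sub_const _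
    exact sub_eq_zero.1 (tendsto_nhds_unique h2 h1)
  let Ψ : X →* Matrix (Fin s) (Fin s) ℤ_[p] :=
    { toFun := fun x => Matrix.of (L x)
      map_one' := by
        ext i j
        exact hone i j
      map_mul' := by
        intro x y
        ext i j
        rw [Matrix.mul_apply]
        exact hmul x y i j }
  refine ⟨Ψ.toHomUnits, ?_⟩
  intro x j hx hone'
  have hΨ : Ψ x = 1 := by
    have := congrArg (fun u : GL (Fin s) ℤ_[p] => (u : Matrix (Fin s) (Fin s) ℤ_[p])) hone'
    simpa using this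
  have hLx : ∀ a b, L x a b = (1 : Matrix (Fin s) (Fin s) ℤ_[p]) a b := by
    intro a b
    exact congrFun (congrFun hΨ a) b
  have hpos : (0 : ℝ) < (p : ℝ) ^ (-j : ℤ) := by
    have hp : (0 : ℝ) < p := by exact_mod_cast (Fact.out : p.Prime).pos
    positivity
  have hev : ∀ a b, ∀ᶠ n in (hyperfilter ℕ : Filter ℕ),
      ‖M n x a b - (1 : Matrix (Fin s) (Fin s) ℤ_[p]) a b‖ ≤ (p : ℝ) ^ (-j : ℤ) := by
    intro a b
    have h1 : Tendsto (fun n => M n x a b - (1 : Matrix (Fin s) (Fin s) ℤ_[p]) a b)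
        (hyperfilter ℕ : Filter ℕ) (nhds 0) := by
      have h2 := (hL x a b).sub_const ((1 : Matrix (Fin s) (Fin s) ℤ_[p]) a b)
      rwa [hLx, sub_self] at h2
    rw [tendsto_zero_iff_norm_tendsto_zero] at h1
    exact (h1.eventually (gt_mem_nhds hpos)).mono fun n hn => le_of_lt hn
  have hev2 : ∀ᶠ n in (hyperfilter ℕ : Filter ℕ), ∀ a b,
      ‖M n x a b - (1 : Matrix (Fin s) (Fin s) ℤ_[p]) a b‖ ≤ (p : ℝ) ^ (-j : ℤ) := by
    rw [eventually_all]
    intro a
    rw [eventually_all]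
    intro b
    exact hev a b
  obtain ⟨n, hn⟩ := hev2.exists
  have hdiv : ∀ a b, ∃ c : ℤ_[p],
      M n x a b - (1 : Matrix (Fin s) (Fin s) ℤ_[p]) a b = (p : ℤ_[p]) ^ j * c := by
    intro a b
    have h1 := (PadicInt.norm_le_pow_iff_mem_span_pow _ _).1 (hn a b)
    rw [Ideal.mem_span_singleton'] at h1
    obtain ⟨c, hc⟩ := h1
    exact ⟨c, by rw [← hc, mul_comm]⟩
  choose N hN using hdiv
  refine hx n ⟨Matrix.of fun a b => PadicInt.toZModPow (d n) (N a b), ?_⟩
  ext a b
  have h1 : M n x a b = (1 : Matrix (Fin s) (Fin s) ℤ_[p]) a b + (p : ℤ_[p]) ^ j * N a b := by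
    rw [← hN, add_sub_cancel]
  rw [← hMr, h1, map_add, map_mul, map_pow, map_natCast, Matrix.add_apply, Matrix.smul_apply,
    Matrix.of_apply, smul_eq_mul]
  congr 1
  simp only [Matrix.one_apply]
  split_ifs <;> simp

end H36.PQ
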