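import Pool.Agent.H36.PQ.F1
import Pool.Agent.H36.PQ.Lim

/-!
# Module F2: the final contradiction

`X` finitely generated with `FinSol X`, `Zas R t`, `K` a subgroup, `K₁ = DS K t` finitely generated,
`k^e ∈ DS K (t+1)` for `k ∈ K₁`. Then it is impossible that for every `n` there are `s ≤ R`, `d`,
`φ : X →* GL (Fin s) (ZMod (p^d))` and `g ∈ DS K n` with `φ g ≠ 1`.

Proof. `f2_one` (one homomorphism): let `φ`, `g ∈ DS K n`, `n ≥ t + 1`, `φ g ≠ 1`. Then `d > n - t` and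
some `k ∈ K₁` is not `≡ 1` modulo `p^(e+1)`, `φ k` (more precisely `¬ CongOne (p^(e+1))`).
Indeed `d ≥ 1`. By `f1_zero` and `f1_deep` all elements of `DS K n` are `≡ 1` modulo
`p^(n-t+1)`, so `n - t + 1 < d` or so, in any case `n - t < d` (if `d ≤ n-t+1` then
`p^(n-t+1) = 0` in `ZMod (p^d)`, so `φ g = 1`). Suppose all elements of `K₁` are `≡ 1` modulo
`p^(e+1)`. Let `j` be the largest number `≤ d` such that all elements of `K₁` are `≡ 1` modulo
`p^j`; `j ≥ min (e+1) d`; `j < d` (else `φ K₁ = 1`, but `g ∈ K₁`); so `j ≥ e + 1`. If `2 j ≥ d` then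
`⁅K₁, K₁⁆` is `≡ 1` modulo `p^(2j) = 0` (`f1_comm`), and `g ∈ DS K n ≤ ⁅K₁, K₁⁆`, contradiction. So
`2 j < d`, and `f1_exp` gives `p^j ≤ e`, but `p^j > j ≥ e + 1`, contradiction.
`f2_final`: for every `n` choose `s_n, d_n, φ_n` for `n + t + 1`. By `f2_one` the set of generators
`k` of `K₁` (a fixed finite set) contains one with `¬ CongOne (p^(e+1)) (φ_n k)` (the elements
`≡ 1` form a subgroup). By the pigeonhole principle there are `s ≤ R`, a generator `k` and an
infinite set of `n` for which `s_n = s` and `k` works; along this set (`Nat.nth` or a strictly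
increasing function) `d_n → ∞`. By `exists_limit` there is `Φ : X →* GL (Fin s) ℤ_[p]` with
`Φ k ≠ 1`, but `k ∈ DS K t ≤ derivedSeries X t`, contradiction to `lin_sol` (`ℤ_[p]` is a domain).
-/

set_option autoImplicit false

universe u

namespace H36.PQ

open Subgroup H36.PP Filter
open scoped commutatorElement

private theorem f2_cong_one {R : Type*} [CommRing R] {s : ℕ} (q : R) :
    CongOne q (1 : Matrix (Fin s) (Fin s) R) := ⟨0, by simp⟩

private theorem f2_cong_mul {R : Type*} [CommRing R] {s : ℕ} {q : R}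
    {M M' : Matrix (Fin s) (Fin s) R} (h : CongOne q M) (h' : CongOne q M') :
    CongOne q (M * M') := by
  obtain ⟨N, rfl⟩ := h
  obtain ⟨N', rfl⟩ := h'
  refine ⟨N + N' + q • (N * N'), ?_⟩
  rw [Matrix.add_mul, Matrix.mul_add, Matrix.one_mul, Matrix.one_mul, Matrix.mul_add,
    Matrix.mul_one, Matrix.smul_mul, Matrix.mul_smul, smul_add, smul_add]
  abel

private theorem f2_cong_inv {R : Type*} [CommRing R] {s : ℕ} {q : R}
    {M M' : Matrix (Fin s) (Fin s) R} (h : CongOne q M) (h' : M * M' = 1) :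
    CongOne q M' := by
  obtain ⟨N, rfl⟩ := h
  refine ⟨-(N * M'), ?_⟩
  rw [Matrix.add_mul, Matrix.one_mul, Matrix.smul_mul] at h'
  rw [smul_neg, ← sub_eq_add_neg, eq_sub_iff_add_eq]
  exact h'

private theorem f2_cong_mono {R : Type*} [CommRing R] {s : ℕ} {p : R} {i j : ℕ} (hij : i ≤ j)
    {M : Matrix (Fin s) (Fin s) R} (h : CongOne (p ^ j) M) : CongOne (p ^ i) M := by
  obtain ⟨N, rfl⟩ := h
  refine ⟨p ^ (j - i) • N, ?_⟩
  rw [smul_smul, ← pow_add]
  congr 3
  omega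

private theorem f2_cong_zero {p d j s : ℕ} (hd : d ≤ j)
    {M : Matrix (Fin s) (Fin s) (ZMod (p ^ d))} (h : CongOne ((p : ZMod (p ^ d)) ^ j) M) :
    M = 1 := by
  obtain ⟨N, rfl⟩ := h
  have h0 : ((p : ZMod (p ^ d)) ^ j) = 0 := by
    have : ((p ^ j : ℕ) : ZMod (p ^ d)) = 0 :=
      (ZMod.natCast_eq_zero_iff _ _).2 (pow_dvd_pow p hd)
    simpa using this
  rw [h0, zero_smul, add_zero]

private theorem f2_cong_closure {X : Type u} [Group X] {s q : ℕ} (φ : X →* GL (Fin s) (ZMod q))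
    (a : ZMod q) (S : Set X) (h : ∀ g ∈ S, CongOne a (mat φ g)) :
    ∀ g ∈ closure S, CongOne a (mat φ g) := by
  intro g hg
  induction hg using Subgroup.closure_induction with
  | mem x hx => exact h x hx
  | one =>
    have : mat φ (1 : X) = 1 := by simp [mat]
    rw [this]
    exact f2_cong_one a
  | mul x y _ _ hx hy =>
    have : mat φ (x * y) = mat φ x * mat φ y := by simp [mat]
    rw [this]
    exact f2_cong_mul hx hy
  | inv x _ hx =>
    refine f2_cong_inv hx ?_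
    have : mat φ x * mat φ x⁻¹ = mat φ (x * x⁻¹) := by simp only [mat, map_mul, Units.val_mul]
    rw [this]
    simp [mat]

theorem f2_one {X : Type u} [Group X] (hsol : FinSol X) {R t s : ℕ} (hz : Zas.{u} R t)
    (hs : s ≤ R) {p d e n : ℕ} (hp : p.Prime) (φ : X →* GL (Fin s) (ZMod (p ^ d)))
    (K : Subgroup X) (he : 0 < e) (hK : ∀ k ∈ DS K t, k ^ e ∈ DS K (t + 1)) (hn : t + 1 ≤ n)
    (hφ : ∃ g ∈ DS K n, φ g ≠ 1) :
    n < t + d ∧ ∃ k ∈ DS K t, ¬ CongOne ((p : ZMod (p ^ d)) ^ (e + 1)) (mat φ k) := by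
  obtain ⟨g, hg, hg1⟩ := hφ
  have hne : ∀ j, d ≤ j → ¬ CongOne ((p : ZMod (p ^ d)) ^ j) (mat φ g) := by
    intro j hj hc
    exact hg1 (Units.ext (f2_cong_zero hj hc))
  have hd : 1 ≤ d := by
    by_contra hd0
    have : CongOne ((p : ZMod (p ^ d)) ^ 0) (mat φ g) := by
      refine ⟨mat φ g - 1, ?_⟩
      rw [pow_zero, one_smul]
      abel
    exact hne 0 (by omega) this
  have h0 := f1_zero hsol hz hs hp hd φ K
  have hdeep := f1_deep φ K t h0
  have hgt : g ∈ DS K t := z1_DS_anti K (by omega : t ≤ n) hg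
  have hgt1 : g ∈ DS K (t + 1) := z1_DS_anti K hn hg
  refine ⟨?_, ?_⟩
  · by_contra hlt
    have h1 := hdeep (n - t) g (by rw [show t + (n - t) = n by omega]; exact hg)
    exact hne _ (by omega) h1
  · by_contra hno
    push Not at hno
    have hex : ∃ m, ¬ ∀ k ∈ DS K t, CongOne ((p : ZMod (p ^ d)) ^ (e + 1 + m)) (mat φ k) :=
      ⟨d, fun hc => hne _ (by omega) (hc g hgt)⟩
    classical
    obtain ⟨m, hm, hmin⟩ : ∃ m, (¬ ∀ k ∈ DS K t,
        CongOne ((p : ZMod (p ^ d)) ^ (e + 1 + m)) (mat φ k)) ∧ ∀ m' < m, ∀ k ∈ DS K t,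
        CongOne ((p : ZMod (p ^ d)) ^ (e + 1 + m')) (mat φ k) := by
      refine ⟨Nat.find hex, Nat.find_spec hex, fun m' hm' => ?_⟩
      have := Nat.find_min hex hm'
      exact not_not.1 this
    have hm0 : m ≠ 0 := by
      rintro rfl
      exact hm (by simpa using hno)
    obtain ⟨m', rfl⟩ : ∃ m', m = m' + 1 := ⟨m - 1, by omega⟩
    have hj := hmin m' (by omega)
    set j := e + 1 + m' with hjdef
    have hjd : j + 1 ≤ d := by
      by_contra hc
      exact hne j (by omega) (hj g hgt)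
    have hn' : ∃ g ∈ DS K t, ¬ CongOne ((p : ZMod (p ^ d)) ^ (j + 1)) (mat φ g) := by
      by_contra hc
      push Not at hc
      exact hm hc
    by_cases h2 : 2 * j ≤ d
    · have := f1_exp hp φ (DS K t) h2 hjd hj hn' he hK
      have h3 : j < p ^ j := Nat.lt_pow_self hp.one_lt
      omega
    · have := f1_comm φ (DS K t) _ hj g hgt1
      rw [← pow_add] at this
      exact hne _ (by omega) this

theorem f2_final {X : Type u} [Group X] (hX : Group.FG X) (hsol : FinSol X) {R t : ℕ}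
    (hz : Zas.{u} R t) {p : ℕ} (hp : p.Prime) (K : Subgroup X) (hfg : (DS K t).FG) {e : ℕ}
    (he : 0 < e) (hK : ∀ k ∈ DS K t, k ^ e ∈ DS K (t + 1))
    (hφ : ∀ n, ∃ s ≤ R, ∃ (d : ℕ) (φ : X →* GL (Fin s) (ZMod (p ^ d))), ∃ g ∈ DS K n, φ g ≠ 1) :
    False := by
  have : Fact p.Prime := ⟨hp⟩
  obtain ⟨S, hS⟩ := hfg
  have hSK : ∀ k ∈ S, k ∈ DS K t := fun k hk => by
    rw [← hS]
    exact Subgroup.subset_closure hk
  have hgood : ∀ n, ∃ s ≤ R, ∃ k ∈ S, ∃ (d : ℕ) (φ : X →* GL (Fin s) (ZMod (p ^ d))),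
      n < d ∧ ¬ CongOne ((p : ZMod (p ^ d)) ^ (e + 1)) (mat φ k) := by
    intro n
    obtain ⟨s, hs, d, φ, hg⟩ := hφ (n + t + 1)
    obtain ⟨h1, k, hk, hk1⟩ := f2_one hsol hz hs hp φ K he hK (by omega) hg
    have : ∃ k ∈ S, ¬ CongOne ((p : ZMod (p ^ d)) ^ (e + 1)) (mat φ k) := by
      by_contra hc
      push Not at hc
      exact hk1 (f2_cong_closure φ _ (S : Set X) hc k (by rw [hS]; exact hk))
    obtain ⟨k', hk', hk'1⟩ := this
    exact ⟨s, hs, k', hk', d, φ, by omega, hk'1⟩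
  obtain ⟨s, hs, k, hk, hall⟩ : ∃ s ≤ R, ∃ k ∈ S, ∀ n, ∃ (d : ℕ)
      (φ : X →* GL (Fin s) (ZMod (p ^ d))),
      n < d ∧ ¬ CongOne ((p : ZMod (p ^ d)) ^ (e + 1)) (mat φ k) := by
    by_contra hc
    push Not at hc
    have hc' : ∀ (s : ℕ) (k : X), ∃ N : ℕ, s ≤ R → k ∈ S → ∀ (d : ℕ)
        (φ : X →* GL (Fin s) (ZMod (p ^ d))),
        N < d → CongOne ((p : ZMod (p ^ d)) ^ (e + 1)) (mat φ k) := by
      intro s k
      by_cases h1 : s ≤ R
      · by_cases h2 : k ∈ S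
        · obtain ⟨N, hN⟩ := hc s h1 k h2
          exact ⟨N, fun _ _ => hN⟩
        · exact ⟨0, fun _ h => absurd h h2⟩
      · exact ⟨0, fun h => absurd h h1⟩
    choose N hN using hc'
    obtain ⟨s, hs, k, hk, d, φ, hd, hcc⟩ :=
      hgood ((Finset.range (R + 1)).sup fun s => S.sup fun k => N s k)
    refine hcc (hN s k hs hk d φ (lt_of_le_of_lt ?_ hd))
    calc N s k ≤ S.sup fun k => N s k := Finset.le_sup (f := fun k => N s k) hk
      _ ≤ _ := Finset.le_sup (f := fun s => S.sup fun k => N s k)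
        (Finset.mem_range.2 (by omega))
  choose d φ hd hcong using hall
  obtain ⟨Φ, hΦ⟩ := exists_limit (X := X) p s d
    (tendsto_atTop_mono (fun n => (hd n).le) tendsto_id) φ
  refine hΦ k (e + 1) hcong ?_
  refine lin_sol hX hsol hz hs Φ k ?_
  rw [← z1_DS_top]
  exact z1_DS_mono le_top t (hSK k hk)

end H36.PQ
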