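import Mathlib

/-!
# Module H1: the top homocyclic section of a finite abelian `p`-group

`D` a nontrivial finite abelian `p`-group, written additively, `p^j D` the image of multiplication by
`p^j`, `r_j` the dimension of `p^j D / p^(j+1) D`. Then `r_0 ≥ r_1 ≥ ...` (multiplication by `p` maps
`p^j D / p^(j+1) D` onto `p^(j+1) D / p^(j+2) D`) and `r_j = 0` for large `j`. Let `s = r_0 > 0` and let
`b > 0` be minimal with `r_b < s`. Then `D / p^b D` has order `p^(s b)`, is killed by `p^b` and is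
generated by `s` elements (Burnside basis / Nakayama: `D / p D` has order `p^s`), so a surjection
`(ZMod (p^b))^s → D / p^b D` is bijective by counting. (Or use the structure theorem
`AddCommGroup.equiv_directSum_zmod_of_finite`: `D ≅ ⨁ ZMod (p^(e_i))`, `e_i ≥ 1`, `b = min e_i`,
`s` = number of summands.)
Nontriviality is expressed by: some element is not zero; the three conclusions are: the
isomorphism, the order of `D / p D`, and the order of `p^b D / p^(b+1) D` (as an index).
-/

set_option autoImplicit false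

namespace H36.PQ

open AddSubgroup

/-- multiples by `m` -/
def mulS (D : Type*) [AddCommGroup D] (m : ℕ) : AddSubgroup D := (nsmulAddMonoidHom m : D →+ D).range

private theorem H1_coord {p : ℕ} (c e : ℕ) (x : ZMod (p ^ e))
    (hx : (ZMod.castHom (pow_dvd_pow p (min_le_right c e)) (ZMod (p ^ (min c e)))) x = 0) :
    ∃ y : ZMod (p ^ e), p ^ c • y = x := by
  obtain ⟨k, rfl⟩ := ZMod.intCast_surjective x
  rw [map_intCast, ZMod.intCast_zmod_eq_zero_iff_dvd] at hx
  obtain ⟨m, rfl⟩ := hx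
  rcases le_total c e with h | h
  · rw [min_eq_left h]
    refine ⟨(m : ZMod (p ^ e)), ?_⟩
    push_cast
    rw [nsmul_eq_mul]
    push_cast
    rfl
  · rw [min_eq_right h]
    refine ⟨0, ?_⟩
    rw [smul_zero]
    have : ((p ^ e : ℕ) : ZMod (p ^ e)) = 0 := ZMod.natCast_self _
    push_cast at this ⊢
    rw [this, zero_mul]

private theorem H1_coord' {p : ℕ} (c e : ℕ) (y : ZMod (p ^ e)) :
    (ZMod.castHom (pow_dvd_pow p (min_le_right c e)) (ZMod (p ^ (min c e)))) (p ^ c • y) = 0 := by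
  rw [nsmul_eq_mul, map_mul, map_natCast]
  have : ((p ^ c : ℕ) : ZMod (p ^ (min c e))) = 0 := by
    rw [ZMod.natCast_eq_zero_iff]
    exact pow_dvd_pow p (min_le_left c e)
  rw [this, zero_mul]

private theorem H1_quot {p : ℕ} {D : Type*} [AddCommGroup D]
    {ι : Type} [Fintype ι] (e : ι → ℕ) (E : D ≃+ (∀ i, ZMod (p ^ e i))) (c : ℕ) :
    Nonempty ((D ⧸ mulS D (p ^ c)) ≃+ (∀ i, ZMod (p ^ (min c (e i))))) := by
  classical
  let π : (∀ i, ZMod (p ^ e i)) →+ (∀ i, ZMod (p ^ (min c (e i)))) :=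
    AddMonoidHom.pi (fun i => ((ZMod.castHom (pow_dvd_pow p (min_le_right c (e i)))
      (ZMod (p ^ (min c (e i))))) : ZMod (p ^ e i) →+ ZMod (p ^ (min c (e i)))).comp
        (Pi.evalAddMonoidHom (fun i => ZMod (p ^ e i)) i))
  have hπ : ∀ x i, π x i = (ZMod.castHom (pow_dvd_pow p (min_le_right c (e i)))
      (ZMod (p ^ (min c (e i))))) (x i) := fun x i => rfl
  let φ : D →+ (∀ i, ZMod (p ^ (min c (e i)))) := π.comp E.toAddMonoidHom
  have hφ : ∀ x, φ x = π (E x) := fun x => rfl
  have hsurj : Function.Surjective φ := by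
    intro y
    have : ∀ i, ∃ x : ZMod (p ^ e i), (ZMod.castHom (pow_dvd_pow p (min_le_right c (e i)))
      (ZMod (p ^ (min c (e i))))) x = y i := fun i =>
        ZMod.castHom_surjective (pow_dvd_pow p (min_le_right c (e i))) (y i)
    choose x hx using this
    refine ⟨E.symm x, ?_⟩
    rw [hφ, AddEquiv.apply_symm_apply]
    funext i
    rw [hπ, hx]
  have hker : φ.ker = mulS D (p ^ c) := by
    ext x
    rw [AddMonoidHom.mem_ker]
    constructor
    · intro h
      have h1 : ∀ i, ∃ y : ZMod (p ^ e i), p ^ c • y = E x i := by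
        intro i
        apply H1_coord c (e i) (E x i)
        rw [← hπ, ← hφ, h]
        rfl
      choose y hy using h1
      refine ⟨E.symm y, ?_⟩
      change p ^ c • (E.symm y) = x
      apply E.injective
      rw [map_nsmul, AddEquiv.apply_symm_apply]
      funext i
      rw [Pi.smul_apply, hy]
    · rintro ⟨y, rfl⟩
      change φ (p ^ c • y) = 0
      rw [hφ, map_nsmul]
      funext i
      rw [hπ, Pi.smul_apply, H1_coord']
      rfl
  exact ⟨(QuotientAddGroup.quotientAddEquivOfEq hker.symm).trans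
    (QuotientAddGroup.quotientKerEquivOfSurjective φ hsurj)⟩

private theorem H1_index {p : ℕ} {D : Type*} [AddCommGroup D]
    {ι : Type} [Fintype ι] (e : ι → ℕ) (E : D ≃+ (∀ i, ZMod (p ^ e i))) (c : ℕ) :
    (mulS D (p ^ c)).index = p ^ (∑ i, min c (e i)) := by
  classical
  obtain ⟨f⟩ := H1_quot e E c
  rw [AddSubgroup.index, Nat.card_congr f.toEquiv, Nat.card_pi]
  simp only [Nat.card_zmod]
  rw [Finset.prod_pow_eq_pow_sum]

private theorem H1_str {p : ℕ} (hp : p.Prime) {D : Type*} [AddCommGroup D] [Finite D]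
    (hD : ∀ x : D, ∃ n : ℕ, p ^ n • x = 0) :
    ∃ (ι : Type) (_ : Fintype ι) (e : ι → ℕ), (∀ i, 0 < e i) ∧
      Nonempty (D ≃+ (∀ i, ZMod (p ^ e i))) := by
  classical
  obtain ⟨ι, hι, n, hn, ⟨f⟩⟩ := AddCommGroup.equiv_directSum_zmod_of_finite' D
  let g : D ≃+ (∀ i, ZMod (n i)) := f.trans (DirectSum.addEquivProd (fun i => ZMod (n i)))
  have hpow : ∀ i, ∃ k, n i = p ^ k := by
    intro i
    obtain ⟨m, hm⟩ := hD (g.symm (Pi.single i 1))
    have h1 := congrArg g hm
    rw [map_nsmul, AddEquiv.apply_symm_apply, map_zero] at h1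
    have h2 := congrFun h1 i
    rw [Pi.smul_apply, Pi.single_eq_same, Pi.zero_apply, nsmul_eq_mul, mul_one,
      ZMod.natCast_eq_zero_iff] at h2
    obtain ⟨k, -, hk⟩ := (Nat.dvd_prime_pow hp).1 h2
    exact ⟨k, hk⟩
  choose e he using hpow
  obtain rfl : n = fun i => p ^ e i := funext he
  refine ⟨ι, hι, e, ?_, ⟨g⟩⟩
  intro i
  rcases Nat.eq_zero_or_pos (e i) with h | h
  · have := hn i
    simp only [h, pow_zero] at this
    omega
  · exact h

theorem homocyclic {p : ℕ} (hp : p.Prime) {D : Type*} [AddCommGroup D] [Finite D]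
    (hD : ∀ x : D, ∃ n : ℕ, p ^ n • x = 0) (hne : ∃ x : D, x ≠ 0) :
    ∃ s b : ℕ, 0 < s ∧ 0 < b ∧ Nonempty ((D ⧸ mulS D (p ^ b)) ≃+ (Fin s → ZMod (p ^ b))) ∧
      (mulS D p).index = p ^ s ∧ (mulS D (p ^ (b + 1))).relIndex (mulS D (p ^ b)) < p ^ s := by
  classical
  obtain ⟨ι, hι, e, he, ⟨E⟩⟩ := H1_str hp hD
  have hιne : Nonempty ι := by
    by_contra hem
    rw [not_nonempty_iff] at hem
    obtain ⟨x, hx⟩ := hne
    apply hx
    apply E.injective
    exact Subsingleton.elim _ _
  obtain ⟨i0, hi0⟩ := Finite.exists_min e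
  set b := e i0 with hb
  set s := Fintype.card ι with hs
  have hs0 : 0 < s := Fintype.card_pos
  have hb0 : 0 < b := he i0
  refine ⟨s, b, hs0, hb0, ?_, ?_, ?_⟩
  · obtain ⟨f⟩ := H1_quot e E b
    have hmin : (fun i => min b (e i)) = fun _ => b := by
      funext i
      exact min_eq_left (hi0 i)
    have key : ∀ m : ι → ℕ, m = (fun _ => b) →
        Nonempty ((∀ i, ZMod (p ^ m i)) ≃+ (Fin s → ZMod (p ^ b))) := by
      intro m hm
      subst hm
      exact ⟨(RingEquiv.piCongrLeft (fun _ => ZMod (p ^ b)) (Fintype.equivFin ι)).toAddEquiv⟩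
    obtain ⟨g⟩ := key _ hmin
    exact ⟨f.trans g⟩
  · have h1 := H1_index e E 1
    rw [pow_one] at h1
    rw [h1]
    congr 1
    rw [hs, Finset.sum_congr rfl (fun i _ => min_eq_left (he i))]
    simp
  · have hle : mulS D (p ^ (b + 1)) ≤ mulS D (p ^ b) := by
      rintro _ ⟨y, rfl⟩
      refine ⟨p • y, ?_⟩
      change p ^ b • (p • y) = p ^ (b + 1) • y
      rw [← mul_smul, pow_succ]
    have hmul := AddSubgroup.relIndex_mul_index hle
    rw [H1_index e E b, H1_index e E (b + 1)] at hmul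
    have hsb : ∑ i, min b (e i) = s * b := by
      rw [Finset.sum_congr rfl (fun i _ => min_eq_left (hi0 i))]
      simp [hs]
    have hlt : ∑ i, min (b + 1) (e i) < s * (b + 1) := by
      have : ∑ i, min (b + 1) (e i) < ∑ _i : ι, (b + 1) := by
        apply Finset.sum_lt_sum (fun i _ => min_le_left _ _)
        refine ⟨i0, Finset.mem_univ _, ?_⟩
        rw [← hb]
        omega
      simpa [hs] using this
    rw [hsb] at hmul
    have hpp : 1 < p := hp.one_lt
    have h3 : p ^ (∑ i, min (b + 1) (e i)) < p ^ (s * (b + 1)) := Nat.pow_lt_pow_right hpp hlt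
    have h4 : p ^ (s * (b + 1)) = p ^ s * p ^ (s * b) := by ring
    rw [← hmul, h4] at h3
    exact lt_of_mul_lt_mul_right h3 (Nat.zero_le _)

end H36.PQ
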