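import Pool.Agent.H36.PQ.Z1
import Pool.Agent.H36.PQ.H1

/-!
# Module H2: linear representations from abelian normal `p`-subgroups

`h2_PowS`: for an abelian subgroup `D`, `PowS D m` is the set of `m`-th powers of elements of `D`,
it is normal in `X` if `D` is; `PowS (PowS D m) n = PowS D (m n)`.

`h2_sec`: `D` a normal subgroup of `X`, abelian, and `D ⧸ PowS D (p^b)` isomorphic to
`(ZMod (p^b))^s`. Then there is `φ : X →* GL (Fin s) (ZMod (p^b))` such that for every `g : X`,
`φ g = 1` iff `⁅g, x⁆ ∈ PowS D (p^b)` for all `x ∈ D`. (`X` acts by conjugation on `D/D^(p^b)` by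
automorphisms of an additive group, which is a free module over `ZMod (p^b)` of rank `s`; an
additive endomorphism of `Fin s → ZMod (p^b)` is linear, `AddMonoidHom.toZModLinearMap`; then
`LinearMap.toMatrix'`.)

`homo`: by induction on `s`: `D` a finite abelian normal `p`-subgroup of `X` with
`(PowS D p).relIndex D ≤ p ^ s`, `K` a subgroup of `X`; if some element of `DS K (n + s)` does not
centralise `D`, then there are `s' ≤ s`, `d` and `φ : X →* GL (Fin s') (ZMod (p ^ d))` such that some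
element of `DS K n` has `φ g ≠ 1`.
Proof. `s = 0`: `D = PowS D p`, so `D = 1`, contradiction. Step: `D ≠ 1`; take `s₁, b` from
`homocyclic` (`s₁ ≤ s`, by the index) and `D₁ = PowS D (p^b)`, `(PowS D₁ p).relIndex D₁ < p^s₁`, so
`≤ p^(s₁ - 1) ≤ p^(s-1)` (it is a power of `p`). If some `g ∈ DS K n` does not centralise `D/D₁` we are
done by `h2_sec` (with `d = b`). Otherwise `DS K n` centralises `D/D₁`. If some element of
`DS K (n + (s-1))` does not centralise `D₁`, use the induction hypothesis for `D₁`. Otherwise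
`DS K (n+s-1)` centralises `D/D₁` and `D₁`, so `DS K (n+s)` centralises `D` by `z1_stab`,
contradiction.
-/

set_option autoImplicit false

universe u

namespace H36.PQ

open Subgroup H36.PP
open scoped commutatorElement

private theorem h2_comm_inst {X : Type u} [Group X] (D : Subgroup X)
    (hc : ∀ x ∈ D, ∀ y ∈ D, x * y = y * x) (a b : D) : a * b = b * a :=
  Subtype.ext (hc a a.2 b b.2)

theorem h2_mem_PowS {X : Type u} [Group X] (D : Subgroup X)
    (hc : ∀ x ∈ D, ∀ y ∈ D, x * y = y * x) (m : ℕ) (y : X) :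
    y ∈ PowS D m ↔ ∃ x ∈ D, y = x ^ m := by
  constructor
  · intro hy
    refine Subgroup.closure_induction (p := fun y _ => ∃ x ∈ D, y = x ^ m) ?_ ?_ ?_ ?_ hy
    · rintro z ⟨x, hx, rfl⟩
      exact ⟨x, hx, rfl⟩
    · exact ⟨1, D.one_mem, (one_pow m).symm⟩
    · rintro _ _ _ _ ⟨x, hx, rfl⟩ ⟨z, hz, rfl⟩
      refine ⟨x * z, D.mul_mem hx hz, ?_⟩
      exact ((show Commute x z from hc x hx z hz).mul_pow m).symm
    · rintro _ _ ⟨x, hx, rfl⟩
      exact ⟨x⁻¹, D.inv_mem hx, (inv_pow x m).symm⟩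
  · rintro ⟨x, hx, rfl⟩
    exact subset_closure ⟨x, hx, rfl⟩

theorem h2_PowS_normal {X : Type u} [Group X] (D : Subgroup X) [D.Normal] (m : ℕ) :
    (PowS D m).Normal := by
  constructor
  intro n hn g
  have key : PowS D m ≤ (PowS D m).comap (MulAut.conj g).toMonoidHom := by
    refine (closure_le _).mpr ?_
    rintro _ ⟨x, hx, rfl⟩
    refine subset_closure ⟨g * x * g⁻¹, Normal.conj_mem inferInstance x hx g, ?_⟩
    simp [conj_pow]
  exact key hn

theorem h2_PowS_le {X : Type u} [Group X] (D : Subgroup X) (m : ℕ) : PowS D m ≤ D := by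
  refine (closure_le _).mpr ?_
  rintro _ ⟨x, hx, rfl⟩
  exact D.pow_mem hx m

private theorem h2_pow_pow {X : Type u} [Group X] (D : Subgroup X)
    (hc : ∀ x ∈ D, ∀ y ∈ D, x * y = y * x) (m n : ℕ) : PowS (PowS D m) n = PowS D (m * n) := by
  ext y
  have hc' : ∀ x ∈ PowS D m, ∀ y ∈ PowS D m, x * y = y * x := fun x hx y hy =>
    hc x (h2_PowS_le D m hx) y (h2_PowS_le D m hy)
  rw [h2_mem_PowS _ hc', h2_mem_PowS _ hc]
  constructor
  · rintro ⟨x, hx, rfl⟩
    obtain ⟨z, hz, rfl⟩ := (h2_mem_PowS _ hc m x).mp hx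
    exact ⟨z, hz, (pow_mul z m n).symm⟩
  · rintro ⟨z, hz, rfl⟩
    exact ⟨z ^ m, (h2_mem_PowS _ hc m _).mpr ⟨z, hz, rfl⟩, pow_mul z m n⟩

/-- `homocyclic` for subgroups, multiplicatively -/
theorem h2_homocyclic {X : Type u} [Group X] {p : ℕ} (hp : p.Prime) (D : Subgroup X)
    (hfin : Finite D) (hc : ∀ x ∈ D, ∀ y ∈ D, x * y = y * x) (hP : IsPGroup p D) (hne : D ≠ ⊥) :
    ∃ s b : ℕ, 0 < s ∧ 0 < b ∧ (PowS D p).relIndex D = p ^ s ∧
      (PowS (PowS D (p ^ b)) p).relIndex (PowS D (p ^ b)) < p ^ s ∧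
      ∃ f : D →* Multiplicative (Fin s → ZMod (p ^ b)), Function.Surjective f ∧
        ∀ x : D, f x = 1 ↔ (x : X) ∈ PowS D (p ^ b) := by
  let _ : CommGroup D := { (inferInstance : Group D) with mul_comm := h2_comm_inst D hc }
  have hmul : ∀ m : ℕ, mulS (Additive D) m = Subgroup.toAddSubgroup ((PowS D m).subgroupOf D) := by
    intro m
    ext x
    constructor
    · rintro ⟨y, rfl⟩
      change ((m • y : Additive D).toMul : X) ∈ PowS D m
      exact subset_closure ⟨(y.toMul : D), (y.toMul : D).2, by simp⟩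
    · intro hx
      obtain ⟨z, hz, hzx⟩ := (h2_mem_PowS D hc m _).mp (show ((x.toMul : D) : X) ∈ PowS D m from hx)
      refine ⟨Additive.ofMul (⟨z, hz⟩ : D), ?_⟩
      apply Additive.toMul.injective
      apply Subtype.ext
      rw [hzx]
      simp
  have hidx : ∀ m : ℕ, (mulS (Additive D) m).index = (PowS D m).relIndex D := by
    intro m
    rw [hmul m, Subgroup.index_toAddSubgroup]
    rfl
  have hrel : ∀ m n : ℕ, (mulS (Additive D) m).relIndex (mulS (Additive D) n) =
      (PowS D m).relIndex (PowS D n) := by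
    intro m n
    rw [hmul m, hmul n, Subgroup.relIndex_toAddSubgroup]
    exact Subgroup.relIndex_subgroupOf (h2_PowS_le D n)
  have h1 : ∀ x : Additive D, ∃ n : ℕ, p ^ n • x = 0 := by
    intro x
    obtain ⟨k, hk⟩ := hP x.toMul
    exact ⟨k, by
      apply Additive.toMul.injective
      simpa using hk⟩
  have h2 : ∃ x : Additive D, x ≠ 0 := by
    obtain ⟨y, hy1⟩ := Subgroup.ne_bot_iff_exists_ne_one.mp hne
    exact ⟨Additive.ofMul y, fun h => hy1 (Additive.ofMul.injective h)⟩
  obtain ⟨s, b, hs, hb, ⟨e⟩, hi1, hi2⟩ := homocyclic hp h1 h2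
  refine ⟨s, b, hs, hb, ?_, ?_, ?_⟩
  · rw [← hidx]; exact hi1
  · rw [h2_pow_pow D hc, ← pow_succ, ← hrel]
    exact hi2
  · let f0 : Additive D →+ (Fin s → ZMod (p ^ b)) :=
      (e : _ →+ _).comp (QuotientAddGroup.mk' (mulS (Additive D) (p ^ b)))
    let f : D →* Multiplicative (Fin s → ZMod (p ^ b)) :=
      { toFun := fun x => Multiplicative.ofAdd (f0 (Additive.ofMul x))
        map_one' := by
          change Multiplicative.ofAdd (f0 0) = 1
          rw [map_zero]; rfl
        map_mul' := fun x y => by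
          change Multiplicative.ofAdd (f0 (Additive.ofMul x + Additive.ofMul y)) = _
          rw [map_add]; rfl }
    refine ⟨f, ?_, ?_⟩
    · intro v
      obtain ⟨w, hw⟩ := e.surjective (Multiplicative.toAdd v)
      obtain ⟨x, hx⟩ := QuotientAddGroup.mk'_surjective (mulS (Additive D) (p ^ b)) w
      refine ⟨x.toMul, ?_⟩
      change Multiplicative.ofAdd (e (QuotientAddGroup.mk' (mulS (Additive D) (p ^ b)) x)) = v
      rw [hx, hw]; rfl
    · intro x
      have h3 : f x = 1 ↔ e (QuotientAddGroup.mk' (mulS (Additive D) (p ^ b)) (Additive.ofMul x)) = 0 :=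
        Iff.rfl
      rw [h3, map_eq_zero_iff e e.injective]
      change ((Additive.ofMul x : Additive D) : Additive D ⧸ mulS (Additive D) (p ^ b)) = 0 ↔ _
      rw [QuotientAddGroup.eq_zero_iff, hmul]
      rfl

theorem h2_sec {X : Type u} [Group X] {q s : ℕ} (D L : Subgroup X) [D.Normal] [L.Normal]
    (f : D →* Multiplicative (Fin s → ZMod q)) (hf : Function.Surjective f)
    (hk : ∀ x : D, f x = 1 ↔ (x : X) ∈ L) :
    ∃ φ : X →* GL (Fin s) (ZMod q), ∀ g : X, φ g = 1 ↔ ∀ x ∈ D, ⁅g, x⁆ ∈ L := by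
  have hker : ∀ g : X, f.ker ≤ (f.comp (MulAut.conjNormal g : MulAut D).toMonoidHom).ker := by
    intro g x hx
    rw [MonoidHom.mem_ker] at hx ⊢
    change f (MulAut.conjNormal g x) = 1
    rw [hk] at hx ⊢
    rw [MulAut.conjNormal_apply]
    exact Normal.conj_mem inferInstance _ hx g
  let α : X → (Multiplicative (Fin s → ZMod q) →* Multiplicative (Fin s → ZMod q)) := fun g =>
    f.liftOfSurjective hf ⟨f.comp (MulAut.conjNormal g : MulAut D).toMonoidHom, hker g⟩
  have hα : ∀ (g : X) (x : D), α g (f x) = f (MulAut.conjNormal g x) := by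
    intro g x
    exact MonoidHom.liftOfRightInverse_comp_apply f _ _ _ x
  let β : X → ((Fin s → ZMod q) →ₗ[ZMod q] (Fin s → ZMod q)) := fun g =>
    AddMonoidHom.toZModLinearMap q (AddMonoidHom.toMultiplicative.symm (α g))
  have hβ : ∀ (g : X) (x : D), β g (Multiplicative.toAdd (f x)) =
      Multiplicative.toAdd (f (MulAut.conjNormal g x)) := by
    intro g x
    rw [← hα]
    rfl
  have hsurj : ∀ v : Fin s → ZMod q, ∃ x : D, v = Multiplicative.toAdd (f x) := by
    intro v
    obtain ⟨x, hx⟩ := hf (Multiplicative.ofAdd v)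
    exact ⟨x, by rw [hx]; rfl⟩
  have hone : β 1 = 1 := by
    refine LinearMap.ext fun v => ?_
    obtain ⟨x, rfl⟩ := hsurj v
    rw [hβ, map_one]
    rfl
  have hmul : ∀ g h : X, β (g * h) = β g * β h := by
    intro g h
    refine LinearMap.ext fun v => ?_
    obtain ⟨x, rfl⟩ := hsurj v
    rw [Module.End.mul_apply, hβ, hβ, hβ, map_mul]
    rfl
  let ψ : X →* Matrix (Fin s) (Fin s) (ZMod q) :=
    { toFun := fun g => LinearMap.toMatrix' (β g)
      map_one' := by rw [hone, LinearMap.toMatrix'_one]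
      map_mul' := fun g h => by rw [hmul, LinearMap.toMatrix'_mul] }
  refine ⟨ψ.toHomUnits, fun g => ?_⟩
  have e1 : ψ.toHomUnits g = 1 ↔ β g = 1 := by
    rw [Units.ext_iff]
    change LinearMap.toMatrix' (β g) = 1 ↔ _
    rw [← LinearMap.toMatrix'_one]
    exact LinearMap.toMatrix'.injective.eq_iff
  rw [e1]
  constructor
  · intro h x hx
    have h1 := hβ g ⟨x, hx⟩
    rw [h] at h1
    have h2 : f ⟨x, hx⟩ = f (MulAut.conjNormal g ⟨x, hx⟩) := Multiplicative.toAdd.injective h1
    have h3 : f (MulAut.conjNormal g ⟨x, hx⟩ * ⟨x, hx⟩⁻¹) = 1 := by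
      rw [map_mul, map_inv, ← h2, mul_inv_cancel]
    rw [hk] at h3
    simpa [commutatorElement_def, MulAut.conjNormal_apply] using h3
  · intro h
    refine LinearMap.ext fun v => ?_
    obtain ⟨x, rfl⟩ := hsurj v
    rw [hβ]
    have h3 : f (MulAut.conjNormal g x * x⁻¹) = 1 := by
      rw [hk]
      simpa [commutatorElement_def, MulAut.conjNormal_apply] using h x x.2
    rw [map_mul, map_inv, mul_inv_eq_one] at h3
    rw [h3]
    rfl

theorem homo {X : Type u} [Group X] {p : ℕ} (hp : p.Prime) (s : ℕ) :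
    ∀ (D : Subgroup X), D.Normal → Finite D → (∀ x ∈ D, ∀ y ∈ D, x * y = y * x) → IsPGroup p D →
      (PowS D p).relIndex D ≤ p ^ s → ∀ (K : Subgroup X) (n : ℕ),
      ¬ (∀ g ∈ DS K (n + s), ∀ x ∈ D, g * x = x * g) →
      ∃ s' ≤ s, ∃ (d : ℕ) (φ : X →* GL (Fin s') (ZMod (p ^ d))), ∃ g ∈ DS K n, φ g ≠ 1 := by
  induction s with
  | zero =>
    intro D hD hfin hc hP hidx K n hnc
    exfalso
    apply hnc
    intro g _ x hx
    have hbot : D = ⊥ := by
      by_contra hne
      obtain ⟨s₁, b, hs, hb, h1, -, -⟩ := h2_homocyclic hp D hfin hc hP hne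
      rw [h1] at hidx
      have := (Nat.pow_le_pow_iff_right hp.one_lt).mp hidx
      omega
    rw [hbot, Subgroup.mem_bot] at hx
    rw [hx, mul_one, one_mul]
  | succ s' ih =>
    intro D hD hfin hc hP hidx K n hnc
    have hne : D ≠ ⊥ := by
      rintro rfl
      apply hnc
      intro g _ x hx
      rw [Subgroup.mem_bot] at hx
      rw [hx, mul_one, one_mul]
    obtain ⟨s₁, b, hs, hb, h1, h2, f, hfs, hfk⟩ := h2_homocyclic hp D hfin hc hP hne
    have hs1 : s₁ ≤ s' + 1 := by
      rw [h1] at hidx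
      exact (Nat.pow_le_pow_iff_right hp.one_lt).mp hidx
    set D₁ := PowS D (p ^ b) with hD₁
    have hle : D₁ ≤ D := h2_PowS_le D _
    have hn1 : D₁.Normal := h2_PowS_normal D _
    by_cases hcent : ∀ g ∈ DS K n, ∀ x ∈ D, ⁅g, x⁆ ∈ D₁
    · have hfin1 : Finite D₁ := Finite.of_injective _ (Subgroup.inclusion_injective hle)
      have hP1 : IsPGroup p D₁ := hP.to_le hle
      have hfp : Fact p.Prime := ⟨hp⟩
      have hidx1 : (PowS D₁ p).relIndex D₁ ≤ p ^ s' := by
        obtain ⟨k, hk⟩ := IsPGroup.iff_card.mp hP1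
        have hd := Subgroup.relIndex_dvd_card (PowS D₁ p) D₁
        rw [hk] at hd
        obtain ⟨j, -, hj⟩ := (Nat.dvd_prime_pow hp).mp hd
        rw [hj] at h2 ⊢
        have := (Nat.pow_lt_pow_iff_right hp.one_lt).mp h2
        exact (Nat.pow_le_pow_iff_right hp.one_lt).mpr (by omega)
      by_cases hc1 : ∀ g ∈ DS K (n + s'), ∀ x ∈ D₁, g * x = x * g
      · exfalso
        apply hnc
        exact z1_stab D D₁ (DS K (n + s')) hc1
          (fun g hg x hx => hcent g (z1_DS_anti K (Nat.le_add_right n s') hg) x hx)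
      · obtain ⟨s'', hs'', d, φ, g, hg, hφ⟩ := ih D₁ hn1 hfin1
          (fun x hx y hy => hc x (hle hx) y (hle hy)) hP1 hidx1 K n hc1
        exact ⟨s'', by omega, d, φ, g, hg, hφ⟩
    · push Not at hcent
      obtain ⟨g, hg, x, hx, hgx⟩ := hcent
      obtain ⟨φ, hφ⟩ := h2_sec D D₁ f hfs hfk
      refine ⟨s₁, hs1, b, φ, g, hg, ?_⟩
      intro h
      exact hgx ((hφ g).mp h x hx)

end H36.PQ
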