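import Pool.Agent.H36.PQ.Z1

/-!
# Module N1: action on elementary abelian sections; nilpotency

`sec_cent`: `Zas R t`, `L ≤ M` normal subgroups of `X`, `M/L` finite elementary abelian of order at
most `p ^ R`, `H` a soluble subgroup of `X`. Then `⁅g, x⁆ ∈ L` for `g ∈ DS H t`, `x ∈ M`.
(`H` acts by conjugation on the vector space `M/L` over `ZMod p`, of dimension `s' ≤ R`; a basis
gives `H →* GL (Fin s') (ZMod p)`; `DS H t` is the image of `derivedSeries H t`.)

`nil_of_central`: `Q` finite soluble, `D` a subgroup which centralises all elementary abelian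
sections `M/L`, `L ≤ M` normal in `Q`. Then `D` is nilpotent. (Induction on `|Q|`: if `Q ≠ 1` let
`V ≠ 1` be a normal elementary abelian `p`-subgroup of `Q` (e.g. the elements of order dividing `p`
in the last nontrivial derived subgroup, for a prime `p` dividing its order). `D` centralises `V`,
and the image of `D` in `Q ⧸ V` is nilpotent by induction (the hypothesis passes to `Q ⧸ V`), with
kernel `D ⊓ V`, which is central in `D`; `isNilpotent_of_ker_le_center`.)

`fin_nil`: `FinSol X`, `SecB X R`, `Zas R t`: `derivedSeries (X ⧸ J) t` is nilpotent for all normal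
`J` of finite index. (`nil_of_central` for `Q = X ⧸ J` and `sec_cent` with `H = ⊤`; sections of
`X ⧸ J` are sections of `X`.)
-/

set_option autoImplicit false

universe u

namespace H36.PQ

open Subgroup H36.PP
open scoped commutatorElement

private theorem n1_vec {H : Type u} [Group H] {R t : ℕ} (hz : Zas.{u} R t) {p : ℕ}
    (hp : p.Prime) {W : Type u} [AddCommGroup W] [Finite W] (he : ∀ x : W, p • x = 0)
    (hb : Nat.card W ≤ p ^ R) (T : H → W →+ W) (hT1 : ∀ x, T 1 x = x)
    (hT2 : ∀ a b x, T (a * b) x = T a (T b x)) (hH : Group.IsSolvable H) :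
    ∀ h ∈ derivedSeries H t, ∀ x, T h x = x := by
  haveI : _root_.Fact p.Prime := ⟨hp⟩
  letI : Module (ZMod p) W := AddCommGroup.zmodModule (n := p) he
  haveI : Module.Finite (ZMod p) W := Module.Finite.of_finite
  let ψ : H →* Module.End (ZMod p) W :=
    { toFun := fun h => AddMonoidHom.toZModLinearMap p (T h)
      map_one' := by
        refine LinearMap.ext fun x => ?_
        exact hT1 x
      map_mul' := by
        intro a b
        refine LinearMap.ext fun x => ?_
        exact hT2 a b x }
  let b := Module.finBasis (ZMod p) W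
  let ρ : H →* GL (Fin (Module.finrank (ZMod p) W)) (ZMod p) :=
    MonoidHom.toHomUnits (((LinearMap.toMatrixAlgEquiv b :
      Module.End (ZMod p) W ≃ₐ[ZMod p] _) : _ →* _).comp ψ)
  have hcard : Nat.card W = p ^ Module.finrank (ZMod p) W := by
    have := Module.natCard_eq_pow_finrank (K := ZMod p) (V := W)
    rw [this, Nat.card_zmod]
  have hle : Module.finrank (ZMod p) W ≤ R := by
    have h1 : p ^ Module.finrank (ZMod p) W ≤ p ^ R := by
      rw [← hcard]
      exact hb
    exact (Nat.pow_le_pow_iff_right hp.one_lt).1 h1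
  intro h hh x
  have h1 := hz _ hle (ZMod p) H ρ hH h hh
  have h2 : (LinearMap.toMatrixAlgEquiv b) (ψ h) = 1 := by
    have := congrArg Units.val h1
    exact this
  have h3 : ψ h = 1 := by
    apply (LinearMap.toMatrixAlgEquiv b).injective
    rw [h2, map_one]
  exact LinearMap.congr_fun h3 x

/-- `H` acting on a finite elementary abelian group of order at most `p ^ R` -/
private theorem n1_lin {H : Type u} [Group H] {R t : ℕ} (hz : Zas.{u} R t) {p : ℕ}
    (hp : p.Prime) {Q : Type u} [CommGroup Q] [Finite Q] (he : ∀ x : Q, x ^ p = 1)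
    (hb : Nat.card Q ≤ p ^ R) (φ : H →* Monoid.End Q) (hH : Group.IsSolvable H) :
    ∀ h ∈ derivedSeries H t, φ h = 1 := by
  haveI : Finite (Additive Q) := ‹Finite Q›
  intro h hh
  have key := n1_vec hz hp (W := Additive Q) (fun x => he x.toMul) hb
    (fun h => AddMonoidHom.mk' (fun x : Additive Q => Additive.ofMul (φ h (Additive.toMul x)))
      (fun x y => congrArg Additive.ofMul (map_mul (φ h) (Additive.toMul x) (Additive.toMul y))))
    (fun x => congrArg Additive.ofMul (DFunLike.congr_fun (map_one φ) (Additive.toMul x)))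
    (fun a b x => congrArg Additive.ofMul (DFunLike.congr_fun (map_mul φ a b) (Additive.toMul x)))
    hH h hh
  ext x
  exact congrArg Additive.toMul (key (Additive.ofMul x))

/-- the action by conjugation on a section -/
private def n1Act {X : Type u} [Group X] (L M : Subgroup X) [L.Normal] [M.Normal] :
    X →* Monoid.End (M ⧸ L.subgroupOf M) where
  toFun g := QuotientGroup.map (L.subgroupOf M) (L.subgroupOf M)
    (MulAut.conjNormal g : M ≃* M).toMonoidHom (by
      intro x hx
      rw [mem_comap, mem_subgroupOf]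
      have := ‹L.Normal›.conj_mem (x : X) (mem_subgroupOf.1 hx) g
      exact this)
  map_one' := by
    apply MonoidHom.ext
    intro x
    induction x using QuotientGroup.induction_on with
    | H x =>
      rw [QuotientGroup.map_mk]
      change (QuotientGroup.mk ((MulAut.conjNormal (1 : X) : M ≃* M) x) :
        M ⧸ L.subgroupOf M) = QuotientGroup.mk x
      rw [map_one]
      rfl
  map_mul' := by
    intro a b
    apply MonoidHom.ext
    intro x
    induction x using QuotientGroup.induction_on with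
    | H x =>
      rw [QuotientGroup.map_mk]
      change (QuotientGroup.mk ((MulAut.conjNormal (a * b) : M ≃* M) x) :
        M ⧸ L.subgroupOf M) = QuotientGroup.mk ((MulAut.conjNormal a : M ≃* M)
          ((MulAut.conjNormal b : M ≃* M) x))
      rw [map_mul]
      rfl

theorem sec_cent {X : Type u} [Group X] {R t : ℕ} (hz : Zas.{u} R t) {p : ℕ} (hp : p.Prime)
    (L M : Subgroup X) [L.Normal] [M.Normal] (hLM : L ≤ M) (hfin : L.relIndex M ≠ 0)
    (hc : ∀ x ∈ M, ∀ y ∈ M, ⁅x, y⁆ ∈ L) (he : ∀ x ∈ M, x ^ p ∈ L) (hb : L.relIndex M ≤ p ^ R)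
    (H : Subgroup X) (hH : Group.IsSolvable H) : ∀ g ∈ DS H t, ∀ x ∈ M, ⁅g, x⁆ ∈ L := by
  intro g hg x hx
  haveI hfi : (L.subgroupOf M).FiniteIndex := ⟨hfin⟩
  haveI : Finite (M ⧸ L.subgroupOf M) := inferInstance
  letI : CommGroup (M ⧸ L.subgroupOf M) :=
    { (inferInstance : Group (M ⧸ L.subgroupOf M)) with
      mul_comm := by
        intro a b
        induction a using QuotientGroup.induction_on with
        | H a =>
          induction b using QuotientGroup.induction_on with
          | H b =>
            rw [← QuotientGroup.mk_mul, ← QuotientGroup.mk_mul]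
            apply QuotientGroup.eq.2
            rw [mem_subgroupOf]
            have h1 := hc (b : X)⁻¹ (M.inv_mem b.2) (a : X)⁻¹ (M.inv_mem a.2)
            have h2 : (((a * b)⁻¹ * (b * a) : M) : X) = ⁅(b : X)⁻¹, (a : X)⁻¹⁆ := by
              rw [commutatorElement_def]
              push_cast
              group
            rw [h2]
            exact h1 }
  rw [z1_DS] at hg
  obtain ⟨h, hh, rfl⟩ := hg
  have key := n1_lin hz hp (Q := M ⧸ L.subgroupOf M) (by
      intro a
      induction a using QuotientGroup.induction_on with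
      | H a =>
        rw [← QuotientGroup.mk_pow, QuotientGroup.eq_one_iff, mem_subgroupOf]
        exact he a a.2) (by
      have : Nat.card (M ⧸ L.subgroupOf M) = L.relIndex M := rfl
      rw [this]
      exact hb) ((n1Act L M).comp H.subtype) hH h hh
  have h1 := DFunLike.congr_fun key (QuotientGroup.mk (⟨x, hx⟩ : M))
  have h2 : (QuotientGroup.mk ((MulAut.conjNormal (h : X) : M ≃* M) ⟨x, hx⟩) :
      M ⧸ L.subgroupOf M) = QuotientGroup.mk (⟨x, hx⟩ : M) := h1
  have h3 := QuotientGroup.eq.1 h2
  rw [mem_subgroupOf] at h3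
  have h4 : ((((MulAut.conjNormal (h : X) : M ≃* M) ⟨x, hx⟩)⁻¹ * ⟨x, hx⟩ : M) : X)
      = ((h : X) * x * (h : X)⁻¹)⁻¹ * x := rfl
  rw [h4] at h3
  have h5 := L.inv_mem h3
  have h6 := ‹L.Normal›.conj_mem _ h5 x
  have h7 : x * (((h : X) * x * (h : X)⁻¹)⁻¹ * x)⁻¹ * x⁻¹ = ⁅(H.subtype h : X), x⁆ := by
    rw [commutatorElement_def]
    change _ = (h : X) * x * (h : X)⁻¹ * x⁻¹
    group
  rw [← h7]
  exact h6

private theorem n1_nil (n : ℕ) : ∀ (Q : Type u) [Group Q] [Finite Q], Nat.card Q = n →
    Group.IsSolvable Q → ∀ (D : Subgroup Q),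
    (∀ p : ℕ, p.Prime → ∀ L M : Subgroup Q, L.Normal → M.Normal → L ≤ M →
      (∀ x ∈ M, ∀ y ∈ M, ⁅x, y⁆ ∈ L) → (∀ x ∈ M, x ^ p ∈ L) → ∀ g ∈ D, ∀ x ∈ M, ⁅g, x⁆ ∈ L) →
    Group.IsNilpotent D := by
  induction n using Nat.strong_induction_on with
  | _ n ih =>
  intro Q _ _ hn hs D hD
  by_cases htr : Subsingleton Q
  · haveI : Subsingleton D := inferInstance
    exact Group.isNilpotent_of_subsingleton
  -- a nontrivial abelian normal subgroup
  have hA : ∃ A : Subgroup Q, A.Normal ∧ A ≠ ⊥ ∧ ∀ x ∈ A, ∀ y ∈ A, x * y = y * x := by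
    classical
    have hex : ∃ k, derivedSeries Q k = ⊥ := (Group.isSolvable_def Q).1 hs
    have hk := Nat.find_spec hex
    have hk0 : Nat.find hex ≠ 0 := by
      intro h0
      rw [h0, derivedSeries_zero] at hk
      apply htr
      exact Subgroup.subsingleton_iff.1 (subsingleton_of_bot_eq_top hk.symm)
    obtain ⟨k, hk1⟩ := Nat.exists_eq_succ_of_ne_zero hk0
    have hlt : k < Nat.find hex := by omega
    refine ⟨derivedSeries Q k, derivedSeries_normal Q k, Nat.find_min hex hlt, ?_⟩
    intro x hx y hy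
    have h1 : ⁅x, y⁆ ∈ derivedSeries Q (k + 1) := by
      rw [derivedSeries_succ]
      exact commutator_mem_commutator hx hy
    have h2 : derivedSeries Q (k + 1) = ⊥ := by
      rw [← Nat.succ_eq_add_one, ← hk1]
      exact hk
    rw [h2, mem_bot, commutatorElement_eq_one_iff_mul_comm] at h1
    exact h1
  obtain ⟨A, hAn, hA1, hAc⟩ := hA
  haveI := hAn
  -- a prime dividing the order
  have hcA : Nat.card A ≠ 1 := by
    intro h
    exact hA1 (Subgroup.card_eq_one.1 h)
  obtain ⟨p, hp, hpd⟩ := Nat.exists_prime_and_dvd hcA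
  haveI : Fact p.Prime := ⟨hp⟩
  let V : Subgroup Q :=
    { carrier := {x | x ∈ A ∧ x ^ p = 1}
      mul_mem' := by
        rintro a b ⟨ha, ha1⟩ ⟨hb, hb1⟩
        refine ⟨A.mul_mem ha hb, ?_⟩
        rw [(show Commute a b from hAc a ha b hb).mul_pow, ha1, hb1, one_mul]
      one_mem' := ⟨A.one_mem, one_pow _⟩
      inv_mem' := by
        rintro a ⟨ha, ha1⟩
        exact ⟨A.inv_mem ha, by rw [inv_pow, ha1, inv_one]⟩ }
  have hVm : ∀ x, x ∈ V ↔ x ∈ A ∧ x ^ p = 1 := fun x => Iff.rfl
  haveI hVn : V.Normal := by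
    constructor
    intro x hx g
    rw [hVm] at hx ⊢
    refine ⟨hAn.conj_mem x hx.1 g, ?_⟩
    rw [conj_pow, hx.2]
    group
  have hV1 : V ≠ ⊥ := by
    obtain ⟨a, ha⟩ := exists_prime_orderOf_dvd_card' (G := A) p hpd
    intro hV
    have h1 : (a : Q) ∈ V := by
      rw [hVm]
      refine ⟨a.2, ?_⟩
      have := pow_orderOf_eq_one a
      rw [ha] at this
      exact_mod_cast congrArg Subtype.val this
    rw [hV, mem_bot] at h1
    have h2 : a = 1 := Subtype.ext h1
    rw [h2, orderOf_one] at ha
    exact hp.one_lt.ne ha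
  have hVD : ∀ g ∈ D, ∀ x ∈ V, ⁅g, x⁆ ∈ (⊥ : Subgroup Q) := by
    apply hD p hp ⊥ V inferInstance hVn bot_le
    · intro x hx y hy
      rw [mem_bot, commutatorElement_eq_one_iff_mul_comm]
      exact hAc x hx.1 y hy.1
    · intro x hx
      rw [mem_bot]
      exact hx.2
  -- the quotient
  have hlt : Nat.card (Q ⧸ V) < n := by
    have h1 : Nat.card Q = Nat.card (Q ⧸ V) * Nat.card V := card_eq_card_quotient_mul_card_subgroup V
    have h2 : 1 < Nat.card V := by
      have h3 : Nat.card V ≠ 1 := fun h => hV1 (Subgroup.card_eq_one.1 h)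
      have h4 : 0 < Nat.card V := Nat.card_pos
      omega
    have h5 : 0 < Nat.card (Q ⧸ V) := Nat.card_pos
    rw [← hn, h1]
    nlinarith
  have hsQ : Group.IsSolvable (Q ⧸ V) := by
    haveI := hs
    exact inferInstance
  have hq := ih _ hlt (Q ⧸ V) rfl hsQ (D.map (QuotientGroup.mk' V)) (by
    intro q hq L M hL hM hLM hc he g hg x hx
    obtain ⟨g, hg, rfl⟩ := hg
    obtain ⟨x, rfl⟩ := QuotientGroup.mk'_surjective V x
    have := hD q hq (L.comap (QuotientGroup.mk' V)) (M.comap (QuotientGroup.mk' V))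
      (hL.comap _) (hM.comap _) (comap_mono hLM) (by
        intro x hx y hy
        rw [mem_comap, map_commutatorElement]
        exact hc _ hx _ hy) (by
        intro x hx
        rw [mem_comap, map_pow]
        exact he _ hx) g hg x hx
    rw [mem_comap, map_commutatorElement] at this
    exact this)
  -- the extension
  refine @Subgroup.isNilpotent_of_ker_le_center D _ _ _ ((QuotientGroup.mk' V).subgroupMap D) ?_
    hq
  intro d hd
  rw [MonoidHom.mem_ker] at hd
  have h1 : ((d : D) : Q) ∈ V := by
    have := congrArg Subtype.val hd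
    change (QuotientGroup.mk' V) (d : Q) = 1 at this
    exact (QuotientGroup.eq_one_iff _).1 this
  rw [mem_center_iff]
  intro g
  apply Subtype.ext
  have := hVD g g.2 d h1
  rw [mem_bot, commutatorElement_eq_one_iff_mul_comm] at this
  exact this

theorem nil_of_central {Q : Type u} [Group Q] [Finite Q] (hs : Group.IsSolvable Q)
    (D : Subgroup Q)
    (hD : ∀ p : ℕ, p.Prime → ∀ L M : Subgroup Q, L.Normal → M.Normal → L ≤ M →
      (∀ x ∈ M, ∀ y ∈ M, ⁅x, y⁆ ∈ L) → (∀ x ∈ M, x ^ p ∈ L) → ∀ g ∈ D, ∀ x ∈ M, ⁅g, x⁆ ∈ L) :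
    Group.IsNilpotent D :=
  n1_nil (Nat.card Q) Q rfl hs D hD

theorem fin_nil {X : Type u} [Group X] {R t : ℕ} (hz : Zas.{u} R t) (hX : SecB X R)
    (hsol : FinSol X) (J : Subgroup X) [J.Normal] (hJ : J.FiniteIndex) :
    Group.IsNilpotent (derivedSeries (X ⧸ J) t) := by
  haveI := hJ
  haveI : Finite (X ⧸ J) := inferInstance
  have hs : Group.IsSolvable (X ⧸ J) := hsol J hJ
  refine nil_of_central hs _ ?_
  intro p hp L M hL hM hLM hc he g hg x hx
  haveI := hL
  haveI := hM
  have hsT : Group.IsSolvable (⊤ : Subgroup (X ⧸ J)) := by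
    haveI := hs
    exact inferInstance
  have hrel : L.relIndex M ≠ 0 := by
    rw [relIndex]
    exact index_ne_zero_of_finite
  have hsurj : Function.Surjective (QuotientGroup.mk' J) := QuotientGroup.mk'_surjective J
  have hrc : (L.comap (QuotientGroup.mk' J)).relIndex (M.comap (QuotientGroup.mk' J))
      = L.relIndex M := by
    rw [relIndex_comap, map_comap_eq_self_of_surjective hsurj]
  refine sec_cent hz hp L M hLM hrel hc he ?_ ⊤ hsT g ?_ x hx
  · rw [← hrc]
    refine hX p hp _ _ (hL.comap _) (hM.comap _) (comap_mono hLM) (by rw [hrc]; exact hrel) ?_ ?_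
    · intro x hx y hy
      rw [mem_comap, map_commutatorElement]
      exact hc _ hx _ hy
    · intro x hx
      rw [mem_comap, map_pow]
      exact he _ hx
  · rw [z1_DS_top]
    exact hg

end H36.PQ
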