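import Pool.Agent.H36.PQ.Z5
import Pool.Agent.H36.PQ.N1
import Pool.Agent.H36.PQ.C1
import Pool.Agent.H36.PQ.H2
import Pool.Agent.H36.PQ.F2
import Pool.Agent.H36.PQ.A2
import Pool.Agent.H36.PQ.R3

/-!
# Module A3: a residually finite just-non-AP group without virtual maps onto `ℤ` of bounded rank
has a non-soluble finite quotient

`a3_rep`: `X` a group with `SecB X R`, `Zas R t`, `P` a finite normal `p`-subgroup of `X`, `n ≥ t`,
`DS P (n + R + 2) ≠ ⊥`. Then there are `s ≤ R`, `d` and `φ : X →* GL (Fin s) (ZMod (p^d))` with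
`φ g ≠ 1` for some `g ∈ DS P n`.
Proof. Take `C`, `D` from `crit`. `C/D` is a finite normal elementary abelian section, so of order at
most `p^R`, and `DS P t` centralises it by `sec_cent` (with `H = P`, soluble as a `p`-group); so does
`DS P (n + R)`. By `crit_ds` `DS P (n + R)` does not centralise `D`. `(PowS D p).relIndex D ≤ p^R` by
`SecB` (`PowS D p` is normal in `X`, `h2_PowS_normal`). Use `homo` with `K = P`, `s = R`.

`a3_main`: Assembly. Suppose `X`: `Group.FG X`, `RF X`, `X ⧸ N` almost polycyclic for all normal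
`N ≠ ⊥`, `N₀` an infinite finitely generated normal subgroup with `NoVZ N₀`, `SecB X R`, `FinSol X`.
Contradiction. Let `Zas R t`, `K = DS N₀ t`: normal in `X`, finitely generated, infinite (finite index
in `N₀`), `NoVZ K`, `k^e ∈ ⁅K,K⁆`. For `J` normal of finite index the image of `K` in `X ⧸ J` is
contained in `DS ⊤ t = derivedSeries (X ⧸ J) t`, nilpotent by `fin_nil`. Let `p` be as in `a2_res`. For
every `n`: `DS K (n + t + R + 2)` has finite index in `K` (`a1_fab`), so it contains `x ≠ 1`; take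
`L ∌ x` from `a2_res`; in `X ⧸ L` the image `P` of `K` is a finite normal `p`-subgroup and
`DS P (n + t + R + 2)` contains the image of `x`, so it is not trivial; `SecB (X ⧸ L) R` by
`secB_quotient`. `a3_rep` gives `φ` on `X ⧸ L`; compose with `X →* X ⧸ L`: some element of
`DS K (n + t) ≤ DS K n` has `φ g ≠ 1`. Now `f2_final` for `K` (`DS K t` and its exponent from `a1_fab`
for `N₀`: `DS K t = DS N₀ (t + t)`) gives `False`.
-/

set_option autoImplicit false

universe u

namespace H36.PQ

open Subgroup H36.PP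
open scoped commutatorElement

theorem a3_rep {X : Type u} [Group X] {R t : ℕ} (hX : SecB X R) (hz : Zas.{u} R t) {p : ℕ}
    (hp : p.Prime) (P : Subgroup X) [P.Normal] (hfin : Finite P) (hP : IsPGroup p P) {n : ℕ}
    (hn : t ≤ n) (hne : DS P (n + R + 2) ≠ ⊥) :
    ∃ s ≤ R, ∃ (d : ℕ) (φ : X →* GL (Fin s) (ZMod (p ^ d))), ∃ g ∈ DS P n, φ g ≠ 1 := by
  have : Fact p.Prime := ⟨hp⟩
  obtain ⟨C, D, hCn, hDn, hDC, hCP, hDab, hCD, hCp, hcent⟩ := crit hp P hfin hP
  have hfC : Finite C := Finite.of_injective (Subgroup.inclusion hCP) (Subgroup.inclusion_injective hCP)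
  have hfD : Finite D := Finite.of_injective (Subgroup.inclusion hDC) (Subgroup.inclusion_injective hDC)
  have hsolP : Group.IsSolvable P := by
    have := hP.isNilpotent
    infer_instance
  have hfinC : D.relIndex C ≠ 0 := by
    have : Finite (C ⧸ D.subgroupOf C) := inferInstance
    exact Subgroup.FiniteIndex.index_ne_zero
  have hb : D.relIndex C ≤ p ^ R := hX p hp D C hDn hCn hDC hfinC hCD hCp
  have h2 : ∀ g ∈ DS P (n + R), ∀ x ∈ C, ⁅g, x⁆ ∈ D := fun g hg =>
    sec_cent hz hp D C hDC hfinC hCD hCp hb P hsolP g (z1_DS_anti P (by omega) hg)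
  have hnotc : ¬ (∀ g ∈ DS P (n + R), ∀ x ∈ D, g * x = x * g) := fun h1 =>
    hne (crit_ds P C D hDab hcent (n + R) h1 h2)
  have hPD : IsPGroup p D := hP.of_injective (Subgroup.inclusion (hDC.trans hCP))
    (Subgroup.inclusion_injective _)
  have hfP : (PowS D p).relIndex D ≠ 0 := Subgroup.FiniteIndex.index_ne_zero
  have hPow : (PowS D p).relIndex D ≤ p ^ R := by
    refine hX p hp (PowS D p) D (h2_PowS_normal D p) hDn (h2_PowS_le D p) hfP ?_ ?_
    · intro x hx y hy
      rw [commutatorElement_eq_one_iff_mul_comm.2 (hDab x hx y hy)]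
      exact one_mem _
    · intro x hx
      exact subset_closure ⟨x, hx, rfl⟩
  exact homo hp R D hDn hfD hDab hPD hPow P n hnotc

theorem a3_main {X : Type u} [Group X] (hfg : Group.FG X) (hrf : RF X)
    (hq : ∀ (N : Subgroup X) [N.Normal], N ≠ ⊥ → AP (X ⧸ N)) (N₀ : Subgroup X) [N₀.Normal]
    (hinf : Infinite N₀) (hN : N₀.FG) (hno : NoVZ N₀) {R : ℕ} (hR : SecB X R)
    (hsol : FinSol X) : False := by
  obtain ⟨t, hz⟩ := zassenhaus.{u} R
  -- the subgroup K
  let K : Subgroup X := DS N₀ t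
  have hKn : K.Normal := z1_DS_normal N₀ t
  have hKN : K ≤ N₀ := z1_DS_anti N₀ (Nat.zero_le t)
  obtain ⟨hKfg, hKfi, e, he, hKe⟩ := a1_fab N₀ hN hno t
  have hKno : NoVZ K := a1_sub hKN hKfi hno
  have hinfd : ∀ n, Infinite (DS N₀ n) := by
    intro n
    obtain ⟨-, h, -⟩ := a1_fab N₀ hN hno n
    have h' : ((DS N₀ n).subgroupOf N₀).FiniteIndex := ⟨h⟩
    by_contra hf
    rw [not_infinite_iff_finite] at hf
    have hle : DS N₀ n ≤ N₀ := z1_DS_anti N₀ (Nat.zero_le n)
    have hf' : Finite ((DS N₀ n).subgroupOf N₀) :=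
      Finite.of_injective (fun x => (⟨x.1.1, x.2⟩ : DS N₀ n)) (by
        intro x y hxy
        apply Subtype.ext
        apply Subtype.ext
        have h2 : ((⟨x.1.1, x.2⟩ : DS N₀ n) : X) = ((⟨y.1.1, y.2⟩ : DS N₀ n) : X) :=
          congrArg Subtype.val hxy
        exact h2)
    have : Finite N₀ := by
      have h1 : Finite (N₀ ⧸ (DS N₀ n).subgroupOf N₀) := inferInstance
      exact Finite.of_equiv _ (Subgroup.groupEquivQuotientProdSubgroup
        (s := (DS N₀ n).subgroupOf N₀)).symm
    exact not_finite N₀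
  have hnil : ∀ (J : Subgroup X) [J.Normal], J.FiniteIndex →
      Group.IsNilpotent (K.map (QuotientGroup.mk' J)) := by
    intro J hJ hJfi
    have h1 := fin_nil hz hR hsol J hJfi
    have hle : K.map (QuotientGroup.mk' J) ≤ derivedSeries (X ⧸ J) t := by
      rw [z1_DS_map, ← z1_DS_top]
      exact z1_DS_mono le_top t
    have h3 : Group.IsNilpotent ((K.map (QuotientGroup.mk' J)).subgroupOf
      (derivedSeries (X ⧸ J) t)) := inferInstance
    exact Group.nilpotent_of_mulEquiv (Subgroup.subgroupOfEquivOfLe hle)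
  obtain ⟨p, hp, hres⟩ := a2_res hrf K (hinfd t) hKno hq hnil he hKe
  have hfact : Fact p.Prime := ⟨hp⟩
  obtain ⟨hfg2, -, e₂, he₂, hKe₂⟩ := a1_fab N₀ hN hno (t + t)
  have hadd : DS K t = DS N₀ (t + t) := (z1_DS_add N₀ t t).symm
  have hadd' : DS K (t + 1) = DS N₀ (t + t + 1) := by
    change DS (DS N₀ t) (t + 1) = _
    rw [← z1_DS_add, add_assoc]
  refine f2_final hfg hsol hz hp K (hadd ▸ hfg2) he₂ (by rw [hadd, hadd']; exact hKe₂) ?_
  intro n
  -- a deep element
  have hne : ∃ x ∈ DS K (n + t + R + 2), x ≠ 1 := by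
    by_contra hcon
    push Not at hcon
    have hinf2 := hinfd (t + (n + t + R + 2))
    rw [z1_DS_add] at hinf2
    have : Subsingleton (DS K (n + t + R + 2)) := ⟨fun x y => Subtype.ext (by
      rw [hcon x.1 x.2, hcon y.1 y.2])⟩
    have hf : Finite (DS (DS N₀ t) (n + t + R + 2)) := @Finite.of_subsingleton _ this
    exact not_finite (DS (DS N₀ t) (n + t + R + 2))
  obtain ⟨x, hx, hx1⟩ := hne
  obtain ⟨L, hLn, hLK, hLfi, hLp, hxL⟩ := hres x (z1_DS_anti K (Nat.zero_le _) hx) hx1
  let π : X →* X ⧸ L := QuotientGroup.mk' L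
  let P : Subgroup (X ⧸ L) := K.map π
  have hPn : P.Normal := hKn.map π (QuotientGroup.mk'_surjective L)
  have hPfin : Finite P := by
    have h1 : (L.subgroupOf K).FiniteIndex := ⟨hLfi⟩
    have h2 : Finite (K ⧸ L.subgroupOf K) := inferInstance
    let f : K →* P := π.subgroupMap K
    have hf : Function.Surjective f := π.subgroupMap_surjective K
    have hker : L.subgroupOf K ≤ f.ker := by
      intro y hy
      rw [MonoidHom.mem_ker]
      apply Subtype.ext
      exact (QuotientGroup.eq_one_iff (y : X)).2 hy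
    have := QuotientGroup.lift_surjective_of_surjective (L.subgroupOf K) f hf hker
    exact Finite.of_surjective _ this
  have hPp : IsPGroup p P := by
    rintro ⟨y, k, hk, rfl⟩
    obtain ⟨m, hm⟩ := hLp k hk
    refine ⟨m, ?_⟩
    apply Subtype.ext
    change π k ^ p ^ m = 1
    rw [← map_pow]
    exact (QuotientGroup.eq_one_iff _).2 hm
  have hneP : DS P (n + t + R + 2) ≠ ⊥ := by
    intro h
    have h1 : π x ∈ DS P (n + t + R + 2) := by
      rw [← z1_DS_map]
      exact mem_map_of_mem π hx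
    rw [h, mem_bot] at h1
    exact hxL ((QuotientGroup.eq_one_iff x).1 h1)
  obtain ⟨s, hs, d, φ, g, hg, hφg⟩ :=
    a3_rep (secB_quotient hR L) hz hp P hPfin hPp (n := n + t) (by omega) hneP
  rw [← z1_DS_map] at hg
  obtain ⟨g', hg', rfl⟩ := hg
  exact ⟨s, hs, d, φ.comp π, g', z1_DS_anti K (by omega) hg', hφg⟩

end H36.PQ
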