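import Pool.Agent.H36.PQ.Z1

/-!
# Module A1: groups without virtual maps onto `ℤ`

`NoVZ N`: every homomorphism from a subgroup of finite index of `N` to `ℤ` is trivial.

`a1_fab`: `N` a finitely generated subgroup of `X` with `NoVZ N`: for every `n`: `DS N n` is finitely
generated, of finite index in `N`, and `k^e ∈ DS N (n+1)` for all `k ∈ DS N n`, for some `e > 0`.
(Induction: `M = DS N n` is finitely generated as a subgroup of finite index; `M/⁅M,M⁆` is a finitely
generated abelian group without a nontrivial map to `ℤ`, so it is finite.)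

`a1_sub`: `NoVZ` passes to subgroups of finite index (`NoVZ` for `DS N n` as a type).

`a1_ap`: `N` a subgroup of `X` with `NoVZ N`, `f : X →* Y` with `AP Y`... : the image of `N` in an
almost polycyclic group is finite. (The image `f N` is almost polycyclic; if it is infinite take
`A` from `exists_char_free_abelian`, an infinite free abelian characteristic subgroup; almost
polycyclic groups are residually finite..., simpler: an infinite almost polycyclic group has a
subgroup of finite index with a nontrivial map to `ℤ`: a soluble subgroup `S` of finite index,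
finitely generated, infinite; the last term `S_i` of its derived series which has finite index in
`S`; then `S_i/⁅S_i,S_i⁆` is an infinite finitely generated abelian group. Pull back to `N`.)
-/

set_option autoImplicit false

universe u

namespace H36.PQ

open Subgroup H36.PP

/-- no subgroup of finite index has a nontrivial homomorphism to the integers -/
def NoVZ (N : Type*) [Group N] : Prop :=
  ∀ K : Subgroup N, K.FiniteIndex → ∀ f : K →* Multiplicative ℤ, f = 1


private theorem a1_fin {G : Type*} [CommGroup G] (hG : Group.FG G)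
    (h : ∀ f : G →* Multiplicative ℤ, f = 1) : Finite G := by
  obtain ⟨ι, j, hι, hj, p, hp, e, ⟨E⟩⟩ := CommGroup.equiv_free_prod_prod_multiplicative_zmod G
  have hemp : IsEmpty j := by
    refine ⟨fun i => ?_⟩
    have h1 := h (((Pi.evalMonoidHom (fun _ : j => Multiplicative ℤ) i).comp
      (MonoidHom.fst _ _)).comp E.toMonoidHom)
    have h2 := DFunLike.congr_fun h1 (E.symm (fun _ => Multiplicative.ofAdd 1, 1))
    simp at h2
  have hfin : ∀ i, Finite (Multiplicative (ZMod (p i ^ e i))) := by
    intro i
    have : NeZero (p i ^ e i) := ⟨pow_ne_zero _ (hp i).ne_zero⟩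
    exact inferInstanceAs (Finite (ZMod (p i ^ e i)))
  have : Finite ((j → Multiplicative ℤ) × ((i : ι) → Multiplicative (ZMod (p i ^ e i)))) :=
    inferInstance
  exact Finite.of_equiv _ E.toEquiv.symm

private theorem a1_abfin {M : Type*} [Group M] (hM : Group.FG M)
    (h : ∀ f : M →* Multiplicative ℤ, f = 1) : Finite (Abelianization M) := by
  have h1 : Group.FG (Abelianization M) := by
    exact Group.fg_of_surjective (f := Abelianization.of) (QuotientGroup.mk'_surjective _)
  refine a1_fin h1 fun f => ?_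
  have h2 := h (f.comp Abelianization.of)
  ext x
  have h3 := DFunLike.congr_fun h2 x
  exact h3

private theorem a1_sub' {X : Type*} [Group X] {M N : Subgroup X} (hMN : M ≤ N)
    (hfi : M.relIndex N ≠ 0) (hno : NoVZ N) : NoVZ M := by
  intro K hK f
  let K' : Subgroup N := (K.map M.subtype).subgroupOf N
  have hKN : K.map M.subtype ≤ N := (map_subtype_le K).trans hMN
  have hK' : K'.FiniteIndex := by
    refine ⟨?_⟩
    change (K.map M.subtype).relIndex N ≠ 0
    rw [← relIndex_mul_relIndex _ _ _ (map_subtype_le K) hMN]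
    refine mul_ne_zero ?_ hfi
    rw [relIndex, subgroupOf, comap_map_eq_self_of_injective M.subtype_injective]
    exact hK.index_ne_zero
  let e1 : K ≃* (K.map M.subtype) := K.equivMapOfInjective M.subtype M.subtype_injective
  let e2 : K' ≃* (K.map M.subtype) := subgroupOfEquivOfLe hKN
  have h1 := hno K' hK' (f.comp (e2.trans e1.symm).toMonoidHom)
  ext x
  have h2 := DFunLike.congr_fun h1 ((e2.trans e1.symm).symm x)
  simpa using h2

private theorem a1_step {X : Type*} [Group X] (M : Subgroup X) (hM : M.FG) (hno : NoVZ M) :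
    (⁅M, M⁆ : Subgroup X).FG ∧ (⁅M, M⁆ : Subgroup X).relIndex M ≠ 0 ∧
      ∃ e : ℕ, 0 < e ∧ ∀ k ∈ M, k ^ e ∈ (⁅M, M⁆ : Subgroup X) := by
  have hM' : Group.FG M := (Group.fg_iff_subgroup_fg M).2 hM
  have htriv : ∀ f : M →* Multiplicative ℤ, f = 1 := by
    intro f
    have h1 := hno ⊤ inferInstance (f.comp (⊤ : Subgroup M).subtype)
    ext x
    have h2 := DFunLike.congr_fun h1 ⟨x, mem_top x⟩
    simpa using h2
  have hfin := a1_abfin hM' htriv
  have hmap : (⁅M, M⁆ : Subgroup X) = (commutator M).map M.subtype := by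
    rw [commutator_def, map_commutator, ← MonoidHom.range_eq_map, Subgroup.range_subtype]
  have hfi : (commutator M).FiniteIndex := by
    refine ⟨?_⟩
    change Nat.card (Abelianization M) ≠ 0
    exact Nat.card_pos.ne'
  have hfgc : Group.FG (commutator M) := fg_of_index_ne_zero _
  refine ⟨?_, ?_, Nat.card (Abelianization M), Nat.card_pos, ?_⟩
  · rw [hmap]
    exact APB_fg_map M.subtype _ ((Group.fg_iff_subgroup_fg _).1 hfgc)
  · rw [hmap, relIndex, subgroupOf, comap_map_eq_self_of_injective M.subtype_injective]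
    exact hfi.index_ne_zero
  · intro k hk
    rw [hmap]
    refine ⟨(⟨k, hk⟩ : M) ^ Nat.card (Abelianization M), ?_, rfl⟩
    rw [SetLike.mem_coe, ← Abelianization.ker_of, MonoidHom.mem_ker, map_pow]
    exact pow_card_eq_one'

theorem a1_fab {X : Type u} [Group X] (N : Subgroup X) (hN : N.FG) (hno : NoVZ N) (n : ℕ) :
    (DS N n).FG ∧ (DS N n).relIndex N ≠ 0 ∧
      ∃ e : ℕ, 0 < e ∧ ∀ k ∈ DS N n, k ^ e ∈ DS N (n + 1) := by
  have key : ∀ n, (DS N n).FG ∧ (DS N n).relIndex N ≠ 0 := by
    intro n
    induction n with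
    | zero =>
      refine ⟨hN, ?_⟩
      change N.relIndex N ≠ 0
      rw [relIndex_self]
      exact one_ne_zero
    | succ n ih =>
      have hle : DS N (n + 1) ≤ DS N n := z1_DS_anti N (Nat.le_succ n)
      have h1 := a1_step (DS N n) ih.1 (a1_sub' (z1_DS_anti N (Nat.zero_le n)) ih.2 hno)
      refine ⟨h1.1, ?_⟩
      have hN0 : DS N n ≤ N := z1_DS_anti N (Nat.zero_le n)
      rw [← relIndex_mul_relIndex _ _ _ hle hN0]
      exact mul_ne_zero h1.2.1 ih.2
  have ih := key n
  have h1 := a1_step (DS N n) ih.1 (a1_sub' (z1_DS_anti N (Nat.zero_le n)) ih.2 hno)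
  exact ⟨ih.1, ih.2, h1.2.2⟩

theorem a1_sub {X : Type u} [Group X] {M N : Subgroup X} (hMN : M ≤ N) (hfi : M.relIndex N ≠ 0)
    (hno : NoVZ N) : NoVZ M :=
  a1_sub' hMN hfi hno

theorem a1_virtZ {Y : Type*} [Group Y] (hY : AP Y) (hi : Infinite Y) :
    ∃ K : Subgroup Y, K.FiniteIndex ∧ ∃ f : K →* Multiplicative ℤ, f ≠ 1 := by
  by_contra hcon
  have hno : NoVZ Y := by
    intro K hK f
    by_contra hf
    exact hcon ⟨K, hK, f, hf⟩
  obtain ⟨hmax, S, hS, hsol⟩ := hY
  have hnoT : NoVZ (⊤ : Subgroup Y) := by
    intro K hK f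
    let K' : Subgroup Y := K.map (⊤ : Subgroup Y).subtype
    have hK' : K'.FiniteIndex := by
      refine ⟨?_⟩
      rw [← relIndex_top_right, relIndex, subgroupOf,
        comap_map_eq_self_of_injective (⊤ : Subgroup Y).subtype_injective]
      exact hK.index_ne_zero
    let e1 : K ≃* K' := K.equivMapOfInjective _ (⊤ : Subgroup Y).subtype_injective
    have h1 := hno K' hK' (f.comp e1.symm.toMonoidHom)
    ext x
    have h2 := DFunLike.congr_fun h1 (e1 x)
    simpa using h2
  have hSrel : S.relIndex ⊤ ≠ 0 := by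
    rw [relIndex_top_right]
    exact hS.index_ne_zero
  have hnoS : NoVZ S := a1_sub le_top hSrel hnoT
  obtain ⟨n, hn⟩ := (Group.isSolvable_def S).1 hsol
  have h1 := (a1_fab S (hmax S) hnoS n).2.1
  rw [z1_DS, hn, Subgroup.map_bot] at h1
  have h2 : (⊥ : Subgroup Y).relIndex ⊤ ≠ 0 := by
    rw [← relIndex_mul_relIndex _ _ _ bot_le (le_top : S ≤ ⊤)]
    exact mul_ne_zero h1 hSrel
  rw [relIndex_top_right, index_bot] at h2
  exact h2 (Nat.card_eq_zero_of_infinite)

theorem a1_ap {X : Type u} [Group X] (N L : Subgroup X) [L.Normal] (hno : NoVZ N)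
    (hL : AP (X ⧸ L)) (hLN : L ≤ N) : L.relIndex N ≠ 0 := by
  have _hLN' := hLN
  intro h0
  have h1 : Nat.card (N.map (QuotientGroup.mk' L)) = 0 := by
    rw [← relIndex_ker, QuotientGroup.ker_mk']
    exact h0
  have hap : AP (N.map (QuotientGroup.mk' L)) := hL.subgroup _
  have hinf : Infinite (N.map (QuotientGroup.mk' L)) := by
    by_contra hfin
    rw [not_infinite_iff_finite] at hfin
    exact Nat.card_pos.ne' h1
  obtain ⟨K, hK, f, hf⟩ := a1_virtZ hap hinf
  let g : N →* N.map (QuotientGroup.mk' L) := (QuotientGroup.mk' L).subgroupMap N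
  have hg : Function.Surjective g := (QuotientGroup.mk' L).subgroupMap_surjective N
  have hK' : (K.comap g).FiniteIndex := by
    refine ⟨?_⟩
    rw [index_comap_of_surjective _ hg]
    exact hK.index_ne_zero
  have h2 := hno (K.comap g) hK' (f.comp (g.subgroupComap K))
  apply hf
  ext x
  obtain ⟨y, hy⟩ := hg (x : N.map (QuotientGroup.mk' L))
  have hyK : y ∈ K.comap g := by
    rw [mem_comap, hy]
    exact x.2
  have h3 := DFunLike.congr_fun h2 ⟨y, hyK⟩
  have h4 : g.subgroupComap K ⟨y, hyK⟩ = x := Subtype.ext hy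
  rw [MonoidHom.comp_apply, h4] at h3
  exact congrArg _ h3

end H36.PQ
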