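import Pool.Agent.H36.PP.ThmD

/-!
# Products of nilpotent groups (MP_e8b852_al), second part: definitions

`DS K n`      the n-th derived subgroup of a subgroup `K`, inside the ambient group
`Zas s t`     `t` bounds the derived length of soluble linear groups of degree at most `s`
`IsScal T`    the endomorphism `T` is a scalar
`Zc s t`      the same over algebraically closed fields, for representations
`FinSol X`    all finite quotients of `X` are soluble
`CongOne q M` the matrix `M` is congruent to 1 modulo `q`
`BG A h`      `A` is a product of `h` cyclic groups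
`SecB X R`    finite normal elementary abelian sections of `X` have rank at most `R`
`PowS D m`    the subgroup generated by the `m`-th powers of the elements of `D`
-/

set_option autoImplicit false

universe u v

namespace H36.PQ

open Subgroup H36.PP
open scoped commutatorElement

/-- the derived series of a subgroup, inside the ambient group -/
def DS {G : Type*} [Group G] (K : Subgroup G) : ℕ → Subgroup G
  | 0 => K
  | n + 1 => ⁅DS K n, DS K n⁆

/-- a scalar endomorphism -/
def IsScal {F : Type*} [Field F] {V : Type*} [AddCommGroup V] [Module F V] (T : V →ₗ[F] V) :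
    Prop := ∃ c : F, T = c • (1 : V →ₗ[F] V)

/-- over algebraically closed fields: `t` bounds the derived length of soluble linear groups of
degree at most `s` -/
def Zc (s t : ℕ) : Prop :=
  ∀ (F : Type) [Field F] [IsAlgClosed F] (V : Type) [AddCommGroup V] [Module F V]
    [FiniteDimensional F V] (H : Type u) [Group H] (ρ : H →* (V →ₗ[F] V)),
    Module.finrank F V ≤ s → Group.IsSolvable H → ∀ h ∈ derivedSeries H t, ρ h = 1

/-- `t` bounds the derived length of soluble linear groups of degree at most `s` -/
def Zas (s t : ℕ) : Prop :=
  ∀ s' ≤ s, ∀ (F : Type) [Field F] (H : Type u) [Group H] (ρ : H →* GL (Fin s') F),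
    Group.IsSolvable H → ∀ h ∈ derivedSeries H t, ρ h = 1

/-- all finite quotients of `X` are soluble -/
def FinSol (X : Type*) [Group X] : Prop :=
  ∀ (J : Subgroup X) [J.Normal], J.FiniteIndex → Group.IsSolvable (X ⧸ J)

/-- the matrix `M` is congruent to 1 modulo `q` -/
def CongOne {R : Type*} [CommRing R] {s : ℕ} (q : R) (M : Matrix (Fin s) (Fin s) R) : Prop :=
  ∃ N : Matrix (Fin s) (Fin s) R, M = 1 + q • N

/-- a product of `h` cyclic groups -/
def BG (A : Type*) [Group A] (h : ℕ) : Prop :=
  ∃ a : Fin h → A, ∀ x : A, ∃ k : Fin h → ℤ, x = (List.ofFn fun i => a i ^ k i).prod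

/-- finite normal elementary abelian sections of `X` have rank at most `R` -/
def SecB (X : Type*) [Group X] (R : ℕ) : Prop :=
  ∀ p : ℕ, p.Prime → ∀ L M : Subgroup X, L.Normal → M.Normal → L ≤ M → L.relIndex M ≠ 0 →
    (∀ x ∈ M, ∀ y ∈ M, ⁅x, y⁆ ∈ L) → (∀ x ∈ M, x ^ p ∈ L) → L.relIndex M ≤ p ^ R

/-- the subgroup generated by the `m`-th powers -/
def PowS {G : Type*} [Group G] (D : Subgroup G) (m : ℕ) : Subgroup G :=
  closure {y | ∃ x ∈ D, y = x ^ m}

end H36.PQ
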