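import Pool.Agent.H36.PQ.A3

/-!
# Module E: the theorem

`thmE`: `G = A B` locally graded, `A` nilpotent and almost polycyclic, `B` almost polycyclic, and
every finite group which is a factorised section of `G` is soluble. Then `G` is almost polycyclic.
(`thmD` gives `X`; `FinSol X` by `isSec_closed`; `rank_bound`; `fg_of_fact`; `a3_main`.)
-/

set_option autoImplicit false

universe u

namespace H36.PQ

open Subgroup H36.PP

/-- all finite factorised sections of `G = A B` are soluble -/
def SolSec {G : Type u} [Group G] (A B : Subgroup G) : Prop :=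
  ∀ (X : Type u) [Group X] [Finite X] (A' B' : Subgroup X), IsSec A B X A' B' → Fact A' B' →
    Group.IsSolvable X

theorem thmE {G : Type u} [Group G] (A B : Subgroup G) (hf : Fact A B)
    (hn : Group.IsNilpotent A) (hA : AP A) (hB : AP B) (hS : SolSec A B) (hLG : LG G) :
    AP G := by
  by_contra hG
  obtain ⟨X, hX, A', B', hsec, hf', hn', hA', hB', hrf, hnap, hN, N, hNn, hNi, hNfg, hNq, hNz⟩ :=
    thmD A B hf hn hA hB hLG hG
  obtain ⟨R, hR⟩ := rank_bound A' B' hf' hn' hA' hB'
  have hfg : Group.FG X := fg_of_fact hf' (max_fg hA'.1) (max_fg hB'.1)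
  have hsol : FinSol X := by
    intro J hJ hJfi
    have hfin : Finite (X ⧸ J) := inferInstance
    refine hS (X ⧸ J) (A'.map (QuotientGroup.mk' J)) (B'.map (QuotientGroup.mk' J))
      ((isSec_closed A B).quo X A' B' hsec J) ?_
    intro x
    obtain ⟨g, rfl⟩ := QuotientGroup.mk'_surjective J x
    obtain ⟨a, ha, b, hb, rfl⟩ := hf' g
    exact ⟨_, mem_map_of_mem _ ha, _, mem_map_of_mem _ hb, map_mul _ a b⟩
  exact a3_main hfg hrf (fun M hM h => (hN M h).2) N hNi hNfg hNz hR hsol

end H36.PQ
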