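import Mathlib

/-!
# Module L1: finitely generated commutative rings

1. The residue fields of a finitely generated commutative ring are finite. (`R ⧸ m` is a field and
   a finitely generated ring, `ℤ` is a Jacobson ring, so `R ⧸ m` is a finite `ℤ`-module
   (`finite_of_finite_type_of_isJacobsonRing`); a field which is finitely generated as an abelian
   group has positive characteristic (otherwise `ℚ` would be finitely generated), so it is finite.)
2. In a finitely generated domain the intersection of the maximal ideals is zero (Jacobson ring).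
-/

set_option autoImplicit false

namespace H36.PQ

private theorem L1_int : IsJacobsonRing ℤ := by
  rw [isJacobsonRing_iff_prime_eq]
  intro P hP
  by_cases h : P = ⊥
  · subst h
    rw [eq_bot_iff]
    intro x hx
    rw [Ideal.mem_jacobson_bot] at hx
    have h1 := hx x
    rw [Int.isUnit_iff] at h1
    have h2 : x * x = 0 := by
      rcases h1 with h1 | h1
      · linarith
      · nlinarith [mul_self_nonneg x]
    simpa using h2
  · haveI := hP.isMaximal h
    exact Ideal.jacobson_eq_self_of_isMaximal

theorem l1_finite {R : Type} [CommRing R] [Algebra.FiniteType ℤ R] (m : Ideal R) [m.IsMaximal] :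
    Finite (R ⧸ m) := by
  letI : Field (R ⧸ m) := Ideal.Quotient.field m
  haveI := L1_int
  haveI hft : Algebra.FiniteType ℤ (R ⧸ m) := inferInstance
  haveI : Module.Finite ℤ (R ⧸ m) := finite_of_finite_type_of_isJacobsonRing ℤ (R ⧸ m)
  haveI : Algebra.IsIntegral ℤ (R ⧸ m) := inferInstance
  have hni : ¬ Function.Injective (algebraMap ℤ (R ⧸ m)) := by
    intro hinj
    exact Int.not_isField (isField_of_isIntegral_of_isField hinj (Field.toIsField (R ⧸ m)))
  have hex : ∃ n : ℤ, n ≠ 0 ∧ (algebraMap ℤ (R ⧸ m)) n = 0 := by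
    rw [injective_iff_map_eq_zero] at hni
    push Not at hni
    obtain ⟨n, h1, h2⟩ := hni
    exact ⟨n, h2, h1⟩
  obtain ⟨n, hn, hn0⟩ := hex
  apply Module.finite_of_fg_torsion
  intro x
  refine ⟨⟨n, mem_nonZeroDivisors_of_ne_zero hn⟩, ?_⟩
  change n • x = 0
  rw [zsmul_eq_mul]
  have h3 : ((n : ℤ) : R ⧸ m) = 0 := by simpa using hn0
  rw [h3, zero_mul]

theorem l1_exists {R : Type} [CommRing R] [IsDomain R] [Algebra.FiniteType ℤ R] {r : R}
    (hr : r ≠ 0) : ∃ m : Ideal R, m.IsMaximal ∧ r ∉ m := by
  haveI := L1_int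
  haveI : IsJacobsonRing R := isJacobsonRing_of_finiteType (A := ℤ)
  have h1 := Ideal.radical_eq_jacobson (⊥ : Ideal R)
  by_contra hcon
  push Not at hcon
  have h2 : r ∈ (⊥ : Ideal R).jacobson := by
    rw [Ideal.jacobson, Ideal.mem_sInf]
    rintro J ⟨-, hJ⟩
    exact hcon J hJ
  rw [← h1, Ideal.radical_bot_of_noZeroDivisors] at h2
  exact hr (by simpa using h2)

end H36.PQ
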