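import Pool.Agent.H36.PQ.Z1
import Pool.Agent.H36.PQ.L1

/-!
# Module L2: finitely generated linear groups all of whose finite quotients are soluble

`l2_finite`: if `φ : X →* Q` is a homomorphism to a finite group, `FinSol X`, and
`ρ : Q →* GL (Fin s') F`... we need: for `x ∈ derivedSeries X t`, a field `F` and a homomorphism
`ρ : X →* GL (Fin s') F` with FINITE range, `ρ x = 1`. (`X ⧸ ρ.ker` is finite, so soluble; `ρ`
factors through it; apply `Zas`.)

`lin_sol`: `X` finitely generated, `FinSol X`, `R` a domain, `φ : X →* GL (Fin s') R`, `s' ≤ s`.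
Then `φ x = 1` for `x ∈ derivedSeries X t`. Proof: let `S` be a finite generating set, `R₀` the
subring of `R` generated by the entries of `φ g`, `φ g⁻¹`, `g ∈ S` (`Algebra.adjoin ℤ`), a finitely
generated domain; all `φ y` have entries in `R₀`, so `φ` factors through `GL (Fin s') R₀`. For a
maximal ideal `m` of `R₀` the group `GL (Fin s') (R₀ ⧸ m)` is finite by `l1_finite`, so by
`l2_finite` the entries of `φ x - 1` are in `m`. By `l1_exists` they are zero.
-/

set_option autoImplicit false

universe u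

namespace H36.PQ

open Subgroup H36.PP

theorem l2_finite {X : Type u} [Group X] (hsol : FinSol X) {s t : ℕ} (hz : Zas.{u} s t) {s' : ℕ}
    (hs' : s' ≤ s) {F : Type} [Field F] (ρ : X →* GL (Fin s') F) (hfin : Finite ρ.range) :
    ∀ x ∈ derivedSeries X t, ρ x = 1 := by
  intro x hx
  have hfi : ρ.ker.FiniteIndex := Subgroup.finiteIndex_ker ρ
  have hs := hsol ρ.ker hfi
  have h := hz s' hs' F (X ⧸ ρ.ker) (QuotientGroup.kerLift ρ) hs (QuotientGroup.mk' ρ.ker x)
    (map_derivedSeries_le_derivedSeries (QuotientGroup.mk' ρ.ker) t (mem_map_of_mem _ hx))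
  simpa using h

/-- the representation has entries in the subring `R₀` -/
private theorem L2_entries {X : Type u} [Group X] {S : Set X} (hS : closure S = ⊤) {s' : ℕ}
    {R : Type} [CommRing R] (φ : X →* GL (Fin s') R) (R₀ : Subalgebra ℤ R)
    (h1 : ∀ g ∈ S, ∀ i j, (φ g).val i j ∈ R₀) (h2 : ∀ g ∈ S, ∀ i j, (φ g⁻¹).val i j ∈ R₀)
    (y : X) : ∀ i j, (φ y).val i j ∈ R₀ := by
  have hy : y ∈ closure S := by rw [hS]; exact mem_top y
  have key : (∀ i j, (φ y).val i j ∈ R₀) ∧ (∀ i j, (φ y⁻¹).val i j ∈ R₀) := by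
    induction hy using closure_induction with
    | mem g hg => exact ⟨h1 g hg, h2 g hg⟩
    | one =>
      have : ∀ i j, (φ (1 : X)).val i j ∈ R₀ := by
        intro i j
        rw [map_one, Units.val_one, Matrix.one_apply]
        split_ifs
        · exact R₀.one_mem
        · exact R₀.zero_mem
      refine ⟨this, ?_⟩
      rw [inv_one]
      exact this
    | mul a b _ _ iha ihb =>
      refine ⟨?_, ?_⟩
      · intro i j
        rw [map_mul, Units.val_mul, Matrix.mul_apply]
        exact R₀.sum_mem fun k _ => R₀.mul_mem (iha.1 i k) (ihb.1 k j)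
      · intro i j
        rw [mul_inv_rev, map_mul, Units.val_mul, Matrix.mul_apply]
        exact R₀.sum_mem fun k _ => R₀.mul_mem (ihb.2 i k) (iha.2 k j)
    | inv a _ iha =>
      rw [inv_inv]
      exact ⟨iha.2, iha.1⟩
  exact key.1

theorem lin_sol {X : Type u} [Group X] (hX : Group.FG X) (hsol : FinSol X) {s t : ℕ}
    (hz : Zas.{u} s t) {s' : ℕ} (hs' : s' ≤ s) {R : Type} [CommRing R] [IsDomain R]
    (φ : X →* GL (Fin s') R) : ∀ x ∈ derivedSeries X t, φ x = 1 := by
  intro x hx
  obtain ⟨S, hS⟩ := hX.out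
  -- the ring of entries
  set T : Set R := (⋃ g ∈ (S : Set X), Set.range fun p : Fin s' × Fin s' => (φ g).val p.1 p.2) ∪
    (⋃ g ∈ (S : Set X), Set.range fun p : Fin s' × Fin s' => (φ g⁻¹).val p.1 p.2) with hT
  have hTfin : T.Finite := by
    refine Set.Finite.union ?_ ?_
    · exact S.finite_toSet.biUnion fun g _ => Set.finite_range _
    · exact S.finite_toSet.biUnion fun g _ => Set.finite_range _
  set R₀ : Subalgebra ℤ R := Algebra.adjoin ℤ T with hR₀
  have hft : Algebra.FiniteType ℤ R₀ :=
    (Subalgebra.fg_iff_finiteType R₀).1 (Subalgebra.fg_def.2 ⟨T, hTfin, rfl⟩)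
  have h1 : ∀ g ∈ (S : Set X), ∀ i j, (φ g).val i j ∈ R₀ := fun g hg i j =>
    Algebra.subset_adjoin (Or.inl (Set.mem_biUnion hg ⟨(i, j), rfl⟩))
  have h2 : ∀ g ∈ (S : Set X), ∀ i j, (φ g⁻¹).val i j ∈ R₀ := fun g hg i j =>
    Algebra.subset_adjoin (Or.inr (Set.mem_biUnion hg ⟨(i, j), rfl⟩))
  have hent := L2_entries hS φ R₀ h1 h2
  -- the matrices over `R₀`
  let M : X → Matrix (Fin s') (Fin s') R₀ := fun y => Matrix.of fun i j => ⟨(φ y).val i j, hent y i j⟩
  have hM : ∀ y, (M y).map (algebraMap R₀ R) = (φ y).val := by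
    intro y
    ext i j
    rfl
  have hinj : Function.Injective fun A : Matrix (Fin s') (Fin s') R₀ => A.map (algebraMap R₀ R) :=
    Matrix.map_injective Subtype.val_injective
  let ψ : X →* Matrix (Fin s') (Fin s') R₀ :=
    { toFun := M
      map_one' := by
        apply hinj
        change (M 1).map (algebraMap R₀ R) = (1 : Matrix (Fin s') (Fin s') R₀).map (algebraMap R₀ R)
        rw [hM, map_one, Units.val_one, Matrix.map_one _ (map_zero _) (map_one _)]
      map_mul' := by
        intro a b
        apply hinj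
        change (M (a * b)).map (algebraMap R₀ R) = (M a * M b).map (algebraMap R₀ R)
        rw [Matrix.map_mul, hM, hM, hM, map_mul, Units.val_mul] }
  -- the claim modulo every maximal ideal
  have hmod : ∀ m : Ideal R₀, m.IsMaximal → ∀ i j, (M x - 1) i j ∈ m := by
    intro m hm i j
    let _ : Field (R₀ ⧸ m) := Ideal.Quotient.field m
    have hfin : Finite (R₀ ⧸ m) := l1_finite m
    let ρ : X →* GL (Fin s') (R₀ ⧸ m) :=
      (Matrix.GeneralLinearGroup.map (Ideal.Quotient.mk m)).comp ψ.toHomUnits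
    have hρ : ρ x = 1 := l2_finite hsol hz hs' ρ inferInstance x hx
    have h3 : (ρ x).val i j = Ideal.Quotient.mk m (M x i j) := rfl
    rw [hρ] at h3
    rw [Matrix.sub_apply, ← Ideal.Quotient.eq, ← h3]
    rw [Units.val_one, Matrix.one_apply, Matrix.one_apply]
    split_ifs
    · exact (map_one _).symm
    · exact (map_zero _).symm
  have hMx : M x = 1 := by
    ext i j
    by_contra hne
    have hne' : (M x - 1) i j ≠ 0 := by
      intro h
      rw [Matrix.sub_apply, sub_eq_zero] at h
      exact hne (congrArg Subtype.val h)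
    obtain ⟨m, hm, hnot⟩ := l1_exists hne'
    exact hnot (hmod m hm i j)
  apply Units.ext
  rw [← hM x, hMx, Matrix.map_one _ (map_zero _) (map_one _), Units.val_one]

end H36.PQ
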