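import Pool.Agent.H36.PQ.Z1
import Pool.Agent.H36.PQ.L2

/-!
# Module F1: congruence subgroups of `GL_s(ZMod (p^d))`

Notation: `φ : X →* GL (Fin s) (ZMod (p^d))`, `mat g` the matrix of `φ g`, `CongOne (p^j) (mat g)`:
`φ g ≡ 1` modulo `p^j`. (`CongOne 1` always holds; `CongOne (p^d)` means `φ g = 1`.)

* `f1_comm`: if all elements of a subgroup `K` are `≡ 1` modulo `p^j` (`j ≥ 1`), then all elements of
  `⁅K, K⁆` are `≡ 1` modulo `p^(j+1)`, even modulo `p^(2j)`: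
  `(1 + p^j a)(1 + p^j b) - (1 + p^j b)(1 + p^j a) = p^(2j) (a b - b a)`, and the set of `g : X` with
  `φ g ≡ 1` modulo a given `q` is a subgroup (the kernel of reduction).
* `f1_deep`: so if all `g ∈ DS K t` are `≡ 1` modulo `p`, then all `g ∈ DS K (t + i)` are `≡ 1` modulo
  `p^(i+1)`.
* `f1_exp`: all `g ∈ K` are `≡ 1` modulo `p^j`, `2 j ≤ d`, `j + 1 ≤ d`, some `g ∈ K` is not `≡ 1`
  modulo `p^(j+1)`, and `g ^ e ∈ ⁅K, K⁆` for all `g ∈ K`, `0 < e`. Then `p^j ≤ e`. Proof: write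
  `φ g = 1 + p^j a`. Then `φ (g^e) ≡ 1 + e p^j a` modulo `p^(2j)`, and elements of `⁅K, K⁆` are `≡ 1`
  modulo `p^(2j)`. So `p^(2j)` divides `e p^j a` in `ZMod (p^d)`, `2 j ≤ d`, so `p^j` divides `e a`
  (lift the entries to integers), while some entry of `a` is not divisible by `p` (as `j + 1 ≤ d`
  and `φ g` is not `≡ 1` modulo `p^(j+1)`). So `p^j` divides `e`.
* `f1_zero`: `FinSol X`, `Zas R t`, `s ≤ R`, `1 ≤ d`: all `g ∈ DS K t` are `≡ 1` modulo `p`: compose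
  `φ` with the reduction to `GL (Fin s) (ZMod p)` (a finite group) and use `l2_finite`
  (`ZMod.castHom (dvd_pow_self p _) (ZMod p)`); `DS K t ≤ DS ⊤ t = derivedSeries X t`.
-/

set_option autoImplicit false

universe u

namespace H36.PQ

open Subgroup H36.PP
open scoped commutatorElement

/-- the matrix of an element -/
abbrev mat {X : Type u} [Group X] {s q : ℕ} (φ : X →* GL (Fin s) (ZMod q)) (g : X) :
    Matrix (Fin s) (Fin s) (ZMod q) := ((φ g : GL (Fin s) (ZMod q)) : Matrix _ _ _)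

private theorem mat_mul {X : Type u} [Group X] {s q : ℕ} (φ : X →* GL (Fin s) (ZMod q))
    (x y : X) : mat φ (x * y) = mat φ x * mat φ y := by
  simp [mat]

private theorem mat_one {X : Type u} [Group X] {s q : ℕ} (φ : X →* GL (Fin s) (ZMod q)) :
    mat φ 1 = 1 := by
  simp [mat]

private theorem mat_pow {X : Type u} [Group X] {s q : ℕ} (φ : X →* GL (Fin s) (ZMod q))
    (x : X) (n : ℕ) : mat φ (x ^ n) = mat φ x ^ n := by
  simp [mat]

/-- congruence to 1 is weaker for divisors -/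
private theorem cong_of_mul {R : Type*} [CommRing R] {s : ℕ} {q r : R}
    {M : Matrix (Fin s) (Fin s) R} (h : CongOne (q * r) M) : CongOne q M := by
  obtain ⟨N, hN⟩ := h
  exact ⟨r • N, by rw [hN, smul_smul]⟩

/-- the congruence subgroup -/
private def f1Sub {X : Type u} [Group X] {s q : ℕ} (φ : X →* GL (Fin s) (ZMod q))
    (a : ZMod q) : Subgroup X where
  carrier := {g | CongOne a (mat φ g)}
  mul_mem' := by
    rintro x y ⟨A, hA⟩ ⟨B, hB⟩
    refine ⟨A + B + a • (A * B), ?_⟩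
    rw [mat_mul, hA, hB]
    simp only [add_mul, mul_add, one_mul, mul_one, smul_add, smul_mul_assoc, mul_smul_comm]
    abel
  one_mem' := by
    refine ⟨0, ?_⟩
    rw [mat_one]
    simp
  inv_mem' := by
    rintro x ⟨A, hA⟩
    have h1 : mat φ x⁻¹ * mat φ x = 1 := by
      rw [← mat_mul, inv_mul_cancel, mat_one]
    rw [hA, mul_add, mul_one, mul_smul_comm] at h1
    refine ⟨-(mat φ x⁻¹ * A), ?_⟩
    rw [smul_neg, ← sub_eq_add_neg]
    exact eq_sub_of_add_eq h1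

private theorem mem_f1Sub {X : Type u} [Group X] {s q : ℕ} (φ : X →* GL (Fin s) (ZMod q))
    (a : ZMod q) (g : X) : g ∈ f1Sub φ a ↔ CongOne a (mat φ g) := Iff.rfl

theorem f1_comm {X : Type u} [Group X] {s q : ℕ} (φ : X →* GL (Fin s) (ZMod q)) (K : Subgroup X)
    (a : ZMod q) (h : ∀ g ∈ K, CongOne a (mat φ g)) :
    ∀ g ∈ ⁅K, K⁆, CongOne (a * a) (mat φ g) := by
  suffices hle : ⁅K, K⁆ ≤ f1Sub φ (a * a) from fun g hg => hle hg
  rw [Subgroup.commutator_le]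
  intro x hx y hy
  obtain ⟨A, hA⟩ := h x hx
  obtain ⟨B, hB⟩ := h y hy
  rw [mem_f1Sub]
  refine ⟨(A * B - B * A) * mat φ (y * x)⁻¹, ?_⟩
  have h1 : mat φ (x * y) = mat φ (y * x) + (a * a) • (A * B - B * A) := by
    rw [mat_mul, mat_mul, hA, hB]
    simp only [add_mul, mul_add, one_mul, mul_one, smul_sub, smul_add, smul_mul_assoc,
      mul_smul_comm]
    rw [← smul_smul a a (A * B), ← smul_smul a a (B * A)]
    abel
  have h2 : mat φ (y * x) * mat φ (y * x)⁻¹ = 1 := by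
    rw [← mat_mul, mul_inv_cancel, mat_one]
  have h3 : ⁅x, y⁆ = (x * y) * (y * x)⁻¹ := by
    rw [commutatorElement_def]
    group
  rw [h3, mat_mul, h1, add_mul, h2, smul_mul_assoc]

theorem f1_deep {X : Type u} [Group X] {s p d : ℕ} (φ : X →* GL (Fin s) (ZMod (p ^ d)))
    (K : Subgroup X) (t : ℕ) (h : ∀ g ∈ DS K t, CongOne (p : ZMod (p ^ d)) (mat φ g)) (i : ℕ) :
    ∀ g ∈ DS K (t + i), CongOne ((p : ZMod (p ^ d)) ^ (i + 1)) (mat φ g) := by
  induction i with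
  | zero =>
    intro g hg
    rw [zero_add, pow_one]
    exact h g hg
  | succ i ih =>
    intro g hg
    have h1 := f1_comm φ (DS K (t + i)) _ ih g hg
    refine cong_of_mul (r := (p : ZMod (p ^ d)) ^ i) ?_
    have h2 : (p : ZMod (p ^ d)) ^ (i + 1 + 1) * (p : ZMod (p ^ d)) ^ i =
        (p : ZMod (p ^ d)) ^ (i + 1) * (p : ZMod (p ^ d)) ^ (i + 1) := by
      rw [← pow_add, ← pow_add]
      congr 1
      omega
    rw [h2]
    exact h1

private theorem f1_pow {R : Type*} [CommRing R] {s : ℕ} (q : R) (A : Matrix (Fin s) (Fin s) R)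
    (e : ℕ) : ∃ N : Matrix (Fin s) (Fin s) R,
      (1 + q • A) ^ e = 1 + q • (e • A) + (q * q) • N := by
  induction e with
  | zero => exact ⟨0, by simp⟩
  | succ e ih =>
    obtain ⟨N, hN⟩ := ih
    refine ⟨(e • A) * A + N + q • (N * A), ?_⟩
    rw [pow_succ, hN]
    simp only [add_mul, mul_add, one_mul, mul_one, smul_add, smul_mul_assoc, mul_smul_comm,
      smul_smul, add_smul, one_smul, mul_assoc]
    abel

private theorem f1_dvd {p d : ℕ} (hp : p.Prime) (x : ZMod (p ^ d)) (hx : p ∣ x.val) :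
    ∃ y : ZMod (p ^ d), x = (p : ZMod (p ^ d)) * y := by
  have : NeZero (p ^ d) := ⟨pow_ne_zero _ hp.ne_zero⟩
  obtain ⟨k, hk⟩ := hx
  refine ⟨(k : ZMod (p ^ d)), ?_⟩
  rw [← Nat.cast_mul, ← hk, ZMod.natCast_zmod_val]

private theorem f1_arith {p d j e : ℕ} (hp : p.Prime) (hjd : 2 * j ≤ d) (he : 0 < e)
    (x y : ZMod (p ^ d)) (hx : ¬ p ∣ x.val)
    (h : (p : ZMod (p ^ d)) ^ j * ((e : ZMod (p ^ d)) * x) =
      ((p : ZMod (p ^ d)) ^ j * (p : ZMod (p ^ d)) ^ j) * y) : p ^ j ≤ e := by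
  have : NeZero (p ^ d) := ⟨pow_ne_zero _ hp.ne_zero⟩
  have h1 : ((p ^ j * (e * x.val) : ℕ) : ZMod (p ^ d)) = ((p ^ j * p ^ j * y.val : ℕ) :
      ZMod (p ^ d)) := by
    rw [Nat.cast_mul, Nat.cast_mul, Nat.cast_mul, Nat.cast_mul, Nat.cast_pow,
      ZMod.natCast_zmod_val, ZMod.natCast_zmod_val]
    exact h
  have h2 : p ^ j * (e * x.val) ≡ p ^ j * p ^ j * y.val [MOD p ^ d] :=
    (ZMod.natCast_eq_natCast_iff _ _ _).mp h1
  have h3 : p ^ (2 * j) ∣ p ^ d := pow_dvd_pow _ hjd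
  have h4 : p ^ j * (e * x.val) ≡ p ^ j * p ^ j * y.val [MOD p ^ (2 * j)] := h2.of_dvd h3
  have h5 : p ^ (2 * j) = p ^ j * p ^ j := by rw [two_mul, pow_add]
  rw [h5] at h4
  have h6 : p ^ j * p ^ j ∣ p ^ j * (e * x.val) := by
    have h7 : p ^ j * p ^ j * y.val ≡ 0 [MOD p ^ j * p ^ j] :=
      (Nat.modEq_zero_iff_dvd).mpr (dvd_mul_right _ _)
    exact (Nat.modEq_zero_iff_dvd).mp (h4.trans h7)
  have h8 : p ^ j ∣ e * x.val := Nat.dvd_of_mul_dvd_mul_left (pow_pos hp.pos j) h6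
  have h9 : Nat.Coprime (p ^ j) x.val :=
    Nat.Coprime.pow_left j ((Nat.Prime.coprime_iff_not_dvd hp).mpr hx)
  exact Nat.le_of_dvd he (h9.dvd_of_dvd_mul_right h8)

theorem f1_exp {X : Type u} [Group X] {s p d j e : ℕ} (hp : p.Prime)
    (φ : X →* GL (Fin s) (ZMod (p ^ d))) (K : Subgroup X) (hjd : 2 * j ≤ d) (hj1 : j + 1 ≤ d)
    (h : ∀ g ∈ K, CongOne ((p : ZMod (p ^ d)) ^ j) (mat φ g))
    (hn : ∃ g ∈ K, ¬ CongOne ((p : ZMod (p ^ d)) ^ (j + 1)) (mat φ g)) (he : 0 < e)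
    (hK : ∀ g ∈ K, g ^ e ∈ ⁅K, K⁆) : p ^ j ≤ e := by
  obtain ⟨g, hg, hng⟩ := hn
  obtain ⟨A, hA⟩ := h g hg
  obtain ⟨N, hN⟩ := f1_comm φ K _ h (g ^ e) (hK g hg)
  rw [mat_pow, hA] at hN
  obtain ⟨N2, hN2⟩ := f1_pow ((p : ZMod (p ^ d)) ^ j) A e
  rw [hN2, add_assoc] at hN
  have h1 := add_left_cancel hN
  -- some entry of A is not divisible by p
  have h2 : ∃ i k, ¬ p ∣ (A i k).val := by
    by_contra hcon
    push Not at hcon
    choose Y hY using fun i k => f1_dvd hp (A i k) (hcon i k)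
    apply hng
    refine ⟨Matrix.of Y, ?_⟩
    rw [hA]
    congr 1
    ext i k
    rw [Matrix.smul_apply, Matrix.smul_apply, Matrix.of_apply, hY i k, smul_eq_mul, smul_eq_mul,
      pow_succ, mul_assoc]
  obtain ⟨i, k, hik⟩ := h2
  refine f1_arith hp hjd he (A i k) (N i k - N2 i k) hik ?_
  have h3 := congrFun (congrFun h1 i) k
  simp only [Matrix.add_apply, Matrix.smul_apply, smul_eq_mul] at h3
  rw [nsmul_eq_mul] at h3
  rw [mul_sub, ← h3]
  ring

theorem f1_zero {X : Type u} [Group X] (hsol : FinSol X) {R t s : ℕ} (hz : Zas.{u} R t)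
    (hs : s ≤ R) {p d : ℕ} (hp : p.Prime) (hd : 1 ≤ d) (φ : X →* GL (Fin s) (ZMod (p ^ d)))
    (K : Subgroup X) : ∀ g ∈ DS K t, CongOne (p : ZMod (p ^ d)) (mat φ g) := by
  intro g hg
  have : _root_.Fact p.Prime := ⟨hp⟩
  have : NeZero (p ^ d) := ⟨pow_ne_zero _ hp.ne_zero⟩
  let c : ZMod (p ^ d) →+* ZMod p := ZMod.castHom (dvd_pow_self p (by omega)) (ZMod p)
  let ρ : X →* GL (Fin s) (ZMod p) := (Matrix.GeneralLinearGroup.map c).comp φ
  have hfin : Finite ρ.range := inferInstance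
  have hg' : g ∈ derivedSeries X t := by
    rw [← z1_DS_top]
    exact z1_DS_mono le_top t hg
  have h1 := l2_finite hsol hz hs ρ hfin g hg'
  have h2 : ∀ i k, ∃ y : ZMod (p ^ d), mat φ g i k - (1 : Matrix (Fin s) (Fin s) (ZMod (p ^ d))) i k
      = (p : ZMod (p ^ d)) * y := by
    intro i k
    apply f1_dvd hp
    have h3 : c (mat φ g i k) = (1 : Matrix (Fin s) (Fin s) (ZMod p)) i k := by
      have h4 := congrArg (fun M : GL (Fin s) (ZMod p) => (M : Matrix _ _ (ZMod p)) i k) h1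
      simpa [ρ] using h4
    have h5 : c (mat φ g i k - (1 : Matrix (Fin s) (Fin s) (ZMod (p ^ d))) i k) = 0 := by
      rw [map_sub, h3, Matrix.one_apply, Matrix.one_apply]
      split <;> simp
    have h6 : (((mat φ g i k - (1 : Matrix (Fin s) (Fin s) (ZMod (p ^ d))) i k).val : ℕ) :
        ZMod p) = 0 := by
      rw [← h5]
      change _ = ZMod.cast _
      rw [ZMod.natCast_val]
    exact (ZMod.natCast_eq_zero_iff _ _).mp h6
  choose Y hY using h2
  refine ⟨Matrix.of Y, ?_⟩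
  ext i k
  rw [Matrix.add_apply, Matrix.smul_apply, Matrix.of_apply, smul_eq_mul, ← hY i k]
  ring

end H36.PQ
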