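import Pool.Agent.H36.PP.APB

/-!
# Module NilMax: finitely generated nilpotent groups satisfy the maximal condition
-/

set_option autoImplicit false

namespace H36.PQ

open Subgroup H36.PP
open scoped commutatorElement

variable {G : Type*} [Group G]

private abbrev L (G : Type*) [Group G] (i : ℕ) : Subgroup G :=
  (⊤ : Subgroup G).lowerCentralSeries i

private theorem mkc (i : ℕ) {x : G} (hx : x ∈ L G i) (g h : G) :
    (QuotientGroup.mk' (L G (i + 2))) (g * ⁅x, h⁆ * g⁻¹) =
      (QuotientGroup.mk' (L G (i + 2))) ⁅x, h⁆ := by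
  have h1 : ⁅x, h⁆ ∈ L G (i + 1) := by
    exact commutator_mem_commutator hx (mem_top h)
  have h2 : ⁅⁅x, h⁆, g⁆ ∈ L G (i + 2) := by
    exact commutator_mem_commutator h1 (mem_top g)
  rw [QuotientGroup.mk'_apply, QuotientGroup.mk'_apply, QuotientGroup.eq]
  have h3 := (inferInstance : (L G (i + 2)).Normal).conj_mem _ h2 (⁅x, h⁆)⁻¹
  convert h3 using 1
  rw [commutatorElement_def ⁅x, h⁆ g]
  group

private theorem gen_succ (S : Set G) (hS : closure S = ⊤) (i : ℕ) (T : Set G)
    (hT : T ⊆ L G i) (hg : L G i ≤ closure T ⊔ L G (i + 1)) :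
    L G (i + 1) ≤ closure (Set.image2 (fun t s : G => ⁅t, s⁆) T S) ⊔ L G (i + 2) := by
  set q := QuotientGroup.mk' (L G (i + 2)) with hq
  set K := (closure (Set.image2 (fun t s : G => ⁅t, s⁆) T S)).map q with hK
  have hmul1 : ∀ x ∈ L G i, ∀ g h : G, q ⁅x, g * h⁆ = q ⁅x, g⁆ * q ⁅x, h⁆ := by
    intro x hx g h
    rw [← mkc i hx g h, ← map_mul]
    congr 1
    simp only [commutatorElement_def]
    group
  have hmul2 : ∀ x ∈ L G i, ∀ y ∈ L G i, ∀ g : G, q ⁅x * y, g⁆ = q ⁅y, g⁆ * q ⁅x, g⁆ := by
    intro x hx y hy g
    rw [← mkc i hy x g, ← map_mul]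
    congr 1
    simp only [commutatorElement_def]
    group
  have hone1 : ∀ x : G, q ⁅x, (1 : G)⁆ = 1 := by
    intro x
    simpa using q.map_one
  have hone2 : ∀ x : G, q ⁅(1 : G), x⁆ = 1 := by
    intro x
    simpa using q.map_one
  have s1 : ∀ t ∈ T, ∀ g : G, q ⁅t, g⁆ ∈ K := by
    intro t ht g
    have hg' : g ∈ closure S := by rw [hS]; exact mem_top g
    induction hg' using closure_induction with
    | mem s hs => exact mem_map_of_mem _ (subset_closure ⟨t, ht, s, hs, rfl⟩)
    | one => rw [hone1]; exact K.one_mem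
    | mul x y _ _ hx hy => rw [hmul1 t (hT ht)]; exact K.mul_mem hx hy
    | inv x _ hx =>
      have h1 := hmul1 t (hT ht) x x⁻¹
      rw [mul_inv_cancel, hone1] at h1
      rw [eq_inv_of_mul_eq_one_right h1.symm]
      exact K.inv_mem hx
  have hle : closure T ≤ L G i := (closure_le _).2 hT
  have s2 : ∀ t ∈ closure T, ∀ g : G, q ⁅t, g⁆ ∈ K := by
    intro t ht g
    induction ht using closure_induction with
    | mem s hs => exact s1 s hs g
    | one => rw [hone2]; exact K.one_mem
    | mul x y hx' hy' hx hy =>
      rw [hmul2 x (hle hx') y (hle hy')]; exact K.mul_mem hy hx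
    | inv x hx' hx =>
      have h1 := hmul2 x (hle hx') x⁻¹ (inv_mem (hle hx')) g
      rw [mul_inv_cancel, hone2] at h1
      rw [eq_inv_of_mul_eq_one_left h1.symm]
      exact K.inv_mem hx
  have s3 : ∀ x ∈ L G i, ∀ g : G, q ⁅x, g⁆ ∈ K := by
    intro x hx g
    obtain ⟨a, ha, b, hb, rfl⟩ := mem_sup_of_normal_right.1 (hg hx)
    have hb' : b ∈ L G i := Subgroup.lowerCentralSeries_antitone _ (Nat.le_succ i) hb
    rw [hmul2 a (hle ha) b hb']
    refine K.mul_mem ?_ (s2 a ha g)
    have h1 : q ⁅b, g⁆ = 1 := by
      rw [← MonoidHom.mem_ker, hq, QuotientGroup.ker_mk']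
      exact commutator_mem_commutator hb (mem_top g)
    rw [h1]
    exact K.one_mem
  have s4 : (L G (i + 1)).map q ≤ K := by
    rw [map_le_iff_le_comap]
    change ⁅L G i, ⊤⁆ ≤ _
    rw [commutator_le]
    intro x hx g _
    exact s3 x hx g
  rw [hK, Subgroup.map_le_map_iff, hq, QuotientGroup.ker_mk'] at s4
  exact s4

/-- the `i`-th term of the lower central series is generated by finitely many elements modulo
the next term -/
theorem nilMax_gen (hG : Group.FG G) (i : ℕ) :
    ∃ T : Set G, T.Finite ∧ T ⊆ (⊤ : Subgroup G).lowerCentralSeries i ∧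
      (⊤ : Subgroup G).lowerCentralSeries i ≤
        closure T ⊔ (⊤ : Subgroup G).lowerCentralSeries (i + 1) := by
  obtain ⟨S, hS⟩ := Group.fg_def.1 hG
  induction i with
  | zero =>
    refine ⟨S, S.finite_toSet, fun x _ => mem_top x, ?_⟩
    rw [hS]
    exact le_trans le_top le_sup_left
  | succ i ih =>
    obtain ⟨T, h1, h2, h3⟩ := ih
    refine ⟨Set.image2 (fun t s : G => ⁅t, s⁆) T S, h1.image2 _ S.finite_toSet, ?_,
      gen_succ _ hS i T h2 h3⟩
    rintro _ ⟨t, ht, s, _, rfl⟩
    exact commutator_mem_commutator (h2 ht) (mem_top s)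

/-- subgroups of finitely generated abelian groups are finitely generated -/
theorem nilMax_comm {A : Type*} [Group A] (hc : ∀ x y : A, x * y = y * x) (hA : Group.FG A) :
    PP.Max A := by
  let _ : CommGroup A := { (inferInstance : Group A) with mul_comm := hc }
  intro K
  have h1 : AddGroup.FG (Additive A) := GroupFG.iff_add_fg.1 hA
  have h2 : Module.Finite ℤ (Additive A) := Module.Finite.iff_addGroup_fg.2 h1
  have h3 : (Subgroup.toAddSubgroup K).FG := by
    rw [← AddSubgroup.toIntSubmodule_toAddSubgroup (Subgroup.toAddSubgroup K),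
      ← Submodule.fg_iff_addSubgroup_fg]
    exact IsNoetherian.noetherian _
  exact (Subgroup.fg_iff_add_fg K).2 h3

/-- finitely generated nilpotent groups satisfy the maximal condition -/
theorem nilMax (hG : Group.FG G) (hn : Group.IsNilpotent G) : PP.Max G := by
  obtain ⟨n, hn⟩ := Subgroup.nilpotent_iff_lowerCentralSeries.1 hn
  intro K
  have key : ∀ j i : ℕ, i + j = n → (K ⊓ L G i).FG := by
    intro j
    induction j with
    | zero =>
      intro i hi
      rw [add_zero] at hi
      subst hi
      have : K ⊓ L G i = ⊥ := by rw [show L G i = ⊥ from hn, inf_bot_eq]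
      rw [this]
      exact FG.bot
    | succ j ih =>
      intro i hi
      have h1 := ih (i + 1) (by omega)
      obtain ⟨T, hT1, hT2, hT3⟩ := nilMax_gen hG i
      set q := QuotientGroup.mk' (L G (i + 1)) with hq
      refine APB_fg_ext q _ ?_ ?_
      · -- a subgroup of the finitely generated abelian group `q (L i)`
        have hfg : ((L G i).map q).FG := by
          have : (L G i).map q = closure (q '' T) := by
            rw [← MonoidHom.map_closure]
            apply le_antisymm
            · rw [Subgroup.map_le_map_iff, hq, QuotientGroup.ker_mk']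
              exact hT3
            · exact map_mono ((closure_le _).2 hT2)
          rw [this]
          have hfin := hT1.image q
          exact ⟨hfin.toFinset, by rw [Set.Finite.coe_toFinset]⟩
        have hcomm : ∀ x y : (L G i).map q, x * y = y * x := by
          rintro ⟨_, x, hx, rfl⟩ ⟨_, y, hy, rfl⟩
          apply Subtype.ext
          change q x * q y = q y * q x
          rw [← map_mul, ← map_mul, hq, QuotientGroup.mk'_apply, QuotientGroup.mk'_apply,
            QuotientGroup.eq]
          have h2 : ⁅y⁻¹, x⁻¹⁆ ∈ L G (i + 1) := by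
            exact commutator_mem_commutator (inv_mem hy) (mem_top _)
          convert h2 using 1
          simp only [commutatorElement_def]
          group
        have hmax := nilMax_comm hcomm ((Group.fg_iff_subgroup_fg _).2 hfg)
        have hle : (K ⊓ L G i).map q ≤ (L G i).map q := map_mono inf_le_right
        have h3 := hmax (((K ⊓ L G i).map q).subgroupOf ((L G i).map q))
        have h4 := APB_fg_map ((L G i).map q).subtype _ h3
        rwa [subgroupOf_map_subtype, inf_eq_left.2 hle] at h4
      · rw [hq, QuotientGroup.ker_mk']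
        have : K ⊓ L G i ⊓ L G (i + 1) = K ⊓ L G (i + 1) := by
          rw [inf_assoc]
          congr 1
          exact inf_eq_right.2 (Subgroup.lowerCentralSeries_antitone _ (Nat.le_succ i))
        rw [this]
        exact h1
  have h0 := key n 0 (by omega)
  have : K ⊓ L G 0 = K := inf_eq_left.2 (fun x _ => mem_top x)
  rwa [this] at h0

end H36.PQ
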