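import Pool.Agent.H36.PQ.E
import Pool.Agent.H36.PQ.NilMax
import Pool.Agent.H71.KW.Main

/-!
# Module N: products of two finitely generated nilpotent groups

`thmN`: `G = A B` locally graded, `A`, `B` finitely generated nilpotent. Then `G` is polycyclic.
(`thmE`, where the finite sections are soluble by the theorem of Kegel and Wielandt.)
-/

set_option autoImplicit false

universe u

namespace H36.PQ

open Subgroup H36.PP

theorem N_nil_le {X : Type*} [Group X] {A' A : Subgroup X} (h : A' ≤ A)
    (hn : Group.IsNilpotent A) : Group.IsNilpotent A' := by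
  have h3 : Group.IsNilpotent (A'.subgroupOf A) := inferInstance
  exact Group.nilpotent_of_mulEquiv (Subgroup.subgroupOfEquivOfLe h)

theorem N_nil_map {X Y : Type*} [Group X] [Group Y] {A : Subgroup X} (f : X →* Y)
    (hn : Group.IsNilpotent A) : Group.IsNilpotent (A.map f) :=
  Group.nilpotent_of_surjective (f.subgroupMap A) (f.subgroupMap_surjective A)

theorem N_nil_subgroupOf {X : Type*} [Group X] (A H : Subgroup X)
    (hn : Group.IsNilpotent A) : Group.IsNilpotent (A.subgroupOf H) := by
  have h1 : Group.IsNilpotent ((A.subgroupOf H).map H.subtype) := by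
    rw [subgroupOf_map_subtype]
    exact N_nil_le inf_le_left hn
  exact Group.nilpotent_of_mulEquiv
    ((A.subgroupOf H).equivMapOfInjective H.subtype H.subtype_injective).symm

theorem solSec_nil {G : Type u} [Group G] (A B : Subgroup G) (hA : Group.IsNilpotent A)
    (hB : Group.IsNilpotent B) : SolSec A B := by
  rintro X _ _ A' B' ⟨H, f, _, h1, h2⟩ h3
  exact Pool.Agent.H71.KW.isSolvable_of_mul A' B'
    (N_nil_le h1 (N_nil_map f (N_nil_subgroupOf A H hA)))
    (N_nil_le h2 (N_nil_map f (N_nil_subgroupOf B H hB))) h3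

theorem thmN {G : Type u} [Group G] (A B : Subgroup G) (hf : Fact A B)
    (hA : Group.IsNilpotent A) (hB : Group.IsNilpotent B) (hAf : A.FG) (hBf : B.FG)
    (hLG : LG G) : PP.Max G ∧ Group.IsSolvable G := by
  have hmA : PP.Max A := nilMax ((Group.fg_iff_subgroup_fg _).2 hAf) hA
  have hmB : PP.Max B := nilMax ((Group.fg_iff_subgroup_fg _).2 hBf) hB
  have hap : ∀ (C : Subgroup G), Group.IsNilpotent C → PP.Max C → AP C := by
    intro C hC hm
    have h1 : Group.IsSolvable C := inferInstance
    exact ⟨hm, ⊤, inferInstance, inferInstance⟩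
  have hG := thmE A B hf hA (hap A hA hmA) (hap B hB hmB) (solSec_nil A B hA hB) hLG
  refine ⟨hG.1, ?_⟩
  obtain ⟨_, S, hSi, hS⟩ := hG
  set N := S.normalCore with hN
  have hNi : N.FiniteIndex := inferInstance
  have hNS : N ≤ S := S.normalCore_le
  have h1 : Group.IsSolvable N := Group.isSolvable_of_isSolvable_injective
    (f := Subgroup.inclusion hNS) (Subgroup.inclusion_injective hNS)
  have hfin : Finite (G ⧸ N) := inferInstance
  have h2 : Group.IsSolvable (G ⧸ N) :=
    solSec_nil A B hA hB (G ⧸ N) _ _ ((isSec_closed A B).quo G A B (IsSec.refl A B) N) (by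
      intro x
      obtain ⟨g, rfl⟩ := QuotientGroup.mk'_surjective N x
      obtain ⟨a, ha, b, hb, rfl⟩ := hf g
      exact ⟨_, mem_map_of_mem _ ha, _, mem_map_of_mem _ hb, map_mul _ a b⟩)
  exact Group.isSolvable_of_ker_le_range N.subtype (QuotientGroup.mk' N) (by simp)

end H36.PQ
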