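import Pool.Agent.H36.PQ.Defs

/-!
# Module R1: surjective derivations of nilpotent groups onto elementary abelian groups

`r1_num`: for every `h` there is `M` such that `p ^ m ≤ (p * (m + 1)) ^ h`, `2 ≤ p` imply `m ≤ M`.
(If `m ≥ h` then `2^(m-h) ≤ p^(m-h) ≤ (m+1)^h`, and exponentials grow faster than polynomials.)

`r1_deriv`: `A` nilpotent and a product of `h` cyclic groups, `V` a finite vector space over
`ZMod p` of dimension `m`, `ρ : A →* End V`, `δ : A → V` a surjective derivation. Then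
`p ^ m ≤ (p * (m + 1)) ^ h`.
Proof. Let `π : A →* End (V × ZMod p)`, `π a (v, x) = (ρ a v + x • δ a, x)`, `Ā` its range (a finite
nilpotent group; `ρ`, `δ` factor through `Ā`, in fact `π a` determines `ρ a`, `δ a`). Let
`S = {a ∈ Ā | δ a = 0}`, a subgroup; `δ a = δ b ↔ a⁻¹ b ∈ S`, so `S` has index `p^m` in `Ā`.
Let `q ≠ p` be a prime and `T` a Sylow `q`-subgroup of `Ā`, normal as `Ā` is nilpotent. The index
of `S` in `S T` is a power of `q` and divides `p^m`, so `T ≤ S`. For `c ∈ T`, `a ∈ Ā`: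
`δ (a c) = δ a`, and `c a = a c'` with `c' ∈ T`, so `ρ c (δ a) = δ (c a) = δ (a c') = δ a`; `δ` is
surjective, so `ρ c = 1`, `δ c = 0`, `c = 1`. So `T = 1` and `Ā` is a `p`-group.
For `a ∈ Ā`: `a^(p^k) = 1` for some `k`, so `(a - 1)^(p^k) = 0` in `End (V × ZMod p)`
(characteristic `p`), so `(a - 1)^(m+1) = 0`. Let `p^e` be the least power of `p` with
`m + 1 ≤ p^e`, so `p^e ≤ p (m + 1)`: `a^(p^e) - 1 = (a - 1)^(p^e) = 0`. Each of the `h` cyclic groups
has order at most `p (m+1)` in `Ā`, so `p^m ≤ |Ā| ≤ (p (m+1))^h`.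
-/

set_option autoImplicit false

namespace H36.PQ

open Subgroup H36.PP

theorem r1_num (h : ℕ) : ∃ M, ∀ p m : ℕ, 2 ≤ p → p ^ m ≤ (p * (m + 1)) ^ h → m ≤ M := by
  have ht := tendsto_pow_const_div_const_pow_of_one_lt h (r := (2 : ℝ)) (by norm_num)
  have hev := (ht.eventually (gt_mem_nhds (show (0 : ℝ) < 1 / 2 ^ (h + 1) by positivity)))
  obtain ⟨N, hN⟩ := Filter.eventually_atTop.mp hev
  refine ⟨max h N, fun p m hp hle => ?_⟩
  by_contra hm
  push Not at hm
  have hmh : h < m := lt_of_le_of_lt (le_max_left _ _) hm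
  have hmN : N < m := lt_of_le_of_lt (le_max_right _ _) hm
  have h1 := hN (m + 1) (by omega)
  rw [div_lt_div_iff₀ (by positivity) (by positivity)] at h1
  have h2 : (m + 1) ^ h * 2 ^ (h + 1) < 2 ^ (m + 1) := by
    have : (((m + 1) ^ h * 2 ^ (h + 1) : ℕ) : ℝ) < ((2 ^ (m + 1) : ℕ) : ℝ) := by
      push_cast
      push_cast at h1
      linarith
    exact_mod_cast this
  have h3 : (m + 1) ^ h * 2 ^ h < 2 ^ m := by
    have e1 : (m + 1) ^ h * 2 ^ (h + 1) = 2 * ((m + 1) ^ h * 2 ^ h) := by rw [pow_succ]; ring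
    have e2 : 2 ^ (m + 1) = 2 * 2 ^ m := by rw [pow_succ]; ring
    rw [e1, e2] at h2
    omega
  -- p ^ (m - h) ≤ (m + 1) ^ h
  have h4 : p ^ (m - h) ≤ (m + 1) ^ h := by
    rw [mul_pow] at hle
    have e : p ^ m = p ^ h * p ^ (m - h) := by rw [← pow_add]; congr 1; omega
    rw [e] at hle
    exact Nat.le_of_mul_le_mul_left hle (by positivity)
  have h5 : 2 ^ (m - h) ≤ (m + 1) ^ h := le_trans (Nat.pow_le_pow_left hp _) h4
  have h6 : 2 ^ m = 2 ^ (m - h) * 2 ^ h := by rw [← pow_add]; congr 1; omega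
  have h7 : 2 ^ m ≤ (m + 1) ^ h * 2 ^ h := by
    rw [h6]; exact Nat.mul_le_mul_right _ h5
  omega

section core

variable {B : Type*} [Group B] {p : ℕ} [hp : Fact p.Prime] {V : Type*} [AddCommGroup V]
  [Module (ZMod p) V] [Finite V] (ρ : B →* (V →ₗ[ZMod p] V)) (δ : B → V)
  (hδ : ∀ a b, δ (a * b) = δ a + ρ a (δ b))

omit [Finite V] in
include hδ in
private theorem r1_one : δ 1 = 0 := by
  have := hδ 1 1
  simpa using this

/-- the affine action -/
@[reducible] private def r1_act : MulAction B V where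
  smul b v := δ b + ρ b v
  one_smul v := by
    change δ 1 + ρ 1 v = v
    rw [r1_one ρ δ hδ]; simp
  mul_smul a b v := by
    change δ (a * b) + ρ (a * b) v = δ a + ρ a (δ b + ρ b v)
    rw [hδ, map_mul, map_add]
    simp [add_assoc]

include hδ in
private theorem r1_triv [Finite B] (hs : Function.Surjective δ) {q : ℕ} (hq : q.Prime)
    (hqp : q ≠ p) (T : Subgroup B) [T.Normal] {j : ℕ} (hT : Nat.card T = q ^ j) (c : B)
    (hc : c ∈ T) (v : V) : δ c + ρ c v = v := by
  let _ : MulAction B V := r1_act ρ δ hδ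
  have hsm : ∀ (b : B) (v : V), b • v = δ b + ρ b v := fun _ _ => rfl
  have _ : MulAction.IsPretransitive B V := by
    refine ⟨fun x y => ?_⟩
    obtain ⟨a, rfl⟩ := hs x
    obtain ⟨b, rfl⟩ := hs y
    refine ⟨b * a⁻¹, ?_⟩
    have e1 : a • (0 : V) = δ a := by rw [hsm]; simp
    have e2 : b • (0 : V) = δ b := by rw [hsm]; simp
    rw [← e1, ← e2, ← mul_smul]; simp
  have hb : MulAction.IsBlock B (MulAction.orbit T v) := MulAction.IsBlock.orbit_of_normal v
  have hd := hb.ncard_dvd_card (MulAction.nonempty_orbit (M := T) v)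
  have hV : Nat.card V = p ^ Module.finrank (ZMod p) V := by
    have _ : Fintype V := Fintype.ofFinite V
    rw [Nat.card_eq_fintype_card, Module.card_eq_pow_finrank (K := ZMod p), ZMod.card]
  have hd2 : (MulAction.orbit T v).ncard ∣ Nat.card T := by
    rw [← Nat.card_coe_set_eq, Nat.card_congr (MulAction.orbitEquivQuotientStabilizer T v)]
    exact Subgroup.card_quotient_dvd_card _
  rw [hT] at hd2
  rw [hV] at hd
  have hcop : Nat.Coprime (q ^ j) (p ^ Module.finrank (ZMod p) V) :=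
    Nat.Coprime.pow _ _ ((Nat.coprime_primes hq hp.out).mpr hqp)
  have h1 : (MulAction.orbit T v).ncard = 1 :=
    Nat.eq_one_of_dvd_coprimes hcop hd2 hd
  rw [Set.ncard_eq_one] at h1
  obtain ⟨x, hx⟩ := h1
  have m1 : v ∈ MulAction.orbit T v := MulAction.mem_orbit_self v
  have m2 : (⟨c, hc⟩ : T) • v ∈ MulAction.orbit T v := MulAction.mem_orbit v _
  rw [hx, Set.mem_singleton_iff] at m1 m2
  have m3 : (⟨c, hc⟩ : T) • v = δ c + ρ c v := rfl
  rw [← m3, m2, m1]

include hδ in
private theorem r1_pgroup [Finite B] (hn : Group.IsNilpotent B) (hs : Function.Surjective δ)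
    (hf : ∀ c, ρ c = 1 → δ c = 0 → c = 1) : ∃ n, Nat.card B = p ^ n := by
  refine ⟨_, Nat.eq_prime_pow_of_unique_prime_dvd (Nat.card_pos.ne') fun {q} hq hqd => ?_⟩
  by_contra hqp
  have _ : Fact q.Prime := ⟨hq⟩
  obtain ⟨T⟩ : Nonempty (Sylow q B) := inferInstance
  have _ : (T : Subgroup B).Normal := by
    have := ((Group.isNilpotent_of_finite_tfae (G := B)).out 0 3).mp hn
    exact this q inferInstance T
  obtain ⟨j, hj⟩ := IsPGroup.iff_card.mp T.isPGroup'
  have htriv : ∀ c ∈ (T : Subgroup B), c = 1 := by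
    intro c hc
    have h := r1_triv ρ δ hδ hs hq hqp (T : Subgroup B) hj c hc
    have h0 : δ c = 0 := by simpa using h 0
    refine hf c ?_ h0
    ext v
    have := h v
    rw [h0, zero_add] at this
    simpa using this
  have hbot : (T : Subgroup B) = ⊥ := by
    rw [eq_bot_iff]; intro c hc; exact Subgroup.mem_bot.mpr (htriv c hc)
  have := T.ne_bot_of_dvd_card hqd
  exact this hbot

end core

/-- the affine representation on `V × ZMod p` -/
private def r1_pi {A : Type*} [Group A] {p : ℕ} [Fact p.Prime] {V : Type*} [AddCommGroup V]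
    [Module (ZMod p) V] (ρ : A →* (V →ₗ[ZMod p] V)) (δ : A → V)
    (hδ : ∀ a b, δ (a * b) = δ a + ρ a (δ b)) : A →* ((V × ZMod p) →ₗ[ZMod p] (V × ZMod p)) where
  toFun a := (((ρ a).comp (LinearMap.fst (ZMod p) V (ZMod p)) +
    (LinearMap.toSpanSingleton (ZMod p) V (δ a)).comp (LinearMap.snd (ZMod p) V (ZMod p))).prod
    (LinearMap.snd (ZMod p) V (ZMod p)))
  map_one' := by
    have h1 : δ 1 = 0 := by simpa using hδ 1 1
    ext <;> simp [h1]
  map_mul' a b := by
    ext <;> simp [hδ, add_comm]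

private theorem r1_pi_apply {A : Type*} [Group A] {p : ℕ} [Fact p.Prime] {V : Type*}
    [AddCommGroup V] [Module (ZMod p) V] (ρ : A →* (V →ₗ[ZMod p] V)) (δ : A → V)
    (hδ : ∀ a b, δ (a * b) = δ a + ρ a (δ b)) (a : A) (v : V) (x : ZMod p) :
    r1_pi ρ δ hδ a (v, x) = (ρ a v + x • δ a, x) := by
  simp [r1_pi]

theorem r1_deriv {A : Type*} [Group A] (hn : Group.IsNilpotent A) {h : ℕ} (hA : BG A h) {p : ℕ}
    [Fact p.Prime] {V : Type*} [AddCommGroup V] [Module (ZMod p) V] [Finite V]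
    (ρ : A →* (V →ₗ[ZMod p] V)) (δ : A → V) (hδ : ∀ a b, δ (a * b) = δ a + ρ a (δ b))
    (hs : Function.Surjective δ) :
    p ^ Module.finrank (ZMod p) V ≤ (p * (Module.finrank (ZMod p) V + 1)) ^ h := by
  classical
  have hp : p.Prime := Fact.out
  set m := Module.finrank (ZMod p) V with hm
  let W := V × ZMod p
  let π : A →* (W →ₗ[ZMod p] W) := r1_pi ρ δ hδ
  have hπ : ∀ (a : A) (v : V) (x : ZMod p), π a (v, x) = (ρ a v + x • δ a, x) :=
    r1_pi_apply ρ δ hδ
  let π' : A →* (W →ₗ[ZMod p] W)ˣ := π.toHomUnits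
  have hπ' : ∀ a, ((π' a : (W →ₗ[ZMod p] W)ˣ) : W →ₗ[ZMod p] W) = π a := fun a => rfl
  let K := π'.ker
  have hK : ∀ a, a ∈ K ↔ ρ a = 1 ∧ δ a = 0 := by
    intro a
    rw [MonoidHom.mem_ker, Units.ext_iff, hπ', Units.val_one]
    constructor
    · intro h1
      have h0 : δ a = 0 := by
        have := hπ a 0 1
        rw [h1] at this
        simpa using (congrArg Prod.fst this).symm
      refine ⟨?_, h0⟩
      ext v
      have := hπ a v 0
      rw [h1] at this
      simpa using (congrArg Prod.fst this).symm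
    · rintro ⟨h1, h0⟩
      refine LinearMap.ext fun w => ?_
      obtain ⟨v, x⟩ := w
      rw [hπ, h1, h0]
      simp
  let B := A ⧸ K
  let θ : B →* (W →ₗ[ZMod p] W)ˣ := QuotientGroup.kerLift π'
  have hθi : Function.Injective θ := QuotientGroup.kerLift_injective π'
  have hfinW : Finite W := inferInstance
  have hfinE : Finite (W →ₗ[ZMod p] W) :=
    Finite.of_injective (fun f : W →ₗ[ZMod p] W => (f : W → W)) DFunLike.coe_injective
  have hfinU : Finite (W →ₗ[ZMod p] W)ˣ := inferInstance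
  have hfinB : Finite B := Finite.of_injective θ hθi
  have hnB : Group.IsNilpotent B := Group.nilpotent_of_surjective (QuotientGroup.mk' K)
    (QuotientGroup.mk'_surjective K)
  let ρB : B →* (V →ₗ[ZMod p] V) := QuotientGroup.lift K ρ (fun a ha => ((hK a).mp ha).1)
  have hρB : ∀ a : A, ρB (a : B) = ρ a := fun a => rfl
  let δB : B → V := fun b => (((θ b : (W →ₗ[ZMod p] W)ˣ) : W →ₗ[ZMod p] W) (0, 1)).1
  have hδB : ∀ a : A, δB (a : B) = δ a := by
    intro a
    have : ((θ (a : B) : (W →ₗ[ZMod p] W)ˣ) : W →ₗ[ZMod p] W) = π a := rfl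
    change (((θ (a : B) : (W →ₗ[ZMod p] W)ˣ) : W →ₗ[ZMod p] W) (0, 1)).1 = δ a
    rw [this, hπ]; simp
  have hδB' : ∀ a b, δB (a * b) = δB a + ρB a (δB b) := by
    intro a b
    induction a using QuotientGroup.induction_on with | _ a
    induction b using QuotientGroup.induction_on with | _ b
    rw [← QuotientGroup.mk_mul, hδB, hδB, hδB, hρB, hδ]
  have hsB : Function.Surjective δB := fun v => by
    obtain ⟨a, rfl⟩ := hs v
    exact ⟨(a : B), hδB a⟩
  have hfB : ∀ c, ρB c = 1 → δB c = 0 → c = 1 := by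
    intro c h1 h2
    induction c using QuotientGroup.induction_on with | _ a
    rw [hρB] at h1
    rw [hδB] at h2
    exact (QuotientGroup.eq_one_iff a).mpr ((hK a).mpr ⟨h1, h2⟩)
  obtain ⟨n, hcard⟩ := r1_pgroup ρB δB hδB' hnB hsB hfB
  -- exponent
  set e := Nat.log p (m + 1) + 1 with he
  have hpe1 : m + 1 ≤ p ^ e := (Nat.lt_pow_succ_log_self hp.one_lt (m + 1)).le
  have hpe2 : p ^ e ≤ p * (m + 1) := by
    rw [he, pow_succ, mul_comm]
    exact Nat.mul_le_mul_left p (Nat.pow_log_le_self p (by omega))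
  have hfrW : Module.finrank (ZMod p) W = m + 1 := by
    change Module.finrank (ZMod p) (V × ZMod p) = m + 1
    rw [Module.finrank_prod, Module.finrank_self]
  have hexp : ∀ b : B, b ^ (p ^ e) = 1 := by
    intro b
    apply hθi
    rw [map_pow, map_one, Units.ext_iff, Units.val_pow_eq_pow_val, Units.val_one]
    set u : W →ₗ[ZMod p] W := ((θ b : (W →ₗ[ZMod p] W)ˣ) : W →ₗ[ZMod p] W) with hu
    have hchar : CharP (W →ₗ[ZMod p] W) p :=
      charP_of_injective_algebraMap (FaithfulSMul.algebraMap_injective (ZMod p) (W →ₗ[ZMod p] W)) p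
    have hbn : b ^ (p ^ n) = 1 := by rw [← hcard]; exact pow_card_eq_one'
    have hun : u ^ (p ^ n) = 1 := by
      rw [hu, ← Units.val_pow_eq_pow_val, ← map_pow, hbn, map_one, Units.val_one]
    have hN : IsNilpotent (u - 1) := by
      refine ⟨p ^ n, ?_⟩
      rw [sub_pow_char_pow_of_commute (p := p) n (Commute.one_right u), hun, one_pow, sub_self]
    have hN2 : (u - 1) ^ (m + 1) = 0 := by
      have h1 := (LinearMap.isNilpotent_iff_charpoly (u - 1)).mp hN
      have h2 := LinearMap.aeval_self_charpoly (u - 1)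
      rw [h1, hfrW] at h2
      simpa using h2
    have hN3 : (u - 1) ^ (p ^ e) = 0 := pow_eq_zero_of_le hpe1 hN2
    rw [sub_pow_char_pow_of_commute (p := p) e (Commute.one_right u), one_pow, sub_eq_zero] at hN3
    exact hN3
  -- cardinality
  obtain ⟨a, ha⟩ := hA
  have hBcard : Nat.card B ≤ (p ^ e) ^ h := by
    have hpos : 0 < p ^ e := pow_pos hp.pos e
    let F : (Fin h → Fin (p ^ e)) → B := fun k =>
      (List.ofFn fun i => ((a i : A) : B) ^ ((k i : ℕ) : ℤ)).prod
    have hF : Function.Surjective F := by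
      intro b
      induction b using QuotientGroup.induction_on with | _ x
      obtain ⟨k, hk⟩ := ha x
      have hlt : ∀ i, (k i % (p ^ e : ℕ)).toNat < p ^ e := by
        intro i
        have h1 := Int.emod_lt_of_pos (k i) (show (0 : ℤ) < ((p ^ e : ℕ) : ℤ) by exact_mod_cast hpos)
        have h2 := Int.emod_nonneg (k i) (show ((p ^ e : ℕ) : ℤ) ≠ 0 by exact_mod_cast hpos.ne')
        omega
      refine ⟨fun i => ⟨(k i % (p ^ e : ℕ)).toNat, hlt i⟩, ?_⟩
      have h3 : ∀ i, ((a i : A) : B) ^ (((k i % (p ^ e : ℕ)).toNat : ℕ) : ℤ) =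
          ((a i : A) : B) ^ (k i) := by
        intro i
        have h2 := Int.emod_nonneg (k i) (show ((p ^ e : ℕ) : ℤ) ≠ 0 by exact_mod_cast hpos.ne')
        rw [Int.toNat_of_nonneg h2]
        conv_rhs => rw [← Int.emod_add_mul_ediv (k i) ((p ^ e : ℕ) : ℤ)]
        rw [zpow_add, zpow_mul, zpow_natCast, hexp, one_zpow, mul_one]
      change (List.ofFn fun i => ((a i : A) : B) ^ (((k i % (p ^ e : ℕ)).toNat : ℕ) : ℤ)).prod = _
      simp only [h3]
      rw [hk, ← QuotientGroup.mk'_apply, map_list_prod, List.map_ofFn]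
      rfl
    have h1 := Nat.card_le_card_of_surjective F hF
    rw [Nat.card_fun] at h1
    simpa using h1
  have hVB : p ^ m ≤ Nat.card B := by
    have h1 := Nat.card_le_card_of_surjective δB hsB
    have hV : Nat.card V = p ^ m := by
      have _ : Fintype V := Fintype.ofFinite V
      rw [Nat.card_eq_fintype_card, Module.card_eq_pow_finrank (K := ZMod p), ZMod.card]
    rwa [hV] at h1
  exact hVB.trans (hBcard.trans (Nat.pow_le_pow_left hpe2 h))

end H36.PQ
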