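import Pool.Agent.H36.PQ.R1

/-!
# Module R2: finite normal elementary abelian subgroups of factorised groups

`X = A B`, `A` nilpotent, every subgroup of `A` is a product of `h` cyclic groups, every finitely
generated subgroup of `B` has at most `r` generators, `M` as in `r1_num h`. Let `V` be a finite
normal elementary abelian `p`-subgroup of `X`. Then `|V| ≤ p ^ (M + r)`.

Proof. `A' = A ⊓ B V`, `B' = B ⊓ A V`, `Y = A V ⊓ B V`. Then `Y = A' V = B' V = A' B'` (Dedekind;
`x ∈ Y`, `x = a b` with `a ∈ A`, `b ∈ B`: `b = a⁻¹ x ∈ A V`, `a = x b⁻¹ ∈ B V`). `V₀ = B ⊓ V` is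
normalised by `B'` and centralised by `V`, hence normal in `Y`. For `a ∈ A'` write `a = v b`,
`v ∈ V`, `b ∈ B`, and put `δ a = v V₀`, an element of `V / V₀` (well defined). With the conjugation
action of `A'` on `V / V₀` this is a derivation: `v₁ b₁ v₂ b₂ = v₁ (b₁ v₂ b₁⁻¹) b₁ b₂`, and conjugation
by `a₁ = v₁ b₁` and by `b₁` agree on the abelian group `V`. It is surjective: `v ∈ V ≤ Y = A' B'`,
`v = a b`, `a = v b⁻¹`. By `r1_deriv` and `r1_num`: `|V / V₀| ≤ p ^ M`. And `V₀` is an elementary
abelian subgroup of `B`, generated by `r` elements, so `|V₀| ≤ p ^ r`.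
(Use `Additive` of the quotient group `V ⧸ V₀`, an `AddCommGroup` killed by `p`, hence a module over
`ZMod p`: `AddCommGroup.zmodModule`.)
-/

set_option autoImplicit false

universe u

namespace H36.PQ

open Subgroup H36.PP

private theorem R2_card {V : Type*} [AddCommGroup V] [Finite V] {p : ℕ} [_root_.Fact p.Prime]
    [Module (ZMod p) V] : Nat.card V = p ^ Module.finrank (ZMod p) V := by
  have hmf : Module.Finite (ZMod p) V := Module.Finite.of_finite
  have h0 := Module.natCard_eq_pow_finrank (K := ZMod p) (V := V)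
  rw [Nat.card_zmod] at h0
  exact h0

private theorem R2_elem_add {V : Type*} [AddCommGroup V] [Finite V] {p r : ℕ}
    [_root_.Fact p.Prime] [Module (ZMod p) V] (S : Finset V) (hS : S.card ≤ r)
    (hS' : AddSubgroup.closure (S : Set V) = ⊤) : Nat.card V ≤ p ^ r := by
  have hspan : Submodule.span (ZMod p) (S : Set V) = ⊤ := by
    rw [Submodule.eq_top_iff']
    intro x
    have hx : x ∈ AddSubgroup.closure (S : Set V) := by rw [hS']; trivial
    induction hx using AddSubgroup.closure_induction with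
    | mem y hy => exact Submodule.subset_span hy
    | zero => exact Submodule.zero_mem _
    | add y z _ _ h1 h2 => exact Submodule.add_mem _ h1 h2
    | neg y _ h1 => exact Submodule.neg_mem _ h1
  have hfr : Module.finrank (ZMod p) V ≤ r := by
    have h1 := finrank_span_finset_le_card (R := ZMod p) S
    rw [Set.finrank, hspan, finrank_top] at h1
    exact h1.trans hS
  rw [R2_card (V := V) (p := p)]
  exact Nat.pow_le_pow_right (Nat.Prime.pos Fact.out) hfr

private theorem R2_elem_comm {V : Type*} [CommGroup V] [Finite V] {p r : ℕ} [_root_.Fact p.Prime]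
    (he : ∀ x : V, x ^ p = 1) (hr : FRk V r) : Nat.card V ≤ p ^ r := by
  have hfin' : Finite (Additive V) := inferInstanceAs (Finite V)
  have he' : ∀ x : Additive V, p • x = 0 := fun x => he x.toMul
  obtain ⟨S, hS, hS'⟩ := hr ⊤ (Group.fg_def.1 inferInstance)
  have := @R2_elem_add (Additive V) _ _ p r _ (AddCommGroup.zmodModule he')
    (S.map ⟨Additive.ofMul, Additive.ofMul.injective⟩) (by rw [Finset.card_map]; exact hS) (by
      rw [eq_top_iff]
      intro x _
      have hx : x.toMul ∈ closure (S : Set V) := by rw [hS']; trivial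
      have key : ∀ v : V, v ∈ closure (S : Set V) → Additive.ofMul v ∈ AddSubgroup.closure
          ((S.map ⟨Additive.ofMul, Additive.ofMul.injective⟩ : Finset (Additive V)) :
            Set (Additive V)) := by
        intro v hv
        induction hv using Subgroup.closure_induction with
        | mem y hy =>
          exact AddSubgroup.subset_closure
            (Finset.mem_coe.2 (Finset.mem_map.2 ⟨y, Finset.mem_coe.1 hy, rfl⟩))
        | one => exact AddSubgroup.zero_mem _
        | mul y z _ _ h1 h2 => exact AddSubgroup.add_mem _ h1 h2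
        | inv y _ h1 => exact AddSubgroup.neg_mem _ h1
      exact key _ hx)
  exact this

/-- an elementary abelian `p`-group with `r` generators has order at most `p ^ r` -/
theorem r2_elem {V : Type*} [Group V] (hc : ∀ x y : V, x * y = y * x) {p r : ℕ} (hp : p.Prime)
    (he : ∀ x : V, x ^ p = 1) (hr : FRk V r) (hfin : Finite V) : Nat.card V ≤ p ^ r := by
  have : _root_.Fact p.Prime := ⟨hp⟩
  let _ : CommGroup V := { ‹Group V› with mul_comm := hc }
  exact R2_elem_comm he hr

private theorem R2_deriv_add {A' : Type*} [Group A'] (hn : Group.IsNilpotent A') {h : ℕ}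
    (hA : BG A' h) {M : ℕ} (hM : ∀ p m : ℕ, 2 ≤ p → p ^ m ≤ (p * (m + 1)) ^ h → m ≤ M) {p : ℕ}
    [_root_.Fact p.Prime] {W : Type*} [AddCommGroup W] [Module (ZMod p) W] [Finite W]
    (ac : A' → W →+ W) (hac1 : ∀ x, ac 1 x = x) (hacm : ∀ a b x, ac (a * b) x = ac a (ac b x))
    (δ : A' → W) (hδ : ∀ a b, δ (a * b) = δ a + ac a (δ b)) (hs : Function.Surjective δ) :
    Nat.card W ≤ p ^ M := by
  let ρ : A' →* (W →ₗ[ZMod p] W) :=
    { toFun := fun a => (ac a).toZModLinearMap p
      map_one' := by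
        ext x
        exact hac1 x
      map_mul' := by
        intro a b
        ext x
        exact hacm a b x }
  have h1 := r1_deriv hn hA ρ δ hδ hs
  have h2 := hM p _ (Nat.Prime.two_le Fact.out) h1
  rw [R2_card (V := W) (p := p)]
  exact Nat.pow_le_pow_right (Nat.Prime.pos Fact.out) h2

private theorem R2_deriv_mul {A' : Type*} [Group A'] (hn : Group.IsNilpotent A') {h : ℕ}
    (hA : BG A' h) {M : ℕ} (hM : ∀ p m : ℕ, 2 ≤ p → p ^ m ≤ (p * (m + 1)) ^ h → m ≤ M) {p : ℕ}
    [_root_.Fact p.Prime] {W : Type*} [CommGroup W] [Finite W] (he : ∀ x : W, x ^ p = 1)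
    (ac : A' → W →* W) (hac1 : ∀ x, ac 1 x = x) (hacm : ∀ a b x, ac (a * b) x = ac a (ac b x))
    (δ : A' → W) (hδ : ∀ a b, δ (a * b) = δ a * ac a (δ b)) (hs : Function.Surjective δ) :
    Nat.card W ≤ p ^ M := by
  have hfin' : Finite (Additive W) := inferInstanceAs (Finite W)
  have he' : ∀ x : Additive W, p • x = 0 := fun x => he x.toMul
  exact @R2_deriv_add A' _ hn h hA M hM p _ (Additive W) _ (AddCommGroup.zmodModule he') _
    (fun a => MonoidHom.toAdditive (ac a)) hac1 hacm δ hδ hs

theorem r2_bound {X : Type u} [Group X] (A B : Subgroup X) (hf : Fact A B)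
    (hn : Group.IsNilpotent A) {h : ℕ} (hbg : ∀ A' : Subgroup A, BG A' h) {r : ℕ} (hB : FRk B r)
    {M : ℕ} (hM : ∀ p m : ℕ, 2 ≤ p → p ^ m ≤ (p * (m + 1)) ^ h → m ≤ M) {p : ℕ} (hp : p.Prime)
    (V : Subgroup X) [V.Normal] (hfin : Finite V) (hc : ∀ x ∈ V, ∀ y ∈ V, x * y = y * x)
    (he : ∀ x ∈ V, x ^ p = 1) : Nat.card V ≤ p ^ (M + r) := by
  classical
  have hpf : _root_.Fact p.Prime := ⟨hp⟩
  let _ : CommGroup V :=
    { (inferInstance : Group V) with mul_comm := fun x y => Subtype.ext (hc x x.2 y y.2) }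
  let V0 : Subgroup V := B.subgroupOf V
  let A' : Subgroup A := (V ⊔ B).subgroupOf A
  have hdec : ∀ a : A', ∃ v : V, ∃ b ∈ B, ((a : A) : X) = v * b := by
    intro a
    have h1 : ((a : A) : X) ∈ V ⊔ B := a.2
    obtain ⟨v, hv, b, hb, h2⟩ := Subgroup.mem_sup_of_normal_left.1 h1
    exact ⟨⟨v, hv⟩, b, hb, h2.symm⟩
  choose vv bb hbb hvb using hdec
  -- conjugation
  let cj : X → V →* V := fun g => (MulAut.conjNormal (H := V) g).toMonoidHom
  have hcj : ∀ g v, ((cj g v : V) : X) = g * v * g⁻¹ := fun g v => MulAut.conjNormal_apply g v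
  have hcb : ∀ (a : A') (w : V), ((a : A) : X) * (w : X) * (((a : A) : X))⁻¹ =
      bb a * (w : X) * (bb a)⁻¹ := by
    intro a w
    have h1 : (bb a) * (w : X) * (bb a)⁻¹ ∈ V := (inferInstance : V.Normal).conj_mem _ w.2 _
    have h3 := hc _ (vv a).2 _ h1
    rw [hvb a]
    calc ((vv a : V) : X) * bb a * (w : X) * (((vv a : V) : X) * bb a)⁻¹
        = (((vv a : V) : X) * (bb a * (w : X) * (bb a)⁻¹)) * ((vv a : V) : X)⁻¹ := by group
      _ = _ := by rw [h3]; group
  have hcjV0 : ∀ a : A', V0 ≤ V0.comap (cj ((a : A) : X)) := by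
    intro a w hw
    have hw' : (w : X) ∈ B := hw
    show ((cj ((a : A) : X) w : V) : X) ∈ B
    rw [hcj, hcb]
    exact B.mul_mem (B.mul_mem (hbb a) hw') (B.inv_mem (hbb a))
  have hac : ∀ (a : A') (v : V),
      QuotientGroup.map V0 V0 (cj ((a : A) : X)) (hcjV0 a) (QuotientGroup.mk' V0 v) =
        QuotientGroup.mk' V0 (cj ((a : A) : X) v) := fun a v => rfl
  have heQ : ∀ x : V ⧸ V0, x ^ p = 1 := by
    intro x
    obtain ⟨v, rfl⟩ := QuotientGroup.mk'_surjective V0 x
    have h1 : v ^ p = 1 := Subtype.ext (he v v.2)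
    rw [← map_pow, h1, map_one]
  have hδu : ∀ (a : A') (v : V) (b : X), b ∈ B → ((a : A) : X) = v * b →
      QuotientGroup.mk' V0 (vv a) = QuotientGroup.mk' V0 v := by
    intro a v b hb hv
    rw [QuotientGroup.mk'_apply, QuotientGroup.mk'_apply, QuotientGroup.eq]
    change (((vv a)⁻¹ * v : V) : X) ∈ B
    have h2 : (((vv a)⁻¹ * v : V) : X) = bb a * b⁻¹ := by
      have h3 := hvb a
      rw [hv] at h3
      push_cast
      calc ((vv a : V) : X)⁻¹ * (v : X) = ((vv a : V) : X)⁻¹ * ((v : X) * b) * b⁻¹ := by group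
        _ = ((vv a : V) : X)⁻¹ * (((vv a : V) : X) * bb a) * b⁻¹ := by rw [h3]
        _ = _ := by group
    rw [h2]
    exact B.mul_mem (hbb a) (B.inv_mem hb)
  have hac1 : ∀ x : V ⧸ V0,
      QuotientGroup.map V0 V0 (cj (((1 : A') : A) : X)) (hcjV0 1) x = x := by
    intro x
    obtain ⟨v, rfl⟩ := QuotientGroup.mk'_surjective V0 x
    rw [hac]
    congr 1
    apply Subtype.ext
    rw [hcj]
    simp
  have hacm : ∀ (a b : A') (x : V ⧸ V0),
      QuotientGroup.map V0 V0 (cj (((a * b : A') : A) : X)) (hcjV0 (a * b)) x =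
        QuotientGroup.map V0 V0 (cj ((a : A) : X)) (hcjV0 a)
          (QuotientGroup.map V0 V0 (cj ((b : A) : X)) (hcjV0 b) x) := by
    intro a b x
    obtain ⟨v, rfl⟩ := QuotientGroup.mk'_surjective V0 x
    rw [hac, hac, hac]
    congr 1
    apply Subtype.ext
    rw [hcj, hcj, hcj]
    push_cast
    group
  have hδ : ∀ a b : A', QuotientGroup.mk' V0 (vv (a * b)) = QuotientGroup.mk' V0 (vv a) *
      QuotientGroup.map V0 V0 (cj ((a : A) : X)) (hcjV0 a) (QuotientGroup.mk' V0 (vv b)) := by
    intro a b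
    have h1 : (((a * b : A') : A) : X) =
        ((vv a * cj ((a : A) : X) (vv b) : V) : X) * (bb a * bb b) := by
      push_cast
      rw [hcj, hcb, hvb a, hvb b]
      group
    rw [hδu (a * b) _ _ (B.mul_mem (hbb a) (hbb b)) h1, hac, map_mul]
  have hs : Function.Surjective fun a : A' => QuotientGroup.mk' V0 (vv a) := by
    intro x
    obtain ⟨v, rfl⟩ := QuotientGroup.mk'_surjective V0 x
    obtain ⟨a, ha, b, hb, hab⟩ := hf (v : X)
    have h1 : a = (v : X) * b⁻¹ := by rw [hab]; group
    have h2 : a ∈ V ⊔ B := by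
      rw [h1]
      exact Subgroup.mul_mem _ (Subgroup.mem_sup_left v.2)
        (Subgroup.mem_sup_right (B.inv_mem hb))
    exact ⟨⟨⟨a, ha⟩, h2⟩, hδu ⟨⟨a, ha⟩, h2⟩ v b⁻¹ (B.inv_mem hb) h1⟩
  have hnA' : Group.IsNilpotent A' := by
    have := hn
    infer_instance
  have hcardQ : Nat.card (V ⧸ V0) ≤ p ^ M :=
    R2_deriv_mul hnA' (hbg A') hM heQ
      (fun a => QuotientGroup.map V0 V0 (cj ((a : A) : X)) (hcjV0 a)) hac1 hacm
      (fun a => QuotientGroup.mk' V0 (vv a)) hδ hs
  have hcard0 : Nat.card V0 ≤ p ^ r := by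
    have hinj : FRk V0 r := by
      let f : V0 →* B :=
        { toFun := fun w => ⟨((w : V) : X), w.2⟩
          map_one' := rfl
          map_mul' := fun _ _ => rfl }
      refine FRk.of_injective hB f ?_
      intro w w' hw
      have hw2 : ((w : V) : X) = ((w' : V) : X) := congrArg (fun z : B => (z : X)) hw
      exact Subtype.ext (Subtype.ext hw2)
    exact r2_elem (fun x y => mul_comm x y) hp
      (fun x => Subtype.ext (Subtype.ext (he _ (x : V).2))) hinj inferInstance
  have hmul : Nat.card V = Nat.card (V ⧸ V0) * Nat.card V0 :=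
    Subgroup.card_eq_card_quotient_mul_card_subgroup V0
  rw [hmul, pow_add]
  exact Nat.mul_le_mul hcardQ hcard0

end H36.PQ
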