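import Pool.Agent.H36.PQ.Defs

/-!
# Module Z1: derived series and finite quotients; stability groups

1. `z1_card`: a finite soluble group `Q` has `derivedSeries Q (Nat.card Q) = ⊥` (each nontrivial
   term is strictly larger than the next one, so its order drops by at least 1 at each step;
   when the order is 1 we stop).
2. `z1_ker`: if `f : H →* Q`, `Q` finite with `Nat.card Q ≤ n`, `H` soluble, then
   `derivedSeries H n ≤ f.ker` (apply 1 to the range of `f`, which is soluble).
3. `z1_sub`: if `derivedSeries H a ≤ N` then `derivedSeries H (a + b)` is contained in the image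
   of `derivedSeries N b` (induction on `b`, commutator of images).
4. `z1_stab`: `C ≥ D` subgroups of `X`, a subgroup `E` of `X` centralises `D`, and
   `⁅g, x⁆ ∈ D` for `g ∈ E`, `x ∈ C`. Then `⁅E, E⁆` centralises `C`.
   (Three subgroups lemma `Subgroup.commutator_commutator_eq_bot_of_rotate`, applied to
   `C, E, E`: `⁅⁅E, C⁆, E⁆ ≤ ⁅D, E⁆ = ⊥`.)
5. `z1_DS`: `DS K n` is the image of `derivedSeries K n`; `z1_DS_map`, `z1_DS_mono`,
   `z1_DS_normal`, `z1_DS_add`, `z1_DS_top` are elementary facts.
-/

set_option autoImplicit false

namespace H36.PQ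

open Subgroup H36.PP
open scoped commutatorElement

theorem z1_card {Q : Type*} [Group Q] [Finite Q] (hs : Group.IsSolvable Q) :
    derivedSeries Q (Nat.card Q) = ⊥ := by
  have key : ∀ n : ℕ, derivedSeries Q n = ⊥ ∨
      Nat.card (derivedSeries Q n) + n ≤ Nat.card Q := by
    intro n
    induction n with
    | zero =>
      right
      simp
    | succ n ih =>
      rcases ih with ih | ih
      · left
        rw [derivedSeries_succ, ih, commutator_bot_left]
      · by_cases h0 : derivedSeries Q n = ⊥
        · left
          rw [derivedSeries_succ, h0, commutator_bot_left]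
        · right
          have hlt : derivedSeries Q (n + 1) < derivedSeries Q n := by
            refine lt_of_le_of_ne (derivedSeries_antitone Q (Nat.le_succ n)) ?_
            intro he
            obtain ⟨m, hm⟩ := hs.solvable
            have hc : ∀ k, derivedSeries Q (n + k) = derivedSeries Q n := by
              intro k
              induction k with
              | zero => rfl
              | succ k ihk =>
                rw [← Nat.add_assoc, derivedSeries_succ, ihk, ← derivedSeries_succ, he]
            apply h0
            rw [← hc m, ← le_bot_iff, ← hm]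
            exact derivedSeries_antitone Q (Nat.le_add_left m n)
          have hcard : Nat.card (derivedSeries Q (n + 1)) < Nat.card (derivedSeries Q n) := by
            by_contra hcon
            push Not at hcon
            exact hlt.ne (Subgroup.eq_of_le_of_card_ge hlt.le hcon)
          omega
  rcases key (Nat.card Q) with h | h
  · exact h
  · have : 0 < Nat.card (derivedSeries Q (Nat.card Q)) := Nat.card_pos
    omega

theorem z1_ker {H : Type*} [Group H] (hs : Group.IsSolvable H) {Q : Type*} [Group Q] [Finite Q]
    (f : H →* Q) (n : ℕ) (hn : Nat.card Q ≤ n) : derivedSeries H n ≤ f.ker := by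
  have := hs
  have hr : Group.IsSolvable f.range :=
    Group.isSolvable_of_surjective (MonoidHom.rangeRestrict_surjective f)
  have h1 := z1_card hr
  have h2 : derivedSeries f.range n = ⊥ := by
    rw [← le_bot_iff, ← h1]
    refine derivedSeries_antitone _ (le_trans ?_ hn)
    exact Nat.card_le_card_of_injective _ f.range.subtype_injective
  have h3 : (derivedSeries H n).map f.rangeRestrict ≤ ⊥ := by
    rw [← h2]
    exact map_derivedSeries_le_derivedSeries _ n
  rw [← MonoidHom.ker_rangeRestrict f]
  exact (Subgroup.map_eq_bot_iff _).mp (le_bot_iff.mp h3)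

theorem z1_sub {H : Type*} [Group H] (N : Subgroup H) (a b : ℕ) (h : derivedSeries H a ≤ N) :
    derivedSeries H (a + b) ≤ (derivedSeries N b).map N.subtype := by
  induction b with
  | zero =>
    rw [Nat.add_zero, derivedSeries_zero, ← MonoidHom.range_eq_map, Subgroup.range_subtype]
    exact h
  | succ b ih =>
    rw [← Nat.add_assoc, derivedSeries_succ, derivedSeries_succ, Subgroup.map_commutator]
    exact Subgroup.commutator_mono ih ih

theorem z1_stab {X : Type*} [Group X] (C D E : Subgroup X)
    (hD : ∀ g ∈ E, ∀ x ∈ D, g * x = x * g) (hC : ∀ g ∈ E, ∀ x ∈ C, ⁅g, x⁆ ∈ D) :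
    ∀ g ∈ ⁅E, E⁆, ∀ x ∈ C, g * x = x * g := by
  have h1 : ⁅⁅E, C⁆, E⁆ = ⊥ := by
    rw [← le_bot_iff]
    refine le_trans (Subgroup.commutator_mono (Subgroup.commutator_le.mpr hC) le_rfl) ?_
    rw [le_bot_iff, commutator_eq_bot_iff_le_centralizer]
    intro x hx
    rw [mem_centralizer_iff]
    intro g hg
    exact hD g hg x hx
  have h2 : ⁅⁅C, E⁆, E⁆ = ⊥ := by
    rw [Subgroup.commutator_comm C E]
    exact h1
  have h3 := Subgroup.commutator_commutator_eq_bot_of_rotate h1 h2
  rw [commutator_eq_bot_iff_le_centralizer] at h3
  intro g hg x hx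
  exact ((mem_centralizer_iff.mp (h3 hg)) x hx).symm

theorem z1_DS {X : Type*} [Group X] (K : Subgroup X) (n : ℕ) :
    DS K n = (derivedSeries K n).map K.subtype := by
  induction n with
  | zero =>
    rw [derivedSeries_zero, ← MonoidHom.range_eq_map, Subgroup.range_subtype]
    rfl
  | succ n ih =>
    rw [derivedSeries_succ, Subgroup.map_commutator, ← ih]
    rfl

theorem z1_DS_top {X : Type*} [Group X] (n : ℕ) : DS (⊤ : Subgroup X) n = derivedSeries X n := by
  induction n with
  | zero => rfl
  | succ n ih =>
    rw [derivedSeries_succ, ← ih]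
    rfl

theorem z1_DS_mono {X : Type*} [Group X] {K L : Subgroup X} (h : K ≤ L) (n : ℕ) :
    DS K n ≤ DS L n := by
  induction n with
  | zero => exact h
  | succ n ih => exact Subgroup.commutator_mono ih ih

theorem z1_DS_anti {X : Type*} [Group X] (K : Subgroup X) {m n : ℕ} (h : m ≤ n) :
    DS K n ≤ DS K m := by
  rw [z1_DS, z1_DS]
  exact Subgroup.map_mono (derivedSeries_antitone K h)

theorem z1_DS_normal {X : Type*} [Group X] (K : Subgroup X) [K.Normal] (n : ℕ) :
    (DS K n).Normal := by
  induction n with
  | zero => assumption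
  | succ n ih => exact Subgroup.commutator_normal _ _

theorem z1_DS_add {X : Type*} [Group X] (K : Subgroup X) (a b : ℕ) :
    DS K (a + b) = DS (DS K a) b := by
  induction b with
  | zero => rfl
  | succ b ih =>
    change ⁅DS K (a + b), DS K (a + b)⁆ = ⁅DS (DS K a) b, DS (DS K a) b⁆
    rw [ih]

theorem z1_DS_map {X Y : Type*} [Group X] [Group Y] (f : X →* Y) (K : Subgroup X) (n : ℕ) :
    (DS K n).map f = DS (K.map f) n := by
  induction n with
  | zero => rfl
  | succ n ih =>
    change (⁅DS K n, DS K n⁆).map f = ⁅DS (K.map f) n, DS (K.map f) n⁆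
    rw [Subgroup.map_commutator, ih]

end H36.PQ
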