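import Pool.Agent.H36.PQ.Z1

/-!
# Module Z2: Zassenhaus, the reducible case

Let `Zc s t`, `finrank V ≤ s + 1`, `H` soluble, `ρ : H →* End V`, `W` an invariant subspace,
`W ≠ ⊥`, `W ≠ ⊤`. Both `W` and `V ⧸ W` have dimension at most `s`, so `derivedSeries H t` acts
trivially on both. So for `g, h ∈ derivedSeries H t`: `(ρ g - 1) V ⊆ W` and `(ρ g - 1) W = 0`, so
`(ρ g - 1)(ρ h - 1) = 0`, `ρ g` and `ρ h` commute, and every commutator of such elements acts
trivially. The group `derivedSeries H (t+1)` is generated by such commutators.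
(`LinearMap.restrict` and `Submodule.mapQ` give the representations on `W` and on `V ⧸ W`;
`ρ h` is invertible with inverse `ρ h⁻¹`.)
-/

set_option autoImplicit false

universe u

namespace H36.PQ

open Subgroup H36.PP
open scoped commutatorElement

theorem z2_reducible {s t : ℕ} (hZ : Zc.{u} s t) (F : Type) [Field F] [IsAlgClosed F] (V : Type)
    [AddCommGroup V] [Module F V] [FiniteDimensional F V] (H : Type u) [Group H]
    (ρ : H →* (V →ₗ[F] V)) (hd : Module.finrank F V ≤ s + 1) (hs : Group.IsSolvable H)
    (W : Submodule F V) (hW : ∀ h : H, ∀ w ∈ W, ρ h w ∈ W) (hb : W ≠ ⊥) (ht : W ≠ ⊤) :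
    ∀ h ∈ derivedSeries H (t + 1), ρ h = 1 := by
  classical
  -- the representation on `W`
  have hrW : ∀ g ∈ derivedSeries H t, ∀ w ∈ W, ρ g w = w := by
    let ρW : H →* (W →ₗ[F] W) :=
      { toFun := fun h => (ρ h).restrict (hW h)
        map_one' := by
          ext w
          simp
        map_mul' := by
          intro a b
          ext w
          simp }
    have hfW : Module.finrank F W ≤ s := by
      have := Submodule.finrank_lt ht
      omega
    intro g hg w hw
    have h1 := hZ F W H ρW hfW hs g hg
    have h2 := LinearMap.congr_fun h1 ⟨w, hw⟩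
    have h3 := congrArg Subtype.val h2
    exact h3
  -- the representation on `V ⧸ W`
  have hrQ : ∀ g ∈ derivedSeries H t, ∀ v, ρ g v - v ∈ W := by
    let ρQ : H →* ((V ⧸ W) →ₗ[F] (V ⧸ W)) :=
      { toFun := fun h => W.mapQ W (ρ h) (fun w hw => hW h w hw)
        map_one' := by
          apply LinearMap.ext
          intro x
          obtain ⟨v, rfl⟩ := Submodule.Quotient.mk_surjective W x
          simp
        map_mul' := by
          intro a b
          apply LinearMap.ext
          intro x
          obtain ⟨v, rfl⟩ := Submodule.Quotient.mk_surjective W x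
          simp }
    have hfQ : Module.finrank F (V ⧸ W) ≤ s := by
      have h1 := Submodule.finrank_quotient_add_finrank W
      have h2 : 1 ≤ Module.finrank F W := Submodule.one_le_finrank_iff.mpr hb
      omega
    intro g hg v
    have h1 := hZ F (V ⧸ W) H ρQ hfQ hs g hg
    have h2 := LinearMap.congr_fun h1 (Submodule.Quotient.mk v)
    have h3 : (Submodule.Quotient.mk (ρ g v) : V ⧸ W) = Submodule.Quotient.mk v := h2
    exact (Submodule.Quotient.eq W).mp h3
  have key : ∀ g ∈ derivedSeries H t, ∀ h ∈ derivedSeries H t, ∀ v,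
      ρ (g * h) v = ρ g v + ρ h v - v := by
    intro g hg h hh v
    have h1 : ρ (g * h) v = ρ g (ρ h v) := by
      rw [map_mul]
      rfl
    have h2 : ρ h v = v + (ρ h v - v) := by abel
    rw [h1, h2, map_add, hrW g hg _ (hrQ h hh v)]
    abel
  have hle : derivedSeries H (t + 1) ≤ ρ.ker := by
    rw [derivedSeries_succ, commutator_le]
    intro g hg h hh
    rw [MonoidHom.mem_ker]
    have hcomm : ρ (g * h) = ρ (h * g) := by
      apply LinearMap.ext
      intro v
      rw [key g hg h hh v, key h hh g hg v]
      abel
    have h1 : ⁅g, h⁆ = (g * h) * (h * g)⁻¹ := by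
      rw [commutatorElement_def]
      group
    rw [h1, map_mul, hcomm, ← map_mul, mul_inv_cancel, map_one]
  intro h hh
  exact MonoidHom.mem_ker.mp (hle hh)

end H36.PQ
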