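import Pool.Agent.H36.PQ.Z1

/-!
# Module Z3: Zassenhaus, the imprimitive case

`ρ : H →* End V` irreducible (no invariant subspace except `⊥`, `⊤`), `F` algebraically closed,
`finrank V ≤ s + 1`, `H` soluble, `N` a normal subgroup of `H` such that the `ρ n`, `n ∈ N`,
commute, and some `ρ n`, `n ∈ N`, is not a scalar. Then `derivedSeries H ((s+1)! + t)` acts
trivially if `Zc s t`.

Proof. For a function `χ : N → F` let `V_χ = {v : ρ n v = χ n • v for all n ∈ N}`. These spaces are
independent for different `χ` (if nonzero), so at most `s + 1` of them are nonzero. The commuting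
operators `ρ n` have a common eigenvector (algebraically closed, finite dimension; induction on the
dimension: if all `ρ n` are scalars on a subspace take any vector, otherwise pass to an eigenspace,
or use `Module.End.iSup_...` results of Mathlib on simultaneous eigenspaces), so some `V_χ ≠ 0`.
`H` permutes the spaces: `ρ h V_χ = V_(χ^h)`, `χ^h n = χ (h⁻¹ n h)`. So the sum of all `V_χ` is
invariant and nonzero, so it is `V` (irreducible). As some `ρ n` is not a scalar, every `V_χ ≠ V`.
Let `Ω` be the finite set of the nonzero `V_χ`, `|Ω| ≤ s + 1`; `H → Perm Ω` has a kernel `H₀`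
which contains `derivedSeries H ((s+1)!)` by `z1_ker` (`card (Perm Ω) ≤ (s+1)!`). `H₀` leaves each
`V_χ` invariant, and `dim V_χ ≤ s`; by `Zc s t` for the group `H₀` the group
`derivedSeries H₀ t` acts trivially on every `V_χ`, hence on `V`. Use `z1_sub`.
-/

set_option autoImplicit false

universe u

namespace H36.PQ

open Subgroup H36.PP

section Z3

variable {F : Type} [Field F] {V : Type} [AddCommGroup V] [Module F V] {H : Type u} [Group H]

/-- weight spaces -/
private def z3W (ρ : H →* (V →ₗ[F] V)) (N : Subgroup H) (χ : N → F) : Submodule F V where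
  carrier := {v | ∀ n : N, ρ n v = χ n • v}
  zero_mem' := by intro n; simp
  add_mem' := by
    intro a b ha hb n
    rw [map_add, ha n, hb n, smul_add]
  smul_mem' := by
    intro c v hv n
    rw [map_smul, hv n, smul_comm]

private theorem z3W_mem (ρ : H →* (V →ₗ[F] V)) (N : Subgroup H) (χ : N → F) (v : V) :
    v ∈ z3W ρ N χ ↔ ∀ n : N, ρ n v = χ n • v := Iff.rfl

private theorem z3_indep (ρ : H →* (V →ₗ[F] V)) (N : Subgroup H)
    (hN : ∀ x ∈ N, ∀ y ∈ N, ρ x * ρ y = ρ y * ρ x) : iSupIndep (z3W ρ N) := by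
  have h1 := Module.End.independent_iInf_maxGenEigenspace_of_forall_mapsTo
    (fun n : N => (ρ n : Module.End F V)) (by
      intro i j φ
      apply Module.End.mapsTo_maxGenEigenspace_of_comm
      exact hN j j.2 i i.2)
  refine h1.mono ?_
  intro χ v hv
  rw [Submodule.mem_iInf]
  intro n
  apply Module.End.eigenspace_le_maxGenEigenspace
  rw [Module.End.mem_eigenspace_iff]
  exact hv n

private theorem z3_exists [IsAlgClosed F] [FiniteDimensional F V] [Nontrivial V]
    (ρ : H →* (V →ₗ[F] V)) (N : Subgroup H)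
    (hN : ∀ x ∈ N, ∀ y ∈ N, ρ x * ρ y = ρ y * ρ x) : ∃ χ : N → F, z3W ρ N χ ≠ ⊥ := by
  classical
  obtain ⟨U, ⟨hU0, hUi⟩, hmin⟩ := (wellFounded_lt (α := Submodule F V)).has_min
    {U | U ≠ ⊥ ∧ ∀ n ∈ N, ∀ v ∈ U, ρ n v ∈ U} ⟨⊤, top_ne_bot, by intros; trivial⟩
  have : Nontrivial U := Submodule.nontrivial_iff_ne_bot.mpr hU0
  have key : ∀ n : N, ∃ c : F, ∀ v ∈ U, ρ n v = c • v := by
    intro n
    let f : Module.End F U := (ρ n).restrict (hUi n n.2)
    obtain ⟨c, hc⟩ := Module.End.exists_eigenvalue f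
    obtain ⟨w, hw⟩ := hc.exists_hasEigenvector
    refine ⟨c, ?_⟩
    let U' : Submodule F V := U ⊓ Module.End.eigenspace (ρ n : Module.End F V) c
    have hw1 : (w : V) ∈ U' := by
      refine ⟨w.2, ?_⟩
      rw [SetLike.mem_coe, Module.End.mem_eigenspace_iff]
      have := hw.apply_eq_smul
      have h2 := congrArg (Subtype.val) this
      simpa [f] using h2
    have hU'0 : U' ≠ ⊥ := by
      intro h
      rw [h, Submodule.mem_bot] at hw1
      exact hw.2 (by ext; simpa using hw1)
    have hU'i : ∀ m ∈ N, ∀ v ∈ U', ρ m v ∈ U' := by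
      intro m hm v hv
      refine ⟨hUi m hm v hv.1, ?_⟩
      have hv2 := hv.2
      rw [SetLike.mem_coe, Module.End.mem_eigenspace_iff] at hv2 ⊢
      have := congrArg (fun T : V →ₗ[F] V => T v) (hN n n.2 m hm)
      simp only [Module.End.mul_apply] at this
      rw [this, hv2, map_smul]
    have hle : ¬ U' < U := hmin U' ⟨hU'0, hU'i⟩
    have heq : U' = U := by
      by_contra hne
      exact hle (lt_of_le_of_ne inf_le_left hne)
    intro v hv
    rw [← heq] at hv
    have hv2 := hv.2
    rw [SetLike.mem_coe, Module.End.mem_eigenspace_iff] at hv2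
    exact hv2
  choose χ hχ using key
  refine ⟨χ, ?_⟩
  intro h
  obtain ⟨v, hv, hv0⟩ := Submodule.exists_mem_ne_zero_of_ne_bot hU0
  have : v ∈ z3W ρ N χ := fun n => hχ n v hv
  rw [h, Submodule.mem_bot] at this
  exact hv0 this

/-- action on weights -/
private def z3act (N : Subgroup H) [N.Normal] (h : H) (χ : N → F) : N → F :=
  fun n => χ ⟨h⁻¹ * n * h, by
    have := Subgroup.Normal.conj_mem (inferInstance : N.Normal) (n : H) n.2 h⁻¹
    simpa using this⟩

private theorem z3act_one (N : Subgroup H) [N.Normal] (χ : N → F) : z3act N 1 χ = χ := by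
  funext n
  simp [z3act]

private theorem z3act_mul (N : Subgroup H) [N.Normal] (h k : H) (χ : N → F) :
    z3act N (h * k) χ = z3act N h (z3act N k χ) := by
  funext n
  simp only [z3act]
  congr 2
  group

private theorem z3_map (ρ : H →* (V →ₗ[F] V)) (N : Subgroup H) [N.Normal] (h : H) (χ : N → F)
    (v : V) (hv : v ∈ z3W ρ N χ) : ρ h v ∈ z3W ρ N (z3act N h χ) := by
  intro n
  have h1 := hv ⟨h⁻¹ * n * h, by
    have := Subgroup.Normal.conj_mem (inferInstance : N.Normal) (n : H) n.2 h⁻¹
    simpa using this⟩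
  have h2 : ρ (n : H) (ρ h v) = ρ h (ρ (h⁻¹ * n * h) v) := by
    rw [← Module.End.mul_apply, ← Module.End.mul_apply, ← map_mul, ← map_mul]
    congr 2
    group
  rw [h2]
  simp only at h1
  rw [h1, map_smul]
  rfl

private theorem z3_inj (ρ : H →* (V →ₗ[F] V)) (h : H) (v : V) (hv : ρ h v = 0) : v = 0 := by
  have : ρ h⁻¹ (ρ h v) = v := by
    rw [← Module.End.mul_apply, ← map_mul, inv_mul_cancel, map_one]
    rfl
  rw [← this, hv, map_zero]

private theorem z3_ne (ρ : H →* (V →ₗ[F] V)) (N : Subgroup H) [N.Normal] (h : H) (χ : N → F)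
    (hχ : z3W ρ N χ ≠ ⊥) : z3W ρ N (z3act N h χ) ≠ ⊥ := by
  obtain ⟨v, hv, hv0⟩ := Submodule.exists_mem_ne_zero_of_ne_bot hχ
  intro h0
  have h1 := z3_map ρ N h χ v hv
  rw [h0, Submodule.mem_bot] at h1
  exact hv0 (z3_inj ρ h v h1)

end Z3

theorem z3_imprimitive {s t : ℕ} (hZ : Zc.{u} s t) (F : Type) [Field F] [IsAlgClosed F] (V : Type)
    [AddCommGroup V] [Module F V] [FiniteDimensional F V] (H : Type u) [Group H]
    (ρ : H →* (V →ₗ[F] V)) (hd : Module.finrank F V ≤ s + 1) (hs : Group.IsSolvable H)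
    (hirr : ∀ W : Submodule F V, (∀ h : H, ∀ w ∈ W, ρ h w ∈ W) → W = ⊥ ∨ W = ⊤)
    (N : Subgroup H) [N.Normal] (hN : ∀ x ∈ N, ∀ y ∈ N, ρ x * ρ y = ρ y * ρ x)
    (n : H) (hn : n ∈ N) (hns : ¬ IsScal (ρ n)) :
    ∀ h ∈ derivedSeries H ((s + 1).factorial + t), ρ h = 1 := by
  classical
  rcases subsingleton_or_nontrivial V with hV | hV
  · intro h _
    ext v
    exact Subsingleton.elim _ _
  have hind := z3_indep ρ N hN
  obtain ⟨χ0, hχ0⟩ := z3_exists ρ N hN
  have htop : (⨆ χ, z3W ρ N χ) = ⊤ := by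
    rcases hirr (⨆ χ, z3W ρ N χ) (by
      intro h w hw
      induction hw using Submodule.iSup_induction' with
      | mem χ v hv => exact Submodule.mem_iSup_of_mem _ (z3_map ρ N h χ v hv)
      | zero => rw [map_zero]; exact zero_mem _
      | add x y _ _ hx hy => rw [map_add]; exact add_mem hx hy) with h | h
    · exfalso
      apply hχ0
      rw [eq_bot_iff, ← h]
      exact le_iSup (z3W ρ N) χ0
    · exact h
  have hnt : ∀ χ, z3W ρ N χ ≠ ⊤ := by
    intro χ h
    apply hns
    refine ⟨χ ⟨n, hn⟩, ?_⟩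
    ext v
    have hv : v ∈ z3W ρ N χ := by rw [h]; trivial
    have := hv ⟨n, hn⟩
    simpa using this
  letI : Fintype {χ : N → F // z3W ρ N χ ≠ ⊥} := hind.fintypeNeBotOfFiniteDimensional
  have hcard : Fintype.card {χ : N → F // z3W ρ N χ ≠ ⊥} ≤ s + 1 :=
    hind.subtype_ne_bot_le_finrank.trans hd
  let act : MulAction H {χ : N → F // z3W ρ N χ ≠ ⊥} :=
    { smul := fun h χ => ⟨z3act N h χ.1, z3_ne ρ N h χ.1 χ.2⟩
      one_smul := fun χ => Subtype.ext (z3act_one N χ.1)
      mul_smul := fun h k χ => Subtype.ext (z3act_mul N h k χ.1) }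
  let f : H →* Equiv.Perm {χ : N → F // z3W ρ N χ ≠ ⊥} :=
    @MulAction.toPermHom H {χ : N → F // z3W ρ N χ ≠ ⊥} _ act
  have hf : ∀ h ∈ f.ker, ∀ χ : {χ : N → F // z3W ρ N χ ≠ ⊥}, z3act N h χ.1 = χ.1 := by
    intro h hh χ
    have h1 : f h χ = χ := by
      rw [MonoidHom.mem_ker.mp hh]
      rfl
    exact congrArg Subtype.val h1
  have hker : derivedSeries H ((s + 1).factorial) ≤ f.ker := by
    apply z1_ker hs f
    rw [Nat.card_eq_fintype_card, Fintype.card_perm]
    exact Nat.factorial_le hcard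
  have hsub := z1_sub f.ker ((s + 1).factorial) t hker
  intro h hh
  obtain ⟨g, hg, rfl⟩ := Subgroup.mem_map.mp (hsub hh)
  have hsK : Group.IsSolvable f.ker := inferInstance
  have hfix : ∀ χ : N → F, ∀ v ∈ z3W ρ N χ, ρ (g : H) v = v := by
    intro χ v hv
    by_cases hχ : z3W ρ N χ = ⊥
    · rw [hχ, Submodule.mem_bot] at hv
      rw [hv, map_zero]
    · have hinv : ∀ k : f.ker, ∀ w ∈ z3W ρ N χ, ρ (k : H) w ∈ z3W ρ N χ := by
        intro k w hw
        have := z3_map ρ N (k : H) χ w hw
        rwa [hf k k.2 ⟨χ, hχ⟩] at this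
      let ρ' : f.ker →* (z3W ρ N χ →ₗ[F] z3W ρ N χ) :=
        { toFun := fun k => (ρ (k : H)).restrict (hinv k)
          map_one' := by
            ext w
            simp [LinearMap.restrict_apply]
          map_mul' := by
            intro a b
            ext w
            simp [LinearMap.restrict_apply] }
      have hfr : Module.finrank F (z3W ρ N χ) ≤ s := by
        have := Submodule.finrank_lt (hnt χ)
        omega
      have := hZ F (z3W ρ N χ) f.ker ρ' hfr hsK g hg
      have h2 := congrArg (fun T : z3W ρ N χ →ₗ[F] z3W ρ N χ => ((T ⟨v, hv⟩ : z3W ρ N χ) : V)) this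
      simpa [ρ', LinearMap.restrict_apply] using h2
  ext v
  have hv : v ∈ (⨆ χ, z3W ρ N χ) := by rw [htop]; trivial
  have : ρ (g : H) v = v := by
    induction hv using Submodule.iSup_induction' with
    | mem χ v hv => exact hfix χ v hv
    | zero => rw [map_zero]
    | add x y _ _ hx hy => rw [map_add, hx, hy]
  simpa using this

end H36.PQ
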