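import Pool.Agent.H36.PQ.Z1

/-!
# Module Z4: Zassenhaus, the primitive case

`ρ : H →* End V`, `V` of dimension between 1 and `d`, `H` soluble, such that for every normal
subgroup `N` of `H` for which the `ρ n`, `n ∈ N`, commute, all `ρ n` are scalars; suppose not all
`ρ h` are scalars. Then there is `b : H` such that `ρ b` is not a scalar and commutes with `ρ h`
for all `h ∈ derivedSeries H ((d^2)! + 1)`.

Proof. `Z = {h | ρ h is a scalar}` is a normal subgroup of `H`, `Z ≠ ⊤`. Let `B` be the last term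
of the derived series of `H` which is not contained in `Z`: `B` is normal in `H`, `⁅B, B⁆ ≤ Z`,
`B` is not contained in `Z`. For `x, y ∈ B` there is a nonzero scalar `c(x,y)` with
`ρ x ρ y = c(x,y) ρ y ρ x`, since `⁅x, y⁆ ∈ Z`. The group
`{x ∈ B | c(x, y) = 1 for all y ∈ B}` is normal in `H` and its image under `ρ` is commutative, so
it is contained in `Z`.
(1) Elements of `B` in different cosets of `B ⊓ Z` are linearly independent operators: take a
shortest relation `∑ a_i ρ x_i = 0` with at least two terms; as `x_1⁻¹ x_2 ∉ Z` there is `y ∈ B` with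
`c(x_1, y) ≠ c(x_2, y)`; conjugate the relation by `ρ y`, subtract a multiple: shorter relation.
So `B ⊓ Z` has at most `d^2` cosets in `B`.
(2) `H` acts by conjugation on the finite set `B / (B ⊓ Z)`; the kernel `D` of this action contains
`derivedSeries H ((d^2)!)` (`z1_ker`). For `h ∈ D`, `x ∈ B` we have `⁅h, x⁆ ∈ Z`, so
`ρ h ρ x = e(h,x) ρ x ρ h` with a scalar `e(h,x) ≠ 0`, and `h ↦ e(h,x)` is a homomorphism from `D`
to `Fˣ`; so `⁅D, D⁆` commutes with every `ρ x`, `x ∈ B`. Take `b ∈ B`, `b ∉ Z`.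
-/

set_option autoImplicit false

universe u

namespace H36.PQ

open Subgroup H36.PP
open scoped commutatorElement

section Z4aux

variable {F : Type} [Field F] {V : Type} [AddCommGroup V] [Module F V] {H : Type u} [Group H]

private theorem z4_scal_comm {T : V →ₗ[F] V} (hT : IsScal T) (S : V →ₗ[F] V) : T * S = S * T := by
  obtain ⟨c, rfl⟩ := hT
  rw [smul_mul_assoc, mul_smul_comm, one_mul, mul_one]

/-- the subgroup of the elements acting as scalars -/
private def z4Z [Nontrivial V] (ρ : H →* (V →ₗ[F] V)) : Subgroup H where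
  carrier := {h | IsScal (ρ h)}
  mul_mem' := by
    rintro a b ⟨c, hc⟩ ⟨d, hd⟩
    refine ⟨c * d, ?_⟩
    rw [map_mul, hc, hd, smul_mul_smul_comm, one_mul]
  one_mem' := ⟨1, by rw [map_one, one_smul]⟩
  inv_mem' := by
    rintro a ⟨c, hc⟩
    have h1 : ρ a * ρ a⁻¹ = 1 := by rw [← map_mul, mul_inv_cancel, map_one]
    rw [hc, smul_mul_assoc, one_mul] at h1
    have hc0 : c ≠ 0 := by
      rintro rfl
      rw [zero_smul] at h1
      exact zero_ne_one h1
    exact ⟨c⁻¹, by rw [← h1, smul_smul, inv_mul_cancel₀ hc0, one_smul]⟩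

private theorem z4_memZ [Nontrivial V] (ρ : H →* (V →ₗ[F] V)) (h : H) :
    h ∈ z4Z ρ ↔ IsScal (ρ h) := Iff.rfl

private theorem z4_normalZ [Nontrivial V] (ρ : H →* (V →ₗ[F] V)) : (z4Z ρ).Normal := by
  constructor
  rintro n ⟨c, hc⟩ g
  refine ⟨c, ?_⟩
  rw [map_mul, map_mul, hc, mul_smul_comm, mul_one, smul_mul_assoc, ← map_mul, mul_inv_cancel,
    map_one]

/-- conjugation acts by a scalar when the commutator is a scalar -/
private theorem z4_conj [Nontrivial V] (ρ : H →* (V →ₗ[F] V)) (y x : H) (h : ⁅y, x⁆ ∈ z4Z ρ) :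
    ∃ c : F, ρ y * ρ x * ρ y⁻¹ = c • ρ x := by
  obtain ⟨c, hc⟩ := h
  refine ⟨c, ?_⟩
  have : y * x * y⁻¹ = ⁅y, x⁆ * x := by
    rw [commutatorElement_def]; group
  rw [← map_mul, ← map_mul, this, map_mul, hc, smul_mul_assoc, one_mul]

private theorem z4_ne [Nontrivial V] (ρ : H →* (V →ₗ[F] V)) (x : H) : ρ x ≠ 0 := by
  intro h
  have h1 : ρ x * ρ x⁻¹ = 1 := by rw [← map_mul, mul_inv_cancel, map_one]
  rw [h, zero_mul] at h1
  exact zero_ne_one h1

/-- from conjugation to commutation -/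
private theorem z4_comm_of_conj (ρ : H →* (V →ₗ[F] V)) (y x : H)
    (h : ρ y * ρ x * ρ y⁻¹ = ρ x) : ρ y * ρ x = ρ x * ρ y := by
  have h1 : ρ y⁻¹ * ρ y = 1 := by rw [← map_mul, inv_mul_cancel, map_one]
  calc ρ y * ρ x = ρ y * ρ x * (ρ y⁻¹ * ρ y) := by rw [h1, mul_one]
    _ = (ρ y * ρ x * ρ y⁻¹) * ρ y := by simp only [mul_assoc]
    _ = ρ x * ρ y := by rw [h]

/-- (1) linear independence -/
private theorem z4_linind [Nontrivial V] (ρ : H →* (V →ₗ[F] V)) (B : Subgroup H)
    (hBB : ⁅B, B⁆ ≤ z4Z ρ)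
    (hC : ∀ x ∈ B, (∀ y ∈ B, ρ y * ρ x = ρ x * ρ y) → x ∈ z4Z ρ)
    {ι : Type u} (b : ι → H) (hb : ∀ i, b i ∈ B) (hij : ∀ i j, (b i)⁻¹ * b j ∈ z4Z ρ → i = j) :
    LinearIndependent F (fun i => ρ (b i)) := by
  classical
  rw [linearIndependent_iff']
  intro s
  induction s using Finset.induction_on with
  | empty => intro a _ i hi; exact absurd hi (Finset.notMem_empty i)
  | insert i0 s hi0 ih =>
    intro a ha
    have key : ∀ j ∈ s, a j = 0 := by
      intro j hj
      have hne : (b i0)⁻¹ * b j ∉ z4Z ρ := by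
        intro h
        have := hij _ _ h
        subst this
        exact hi0 hj
      have hB : (b i0)⁻¹ * b j ∈ B := B.mul_mem (B.inv_mem (hb _)) (hb _)
      have : ∃ y ∈ B, ρ y * ρ ((b i0)⁻¹ * b j) ≠ ρ ((b i0)⁻¹ * b j) * ρ y := by
        by_contra hcon
        push Not at hcon
        exact hne (hC _ hB hcon)
      obtain ⟨y, hy, hyn⟩ := this
      have hsc : ∀ i, ∃ c : F, ρ y * ρ (b i) * ρ y⁻¹ = c • ρ (b i) := fun i =>
        z4_conj ρ y (b i) (hBB (commutator_mem_commutator hy (hb i)))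
      choose c hc using hsc
      have hcne : c j ≠ c i0 := by
        intro hcc
        apply hyn
        apply z4_comm_of_conj
        -- ρ y ρ(b i0) ρ y⁻¹ = c ρ (b i0), so multiply
        have h1 : ρ y⁻¹ * ρ y = 1 := by rw [← map_mul, inv_mul_cancel, map_one]
        have hbj : ρ (b j) = ρ (b i0) * ρ ((b i0)⁻¹ * b j) := by
          rw [← map_mul, mul_inv_cancel_left]
        have h2 := hc j
        rw [hcc, hbj] at h2
        have h3 : ρ y * (ρ (b i0) * ρ ((b i0)⁻¹ * b j)) * ρ y⁻¹ =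
            (ρ y * ρ (b i0) * ρ y⁻¹) * (ρ y * ρ ((b i0)⁻¹ * b j) * ρ y⁻¹) := by
          calc ρ y * (ρ (b i0) * ρ ((b i0)⁻¹ * b j)) * ρ y⁻¹
              = ρ y * ρ (b i0) * (1 * (ρ ((b i0)⁻¹ * b j) * ρ y⁻¹)) := by
                rw [one_mul]; simp only [mul_assoc]
            _ = _ := by rw [← h1]; simp only [mul_assoc]
        rw [h3, hc i0, smul_mul_assoc] at h2
        have hc0 : c i0 ≠ 0 := by
          intro h0
          have h4 := hc i0
          rw [h0, zero_smul] at h4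
          rw [← map_mul, ← map_mul] at h4
          exact z4_ne ρ _ h4
        have h5 := smul_right_injective (V →ₗ[F] V) hc0 h2
        have h6 : ρ (b i0)⁻¹ * ρ (b i0) = 1 := by rw [← map_mul, inv_mul_cancel, map_one]
        have h7 := congrArg (fun T => ρ (b i0)⁻¹ * T) h5
        simp only [← mul_assoc] at h7
        rw [h6, one_mul, one_mul] at h7
        simpa only [mul_assoc] using h7
      have hconj : ∑ i ∈ insert i0 s, (a i * c i) • ρ (b i) = 0 := by
        have h1 := congrArg (fun T => ρ y * T * ρ y⁻¹) ha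
        simp only [mul_zero, zero_mul, Finset.mul_sum, Finset.sum_mul, mul_smul_comm,
          smul_mul_assoc] at h1
        rw [← h1]
        refine Finset.sum_congr rfl fun i _ => ?_
        rw [mul_smul, ← hc i]
      have hsub : ∑ i ∈ s, (a i * (c i - c i0)) • ρ (b i) = 0 := by
        have h1 : ∑ i ∈ insert i0 s, (a i * (c i - c i0)) • ρ (b i) = 0 := by
          have h2 : ∑ i ∈ insert i0 s, (a i * (c i - c i0)) • ρ (b i) =
              ∑ i ∈ insert i0 s, (a i * c i) • ρ (b i) -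
                c i0 • ∑ i ∈ insert i0 s, a i • ρ (b i) := by
            rw [Finset.smul_sum, ← Finset.sum_sub_distrib]
            refine Finset.sum_congr rfl fun i _ => ?_
            rw [smul_smul, ← sub_smul]
            congr 1
            ring
          rw [h2, hconj, ha, smul_zero, sub_zero]
        rwa [Finset.sum_insert hi0, sub_self, mul_zero, zero_smul, zero_add] at h1
      have h8 := ih _ hsub j hj
      exact (mul_eq_zero.mp h8).resolve_right (sub_ne_zero.mpr hcne)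
    intro i hi
    rcases Finset.mem_insert.mp hi with rfl | hi
    · rw [Finset.sum_insert hi0, Finset.sum_eq_zero, add_zero] at ha
      · exact (smul_eq_zero.mp ha).resolve_right (z4_ne ρ _)
      · intro j hj
        rw [key j hj, zero_smul]
    · exact key i hi

end Z4aux

theorem z4_primitive {d : ℕ} (F : Type) [Field F] (V : Type)
    [AddCommGroup V] [Module F V] [FiniteDimensional F V] [Nontrivial V] (H : Type u) [Group H]
    (ρ : H →* (V →ₗ[F] V)) (hd : Module.finrank F V ≤ d) (hs : Group.IsSolvable H)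
    (hab : ∀ N : Subgroup H, N.Normal → (∀ x ∈ N, ∀ y ∈ N, ρ x * ρ y = ρ y * ρ x) →
      ∀ n ∈ N, IsScal (ρ n))
    (hns : ¬ ∀ h : H, IsScal (ρ h)) :
    ∃ b : H, ¬ IsScal (ρ b) ∧ ∀ h ∈ derivedSeries H ((d ^ 2).factorial + 1),
      ρ h * ρ b = ρ b * ρ h := by
  classical
  have hZn : (z4Z ρ).Normal := z4_normalZ ρ
  -- the last term of the derived series not in Z
  have hex : ∃ n, derivedSeries H n ≤ z4Z ρ := by
    obtain ⟨n, hn⟩ := hs.solvable
    exact ⟨n, by rw [hn]; exact bot_le⟩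
  obtain ⟨B, hBn, hBB, hBZ⟩ : ∃ B : Subgroup H, B.Normal ∧ ⁅B, B⁆ ≤ z4Z ρ ∧ ¬ B ≤ z4Z ρ := by
    have h0 : Nat.find hex ≠ 0 := by
      intro h
      have := Nat.find_spec hex
      rw [h] at this
      exact hns fun x => this (by rw [derivedSeries_zero]; exact mem_top x)
    obtain ⟨m, hm⟩ := Nat.exists_eq_succ_of_ne_zero h0
    refine ⟨derivedSeries H m, inferInstance, ?_, Nat.find_min hex (by omega)⟩
    have := Nat.find_spec hex
    rwa [hm, Nat.succ_eq_add_one, derivedSeries_succ] at this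
  -- elements of B commuting with B are scalars
  have hC : ∀ x ∈ B, (∀ y ∈ B, ρ y * ρ x = ρ x * ρ y) → x ∈ z4Z ρ := by
    intro x hx hxy
    let C : Subgroup H :=
      { carrier := {x | x ∈ B ∧ ∀ y ∈ B, ρ y * ρ x = ρ x * ρ y}
        mul_mem' := by
          rintro a b ⟨ha, ha'⟩ ⟨hb, hb'⟩
          refine ⟨B.mul_mem ha hb, fun y hy => ?_⟩
          rw [map_mul, ← mul_assoc, ha' y hy, mul_assoc, hb' y hy, mul_assoc]
        one_mem' := ⟨B.one_mem, fun y _ => by rw [map_one, one_mul, mul_one]⟩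
        inv_mem' := by
          rintro a ⟨ha, ha'⟩
          refine ⟨B.inv_mem ha, fun y hy => ?_⟩
          have h1 : ρ a * ρ a⁻¹ = 1 := by rw [← map_mul, mul_inv_cancel, map_one]
          have h2 : ρ a⁻¹ * ρ a = 1 := by rw [← map_mul, inv_mul_cancel, map_one]
          calc ρ y * ρ a⁻¹ = (ρ a⁻¹ * ρ a) * (ρ y * ρ a⁻¹) := by rw [h2, one_mul]
            _ = ρ a⁻¹ * (ρ a * ρ y) * ρ a⁻¹ := by simp only [mul_assoc]
            _ = ρ a⁻¹ * (ρ y * ρ a) * ρ a⁻¹ := by rw [ha' y hy]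
            _ = ρ a⁻¹ * ρ y * (ρ a * ρ a⁻¹) := by simp only [mul_assoc]
            _ = ρ a⁻¹ * ρ y := by rw [h1, mul_one] }
    have hCn : C.Normal := by
      constructor
      rintro n ⟨hn, hn'⟩ g
      refine ⟨hBn.conj_mem n hn g, fun y hy => ?_⟩
      have hy' : g⁻¹ * y * g ∈ B := by
        have := hBn.conj_mem y hy g⁻¹
        rwa [inv_inv] at this
      have h1 := hn' _ hy'
      rw [← map_mul, ← map_mul] at h1
      rw [← map_mul, ← map_mul]
      have e1 : y * (g * n * g⁻¹) = g * (g⁻¹ * y * g * n) * g⁻¹ := by group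
      have e2 : g * n * g⁻¹ * y = g * (n * (g⁻¹ * y * g)) * g⁻¹ := by group
      rw [e1, e2, map_mul, map_mul, h1, ← map_mul, ← map_mul]
    refine hab C hCn ?_ x ⟨hx, hxy⟩
    rintro u ⟨hu, hu'⟩ v ⟨hv, hv'⟩
    exact hv' u hu
  -- the image of B in H / Z
  let Bq : Subgroup (H ⧸ z4Z ρ) := B.map (QuotientGroup.mk' (z4Z ρ))
  have hBqn : Bq.Normal := hBn.map _ (QuotientGroup.mk'_surjective _)
  have hsec : ∀ q : Bq, ∃ x : H, x ∈ B ∧ QuotientGroup.mk' (z4Z ρ) x = q := by
    rintro ⟨q, hq⟩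
    obtain ⟨x, hx, rfl⟩ := hq
    exact ⟨x, hx, rfl⟩
  choose b hbB hbq using hsec
  have hli : LinearIndependent F (fun q : Bq => ρ (b q)) := by
    refine z4_linind ρ B hBB hC b hbB ?_
    intro i j h
    have h1 : QuotientGroup.mk' (z4Z ρ) (b i) = QuotientGroup.mk' (z4Z ρ) (b j) := by
      rw [QuotientGroup.mk'_apply, QuotientGroup.mk'_apply, QuotientGroup.eq]
      exact h
    rw [hbq, hbq] at h1
    exact Subtype.ext h1
  have hfin : Finite Bq := hli.finite
  have hcard : Nat.card Bq ≤ d ^ 2 := by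
    have : Fintype Bq := Fintype.ofFinite Bq
    have h1 := hli.fintype_card_le_finrank
    rw [Module.finrank_linearMap] at h1
    rw [Nat.card_eq_fintype_card]
    calc Fintype.card Bq ≤ Module.finrank F V * Module.finrank F V := h1
      _ ≤ d * d := Nat.mul_le_mul hd hd
      _ = d ^ 2 := (sq d).symm
  let f : H →* Equiv.Perm Bq :=
    (MulAut.toPerm Bq).comp ((MulAut.conjNormal (H := Bq)).comp (QuotientGroup.mk' (z4Z ρ)))
  have hker : derivedSeries H ((d ^ 2).factorial) ≤ f.ker := by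
    apply z1_ker hs
    rw [Nat.card_perm]
    exact Nat.factorial_le hcard
  have hD : ∀ h ∈ f.ker, ∀ x ∈ B, ⁅h, x⁆ ∈ z4Z ρ := by
    intro h hh x hx
    have h1 : f h = 1 := hh
    have hxq : QuotientGroup.mk' (z4Z ρ) x ∈ Bq := ⟨x, hx, rfl⟩
    have h2 := congrArg (fun e : Equiv.Perm Bq => e ⟨QuotientGroup.mk' (z4Z ρ) x, hxq⟩) h1
    have h3 := congrArg (Subtype.val) h2
    have h4 : QuotientGroup.mk' (z4Z ρ) h * QuotientGroup.mk' (z4Z ρ) x *
        (QuotientGroup.mk' (z4Z ρ) h)⁻¹ = QuotientGroup.mk' (z4Z ρ) x := h3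
    rw [← QuotientGroup.ker_mk' (z4Z ρ), MonoidHom.mem_ker, commutatorElement_def, map_mul,
      map_mul, map_mul, map_inv, map_inv, h4, mul_inv_cancel]
  obtain ⟨x, hxB, hxZ⟩ := Set.not_subset.mp hBZ
  refine ⟨x, hxZ, ?_⟩
  let K : Subgroup H :=
    { carrier := {h | ρ h * ρ x = ρ x * ρ h}
      mul_mem' := by
        intro u v hu hv
        change ρ u * ρ x = ρ x * ρ u at hu
        change ρ v * ρ x = ρ x * ρ v at hv
        change ρ (u * v) * ρ x = ρ x * ρ (u * v)
        rw [map_mul, mul_assoc, hv, ← mul_assoc, hu, mul_assoc]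
      one_mem' := by
        change ρ 1 * ρ x = ρ x * ρ 1
        rw [map_one, one_mul, mul_one]
      inv_mem' := by
        intro a ha
        change ρ a * ρ x = ρ x * ρ a at ha
        change ρ a⁻¹ * ρ x = ρ x * ρ a⁻¹
        have h1 : ρ a * ρ a⁻¹ = 1 := by rw [← map_mul, mul_inv_cancel, map_one]
        have h2 : ρ a⁻¹ * ρ a = 1 := by rw [← map_mul, inv_mul_cancel, map_one]
        calc ρ a⁻¹ * ρ x = ρ a⁻¹ * ρ x * (ρ a * ρ a⁻¹) := by rw [h1, mul_one]
          _ = ρ a⁻¹ * (ρ x * ρ a) * ρ a⁻¹ := by simp only [mul_assoc]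
          _ = ρ a⁻¹ * (ρ a * ρ x) * ρ a⁻¹ := by rw [ha]
          _ = (ρ a⁻¹ * ρ a) * (ρ x * ρ a⁻¹) := by simp only [mul_assoc]
          _ = ρ x * ρ a⁻¹ := by rw [h2, one_mul] }
  have hle : derivedSeries H ((d ^ 2).factorial + 1) ≤ K := by
    rw [derivedSeries_succ]
    refine (commutator_mono hker hker).trans ?_
    rw [commutator_le]
    intro g hg h hh
    obtain ⟨c1, h1⟩ := z4_conj ρ g x (hD g hg x hxB)
    obtain ⟨c2, h2⟩ := z4_conj ρ h x (hD h hh x hxB)
    have e : ∀ u v : H, ρ (u * v) * ρ x * ρ (u * v)⁻¹ = ρ u * (ρ v * ρ x * ρ v⁻¹) * ρ u⁻¹ := by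
      intro u v
      rw [mul_inv_rev, map_mul, map_mul]
      simp only [mul_assoc]
    have e1 : ρ (g * h) * ρ x * ρ (g * h)⁻¹ = ρ (h * g) * ρ x * ρ (h * g)⁻¹ := by
      rw [e, e, h1, h2, mul_smul_comm, smul_mul_assoc, mul_smul_comm, smul_mul_assoc, h1, h2,
        smul_smul, smul_smul, mul_comm]
    change ρ ⁅g, h⁆ * ρ x = ρ x * ρ ⁅g, h⁆
    apply z4_comm_of_conj
    have k0 : ρ (h * g) * ρ x * ρ (h * g)⁻¹ = (c2 * c1) • ρ x := by
      rw [e, h1, mul_smul_comm, smul_mul_assoc, h2, smul_smul, mul_comm]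
    have k1 : ρ (g * h) * ρ x * ρ (g * h)⁻¹ = (c2 * c1) • ρ x := by rw [e1, k0]
    have hc0 : c2 * c1 ≠ 0 := by
      intro h0
      rw [h0, zero_smul, ← map_mul, ← map_mul] at k0
      exact z4_ne ρ _ k0
    have k2 : ρ (g * h) * ρ x * ρ (g * h)⁻¹ =
        ρ ⁅g, h⁆ * (ρ (h * g) * ρ x * ρ (h * g)⁻¹) * ρ ⁅g, h⁆⁻¹ := by
      simp only [← map_mul]
      congr 1
      rw [commutatorElement_def]
      group
    rw [k1, k0, mul_smul_comm, smul_mul_assoc] at k2
    exact (smul_right_injective (V →ₗ[F] V) hc0 k2).symm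
  exact fun h hh => hle hh

end H36.PQ
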