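import Pool.Agent.H36.PQ.Z2
import Pool.Agent.H36.PQ.Z3
import Pool.Agent.H36.PQ.Z4

/-!
# Module Z5: Zassenhaus' theorem

Soluble linear groups of degree at most `s` have derived length at most `t(s)`.

Over algebraically closed fields, by induction on `s`: `Zc 0 0` (a space of dimension 0). From
`Zc s t` to `s + 1`, with `t' = ((s+1)^2)! + (s+1)! + t + 3`: let `ρ : H →* End V`,
`finrank V ≤ s + 1`. If `V` is trivial nothing to do. If some invariant `W ≠ ⊥, ⊤` exists use
`z2_reducible`. If a normal `N` with commuting nonscalar image exists use `z3_imprimitive`. If all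
`ρ h` are scalars then they commute and `derivedSeries H 1` acts trivially. Otherwise let `b` be as
in `z4_primitive` (with `d = s + 1`), `m = ((s+1)^2)! + 1`, `E = derivedSeries H m`; let `W` be an
eigenspace of `ρ b` (`Module.End.exists_eigenvalue`): `W ≠ ⊥`, `W ≠ ⊤` as `ρ b` is not a scalar,
and `E` leaves `W` invariant, so by `z2_reducible` for the group `E` the group
`derivedSeries E (t+1)` acts trivially; use `z1_sub`. The derived series is antitone, so one can
increase the bounds to `t'`.

General fields: `GL (Fin s') F →* GL (Fin s') (AlgebraicClosure F)` is injective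
(`AlgebraicClosure F : Type`), and `GL` acts on `Fin s' → AlgebraicClosure F` by `Matrix.toLin'`.
-/

set_option autoImplicit false

universe u

namespace H36.PQ

open Subgroup H36.PP

theorem z5_closed (s : ℕ) : ∃ t, Zc.{u} s t := by
  induction s with
  | zero =>
    refine ⟨0, ?_⟩
    intro F _ _ V _ _ _ H _ ρ hd _ h _
    have h0 : Module.finrank F V = 0 := Nat.le_zero.1 hd
    have hsub : Subsingleton V := Module.finrank_zero_iff.1 h0
    ext v
    exact Subsingleton.elim _ _
  | succ s ih =>
    obtain ⟨t, hZ⟩ := ih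
    refine ⟨((s + 1) ^ 2).factorial + (s + 1).factorial + t + 3, ?_⟩
    intro F _ _ V _ _ _ H _ ρ hd hs h hh
    by_cases hV : Nontrivial V
    swap
    · rw [not_nontrivial_iff_subsingleton] at hV
      ext v
      exact Subsingleton.elim _ _
    by_cases hred : ∃ W : Submodule F V, (∀ h : H, ∀ w ∈ W, ρ h w ∈ W) ∧ W ≠ ⊥ ∧ W ≠ ⊤
    · obtain ⟨W, hW, hb, ht⟩ := hred
      exact z2_reducible hZ F V H ρ hd hs W hW hb ht h
        (derivedSeries_antitone H (by omega) hh)
    have hirr : ∀ W : Submodule F V, (∀ h : H, ∀ w ∈ W, ρ h w ∈ W) → W = ⊥ ∨ W = ⊤ := by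
      intro W hW
      by_contra hcon
      push Not at hcon
      exact hred ⟨W, hW, hcon.1, hcon.2⟩
    by_cases hN : ∃ N : Subgroup H, N.Normal ∧ (∀ x ∈ N, ∀ y ∈ N, ρ x * ρ y = ρ y * ρ x) ∧
        ∃ n ∈ N, ¬ IsScal (ρ n)
    · obtain ⟨N, hNn, hNc, n, hn, hns⟩ := hN
      exact z3_imprimitive hZ F V H ρ hd hs hirr N hNc n hn hns h
        (derivedSeries_antitone H (by omega) hh)
    have hab : ∀ N : Subgroup H, N.Normal → (∀ x ∈ N, ∀ y ∈ N, ρ x * ρ y = ρ y * ρ x) →
        ∀ n ∈ N, IsScal (ρ n) := by
      intro N hNn hNc n hn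
      by_contra hcon
      exact hN ⟨N, hNn, hNc, n, hn, hcon⟩
    by_cases hns : ∀ h : H, IsScal (ρ h)
    · have h1 : derivedSeries H 1 ≤ ρ.ker := by
        rw [derivedSeries_one, commutator_def, commutator_le]
        intro x _ y _
        rw [MonoidHom.mem_ker, commutatorElement_def]
        obtain ⟨c, hc⟩ := hns x
        have hxy : ρ x * ρ y = ρ y * ρ x := by
          rw [hc]
          ext v
          simp
        rw [map_mul, map_mul, map_mul, hxy, mul_assoc (ρ y), ← map_mul ρ x, mul_inv_cancel,
          map_one, mul_one, ← map_mul, mul_inv_cancel, map_one]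
      have h2 := h1 (derivedSeries_antitone H (by omega) hh)
      exact h2
    · obtain ⟨b, hb, hcomm⟩ := z4_primitive F V H ρ hd hs hab hns
      obtain ⟨m, hm⟩ : ∃ m, m = ((s + 1) ^ 2).factorial + 1 := ⟨_, rfl⟩
      rw [← hm] at hcomm
      obtain ⟨μ, hμ⟩ := Module.End.exists_eigenvalue (ρ b)
      let E : Subgroup H := derivedSeries H m
      let W : Submodule F V := Module.End.eigenspace (ρ b) μ
      have hWb : W ≠ ⊥ := hμ
      have hWt : W ≠ ⊤ := by
        intro h
        apply hb
        refine ⟨μ, ?_⟩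
        ext v
        have hv : v ∈ W := by rw [h]; trivial
        have := Module.End.mem_eigenspace_iff.1 hv
        rw [this]
        simp
      have hEs : Group.IsSolvable E := inferInstance
      have hWi : ∀ g : E, ∀ w ∈ W, (ρ.comp E.subtype) g w ∈ W := by
        intro g w hw
        have hw' := Module.End.mem_eigenspace_iff.1 hw
        apply Module.End.mem_eigenspace_iff.2
        change ρ b (ρ (g : H) w) = μ • ρ (g : H) w
        have h1 := congrArg (fun T : V →ₗ[F] V => T w) (hcomm (g : H) g.2)
        simp only [Module.End.mul_apply] at h1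
        rw [← h1, hw', map_smul]
      have key := z2_reducible hZ F V E (ρ.comp E.subtype) hd hEs W hWi hWb hWt
      have h1 := z1_sub E m (t + 1) (le_refl E)
      have h2 : h ∈ derivedSeries H (m + (t + 1)) :=
        derivedSeries_antitone H (by omega) hh
      obtain ⟨g, hg, rfl⟩ := h1 h2
      exact key g hg

/-- Zassenhaus -/
theorem zassenhaus (s : ℕ) : ∃ t, Zas.{u} s t := by
  obtain ⟨t, ht⟩ := z5_closed.{u} s
  refine ⟨t, ?_⟩
  intro s' hs' F _ H _ ρ hsol h hh
  let K := AlgebraicClosure F
  let f1 : H →* Matrix (Fin s') (Fin s') F := (Units.coeHom _).comp ρ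
  let f2 : Matrix (Fin s') (Fin s') F →* Matrix (Fin s') (Fin s') K :=
    ((algebraMap F K).mapMatrix : Matrix (Fin s') (Fin s') F →+* Matrix (Fin s') (Fin s') K)
  let f3 : Matrix (Fin s') (Fin s') K →* ((Fin s' → K) →ₗ[K] (Fin s' → K)) :=
    ((Matrix.toLinAlgEquiv' : Matrix (Fin s') (Fin s') K ≃ₐ[K] _) : _ →* _)
  let ρ' : H →* ((Fin s' → K) →ₗ[K] (Fin s' → K)) := f3.comp (f2.comp f1)
  have hfr : Module.finrank K (Fin s' → K) ≤ s := by
    rw [Module.finrank_fin_fun]
    exact hs'
  have h1 : ρ' h = 1 := ht K (Fin s' → K) H ρ' hfr hsol h hh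
  have h3 : Function.Injective f3 := (Matrix.toLinAlgEquiv' :
    Matrix (Fin s') (Fin s') K ≃ₐ[K] _).injective
  have h2 : Function.Injective f2 := by
    intro A B hAB
    ext i j
    have h5 : algebraMap F K (A i j) = algebraMap F K (B i j) :=
      congrArg (fun M : Matrix (Fin s') (Fin s') K => M i j) hAB
    exact (algebraMap F K).injective h5
  have h4 : f1 h = 1 := by
    apply h2
    apply h3
    rw [map_one, map_one]
    exact h1
  exact Units.ext h4

end H36.PQ
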